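import Mathlib

/-!
# Odd perfect numbers: the digraph `q → r`, `r ∣ σ(q ^ v_q)`
-/

set_option autoImplicit false

namespace Pool.Agent.BE

open Finset Nat

/-- geometric sum `1 + q + ... + q ^ (n - 1)` -/
def G (n q : ℕ) : ℕ := ∑ i ∈ range n, q ^ i

/-- `σ(q ^ v)` where `v` is the exponent of `q` in `N` -/
def s (N q : ℕ) : ℕ := G (N.factorization q + 1) q

theorem G_pos {n q : ℕ} (hn : 0 < n) : 0 < G n q := by
  unfold G
  obtain ⟨m, rfl⟩ : ∃ m, n = m + 1 := ⟨n - 1, by omega⟩
  rw [sum_range_succ']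
  simp

theorem s_pos (N q : ℕ) : 0 < s N q := G_pos (Nat.succ_pos _)

theorem G_eq_sigma {q : ℕ} (hq : q.Prime) (v : ℕ) :
    ArithmeticFunction.sigma 1 (q ^ v) = G (v + 1) q := by
  rw [ArithmeticFunction.sigma_one_apply_prime_pow hq, G]

/-- `∏ s_q = 2 N` -/
theorem prod_s {N : ℕ} (hN : N.Perfect) : ∏ q ∈ N.primeFactors, s N q = 2 * N := by
  have hN0 : N ≠ 0 := hN.2.ne'
  have h1 : ArithmeticFunction.sigma 1 N = 2 * N := by
    rw [ArithmeticFunction.sigma_one_apply]
    exact (Nat.perfect_iff_sum_divisors_eq_two_mul hN.2).1 hN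
  rw [← h1, ArithmeticFunction.IsMultiplicative.multiplicative_factorization
    (ArithmeticFunction.sigma 1) ArithmeticFunction.isMultiplicative_sigma hN0,
    Finsupp.prod, Nat.support_factorization]
  refine prod_congr rfl fun q hq => ?_
  rw [G_eq_sigma (Nat.prime_of_mem_primeFactors hq), s]

/-- conservation of the exponent of every prime -/
theorem sum_fac {N : ℕ} (hN : N.Perfect) (r : ℕ) :
    ∑ q ∈ N.primeFactors, (s N q).factorization r = (2 * N).factorization r := by
  rw [← prod_s hN, Nat.factorization_prod_apply]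
  intro q _
  exact (s_pos N q).ne'

theorem fac_two_mul_odd {N : ℕ} (ho : Odd N) {r : ℕ} (hr : r ≠ 2) :
    (2 * N).factorization r = N.factorization r := by
  have hN0 : N ≠ 0 := by rintro rfl; simp at ho
  rw [Nat.factorization_mul (by norm_num) hN0, Finsupp.add_apply,
    Nat.Prime.factorization Nat.prime_two, Finsupp.single_apply, if_neg (Ne.symm hr)]
  simp

theorem fac_two {N : ℕ} (ho : Odd N) : (2 * N).factorization 2 = 1 := by
  have hN0 : N ≠ 0 := by rintro rfl; simp at ho
  rw [Nat.factorization_mul (by norm_num) hN0, Finsupp.add_apply,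
    Nat.Prime.factorization Nat.prime_two, Finsupp.single_apply, if_pos rfl,
    Nat.factorization_eq_zero_of_not_dvd (by
      intro h
      rcases ho with ⟨m, hm⟩
      omega)]

theorem sum_fac_odd {N : ℕ} (ho : Odd N) (hN : N.Perfect) {r : ℕ} (hr : r ≠ 2) :
    ∑ q ∈ N.primeFactors, (s N q).factorization r = N.factorization r := by
  rw [sum_fac hN, fac_two_mul_odd ho hr]

theorem sum_fac_two {N : ℕ} (ho : Odd N) (hN : N.Perfect) :
    ∑ q ∈ N.primeFactors, (s N q).factorization 2 = 1 := by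
  rw [sum_fac hN, fac_two ho]

theorem two_lt {N : ℕ} (ho : Odd N) {q : ℕ} (hq : q ∈ N.primeFactors) : 2 < q := by
  have h1 := Nat.prime_of_mem_primeFactors hq
  have h2 := Nat.dvd_of_mem_primeFactors hq
  have h3 := h1.two_le
  rcases Nat.lt_or_ge 2 q with h | h
  · exact h
  · have : q = 2 := by omega
    subst this
    rcases ho with ⟨m, hm⟩
    omega

theorem fac_pos {N : ℕ} {q : ℕ} (hq : q ∈ N.primeFactors) : 1 ≤ N.factorization q :=
  Nat.one_le_iff_ne_zero.2 (Nat.Prime.factorization_pos_of_dvd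
    (Nat.prime_of_mem_primeFactors hq) (Nat.pos_of_mem_primeFactors hq |>.ne' |> fun _ =>
      (Nat.mem_primeFactors.1 hq).2.2) (Nat.dvd_of_mem_primeFactors hq)).ne'

theorem G_le {q : ℕ} : ∀ v : ℕ, G (v + 1) q ≤ (q + 1) ^ v := by
  intro v
  induction v with
  | zero => simp [G]
  | succ v ih =>
    have h1 : G (v + 1 + 1) q = G (v + 1) q + q ^ (v + 1) := by
      unfold G; rw [sum_range_succ]
    have h2 : q ^ v ≤ (q + 1) ^ v := Nat.pow_le_pow_left (by omega) v
    rw [h1, pow_succ, pow_succ]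
    nlinarith

theorem lt_G {q : ℕ} {v : ℕ} (hv : 1 ≤ v) : q ^ v < G (v + 1) q := by
  have h1 : G (v + 1) q = G v q + q ^ v := by unfold G; rw [sum_range_succ]
  have := G_pos (n := v) (q := q) hv
  omega

theorem s_le (N q : ℕ) : s N q ≤ (q + 1) ^ N.factorization q := G_le _

theorem lt_s {N q : ℕ} (hq : q ∈ N.primeFactors) : q ^ N.factorization q < s N q :=
  lt_G (fac_pos hq)

theorem G_mod {n q : ℕ} (hn : 1 ≤ n) : ∃ k, G n q = q * k + 1 := by
  obtain ⟨m, rfl⟩ : ∃ m, n = m + 1 := ⟨n - 1, by omega⟩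
  refine ⟨∑ i ∈ range m, q ^ i, ?_⟩
  unfold G
  rw [sum_range_succ', mul_sum]
  simp [pow_succ, mul_comm]

theorem not_dvd_s {N q : ℕ} (hq : q.Prime) : ¬ q ∣ s N q := by
  obtain ⟨k, hk⟩ := G_mod (n := N.factorization q + 1) (q := q) (by omega)
  intro h
  rw [s, hk] at h
  have h2 : q ∣ 1 := (Nat.dvd_add_right (Dvd.intro k rfl)).1 h
  exact hq.one_lt.ne' (Nat.dvd_one.1 h2)

/-- a prime `r ≠ 2` dividing some `s_q` divides `N` -/
theorem head_mem {N : ℕ} (hN : N.Perfect) {q r : ℕ} (hq : q ∈ N.primeFactors)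
    (hr : r.Prime) (h : r ∣ s N q) (hr2 : r ≠ 2) : r ∈ N.primeFactors := by
  have h1 : s N q ∣ 2 * N := by
    rw [← prod_s hN]
    exact dvd_prod_of_mem _ hq
  have h2 : r ∣ 2 * N := h.trans h1
  rcases (Nat.Prime.dvd_mul hr).1 h2 with h3 | h3
  · exact absurd ((Nat.prime_dvd_prime_iff_eq hr Nat.prime_two).1 h3) hr2
  · exact Nat.mem_primeFactors.2 ⟨hr, h3, hN.2.ne'⟩

theorem odd_s {N q : ℕ} (hq : Odd q) (hv : Even (N.factorization q)) : Odd (s N q) := by
  unfold s G
  obtain ⟨m, hm⟩ := hv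
  rw [hm]
  have key : ∀ n : ℕ, Odd (∑ i ∈ range (2 * n + 1), q ^ i) := by
    intro n
    induction n with
    | zero => simp
    | succ n ih =>
      rw [show 2 * (n + 1) + 1 = 2 * n + 1 + 1 + 1 by ring, sum_range_succ, sum_range_succ,
        add_assoc]
      exact ih.add_even ((hq.pow).add_odd (hq.pow))
  have := key m
  rwa [show 2 * m + 1 = m + m + 1 by ring] at this

theorem even_s {N q : ℕ} (hq : Odd q) (hv : Odd (N.factorization q)) : 2 ∣ s N q := by
  unfold s G
  obtain ⟨m, hm⟩ := hv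
  rw [hm]
  have key : ∀ n : ℕ, 2 ∣ (∑ i ∈ range (2 * n), q ^ i) := by
    intro n
    induction n with
    | zero => simp
    | succ n ih =>
      rw [show 2 * (n + 1) = 2 * n + 1 + 1 by ring, sum_range_succ, sum_range_succ, add_assoc]
      exact dvd_add ih ((hq.pow).add_odd (hq.pow)).two_dvd
  have := key (m + 1)
  rwa [show 2 * (m + 1) = 2 * m + 1 + 1 by ring] at this

/-- at most one prime has an odd exponent -/
theorem card_odd_le {N : ℕ} (ho : Odd N) (hN : N.Perfect) :
    #{q ∈ N.primeFactors | Odd (N.factorization q)} ≤ 1 := by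
  rw [← sum_fac_two ho hN, card_filter]
  refine sum_le_sum fun q hq => ?_
  split_ifs with h
  · have hqo : Odd q := by
      have := two_lt ho hq
      exact (Nat.prime_of_mem_primeFactors hq).odd_of_ne_two (by omega)
    exact Nat.one_le_iff_ne_zero.2
      (Nat.Prime.factorization_pos_of_dvd Nat.prime_two (s_pos N q).ne' (even_s hqo h)).ne'
  · exact Nat.zero_le _

/-- some prime has an odd exponent -/
theorem exists_odd {N : ℕ} (ho : Odd N) (hN : N.Perfect) :
    ∃ q ∈ N.primeFactors, Odd (N.factorization q) := by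
  by_contra hcon
  push Not at hcon
  have h := sum_fac_two ho hN
  rw [sum_eq_zero] at h
  · exact absurd h (by norm_num)
  · intro q hq
    have hqo : Odd q := by
      have := two_lt ho hq
      exact (Nat.prime_of_mem_primeFactors hq).odd_of_ne_two (by omega)
    have h1 := odd_s hqo (Nat.not_odd_iff_even.1 (hcon q hq))
    apply Nat.factorization_eq_zero_of_not_dvd
    intro h2
    rcases h1 with ⟨m, hm⟩
    omega

/-- the number of tails with a head in `T` -/
theorem card_head_le {N : ℕ} (ho : Odd N) (hN : N.Perfect) (T : Finset ℕ)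
    (hT : ∀ r ∈ T, r.Prime ∧ r ≠ 2) :
    #{q ∈ N.primeFactors | ∃ r ∈ T, r ∣ s N q} ≤ ∑ r ∈ T, N.factorization r := by
  have h1 : ∀ q ∈ N.primeFactors, (if ∃ r ∈ T, r ∣ s N q then 1 else 0) ≤
      ∑ r ∈ T, (s N q).factorization r := by
    intro q hq
    split_ifs with h
    · obtain ⟨r, hr, hd⟩ := h
      calc 1 ≤ (s N q).factorization r := Nat.one_le_iff_ne_zero.2
            (Nat.Prime.factorization_pos_of_dvd (hT r hr).1 (s_pos N q).ne' hd).ne'
        _ ≤ _ := single_le_sum (f := fun r => (s N q).factorization r)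
            (fun _ _ => Nat.zero_le _) hr
    · exact Nat.zero_le _
  rw [card_filter]
  calc ∑ q ∈ N.primeFactors, (if ∃ r ∈ T, r ∣ s N q then 1 else 0)
      ≤ ∑ q ∈ N.primeFactors, ∑ r ∈ T, (s N q).factorization r := sum_le_sum h1
    _ = ∑ r ∈ T, ∑ q ∈ N.primeFactors, (s N q).factorization r := sum_comm
    _ = ∑ r ∈ T, N.factorization r :=
        sum_congr rfl fun r hr => sum_fac_odd ho hN (hT r hr).2

/-- the weighted identity -/
theorem sum_pot {N : ℕ} (ho : Odd N) (hN : N.Perfect) (f : ℕ → ℝ) :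
    ∑ q ∈ N.primeFactors, ∑ r ∈ (s N q).primeFactors, ((s N q).factorization r : ℝ) * f r =
      f 2 + ∑ r ∈ N.primeFactors, (N.factorization r : ℝ) * f r := by
  have hN0 : N ≠ 0 := hN.2.ne'
  set U : Finset ℕ := (2 * N).primeFactors with hU
  have h2N : U = insert 2 N.primeFactors := by
    rw [hU, Nat.primeFactors_mul (by norm_num) hN0, Nat.Prime.primeFactors Nat.prime_two]
    rfl
  have hnot : 2 ∉ N.primeFactors := fun h => by
    have := two_lt ho h
    omega
  have h1 : ∀ q ∈ N.primeFactors,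
      ∑ r ∈ (s N q).primeFactors, ((s N q).factorization r : ℝ) * f r =
        ∑ r ∈ U, ((s N q).factorization r : ℝ) * f r := by
    intro q hq
    apply sum_subset
    · apply Nat.primeFactors_mono _ (by positivity)
      rw [← prod_s hN]
      exact dvd_prod_of_mem _ hq
    · intro r _ hr
      rw [← Nat.support_factorization, Finsupp.notMem_support_iff] at hr
      rw [hr]; simp
  rw [sum_congr rfl h1, sum_comm]
  have h2 : ∀ r ∈ U, ∑ q ∈ N.primeFactors, ((s N q).factorization r : ℝ) * f r =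
      ((2 * N).factorization r : ℝ) * f r := by
    intro r _
    rw [← sum_mul, ← sum_fac hN r]
    push_cast
    rfl
  rw [sum_congr rfl h2, h2N, sum_insert hnot, fac_two ho]
  congr 1
  · simp
  · refine sum_congr rfl fun r hr => ?_
    rw [fac_two_mul_odd ho (by have := two_lt ho hr; omega)]

end Pool.Agent.BE
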