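import Pool.Agent.Lib.MP_f02ea4_nt.BE.Defs

/-!
# Consequences of the general inequality
TASK Cg2. An older version (other constants, a logarithm in `GenIneq`, `Thin` used) is
/team-store/MP_f02ea4_BE_CorGen.lean: parts can be copied. The sets and statements are in Defs.lean
(LO, LOc, ZZ, GenIneq, EulerExp; note that `ZZ` now has the exponent of `q` instead of `B`).
Write `W = #N.primeFactors`.
* `card_ZZ_le`: `q ∈ ZZ N B y` has `v = v_q ≥ 2` (`q ^ 1 ≤ y ^ 0` fails) and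
  `q ≤ y ^ (1 - 1/v) ≤ y ^ (1 - 1/B)`; there are at most `y ^ (1 - 1/B)` such `q ≥ 1`.
* `cor_explicit`: `GenIneq` with `y = P`: `LO` is all of `N.primeFactors`, `LOc` is empty, so
  `W³ ≤ 9261 B⁶ P² (P ^ (1 - 1/B) + 1) ≤ 18522 B⁶ P ^ (3 - 1/B) ≤ (27 B² P ^ (1 - 1/(3B)))³`.
* `cor_gen` (`B ≥ 3`): let `p` be the free prime, `α = v_p ≤ C √P log P` by `EulerExp`.
  `GenIneq` with `y = P`: `LOc ⊆ {p}`, `∑ ≤ α`, `LO ⊇ N.primeFactors \ {p}`, so
  `(W - 1)³ ≤ 9261 B⁶ P² (C √P log P + P ^ (1 - 1/B) + 1) ≤ C' P ^ (3 - 1/B)` since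
  `1 - 1/B ≥ 2/3` and `√P log P ≤ C P ^ (2/3)`. Then
  `log N ≤ (B W + α) log P ≤ C'' P ^ (1 - 1/(3B)) log P`. Put `u = log N ≥ log 3`
  (`log log N > 0` since `N ≥ 3`). If `P ≥ u²`: `(u / log u) ^ (1 + 1/(3B-1)) ≤ C u² ≤ C P`
  (exponent `≤ 3/2`, `log u ≥ log log 3 > 0`). If `P < u²`: `log P < 2 log u`, so
  `P ^ (1 - 1/(3B)) ≥ c u / log u`; raise to the power `1 / (1 - 1/(3B)) = 1 + 1/(3B - 1)`.
-/

set_option autoImplicit false

namespace Pool.Agent.BE

open Finset Nat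

private theorem cg2_log_three : (1 : ℝ) < Real.log 3 := by
  rw [Real.lt_log_iff_exp_lt (by norm_num)]
  have := Real.exp_one_lt_d9
  linarith

/-- `N ≤ P ^ (B W + α)` -/
private theorem cg2_log_le {N P p B : ℕ} (hN0 : N ≠ 0)
    (hmax : ∀ q ∈ N.primeFactors, q ≤ P)
    (hexp : ∀ q ∈ N.primeFactors, q ≠ p → N.factorization q ≤ B)
    (hP : 1 ≤ P) :
    Real.log N ≤ (B * #N.primeFactors + (N.factorization p : ℝ)) * Real.log P := by
  have h1 : ∏ q ∈ N.primeFactors, q ^ N.factorization q = N := by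
    have := Nat.prod_factorization_pow_eq_self hN0
    rwa [Finsupp.prod, Nat.support_factorization] at this
  have h2 : N ≤ P ^ (B * #N.primeFactors + N.factorization p) := by
    calc N = ∏ q ∈ N.primeFactors, q ^ N.factorization q := h1.symm
      _ ≤ ∏ q ∈ N.primeFactors, P ^ N.factorization q :=
          prod_le_prod' fun q hq => Nat.pow_le_pow_left (hmax q hq) _
      _ = P ^ (∑ q ∈ N.primeFactors, N.factorization q) := by rw [prod_pow_eq_pow_sum]
      _ ≤ P ^ (B * #N.primeFactors + N.factorization p) := by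
          apply Nat.pow_le_pow_right hP
          have h3 : ∀ q ∈ N.primeFactors, N.factorization q ≤
              B + (if q = p then N.factorization p else 0) := by
            intro q hq
            split_ifs with h
            · rw [h]; omega
            · have := hexp q hq h
              omega
          refine (sum_le_sum h3).trans ?_
          rw [sum_add_distrib, sum_const, smul_eq_mul, sum_ite_eq']
          have h4 : (if p ∈ N.primeFactors then N.factorization p else 0) ≤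
              N.factorization p := by
            split_ifs <;> simp
          have h5 : #N.primeFactors * B = B * #N.primeFactors := mul_comm _ _
          omega
  have h3 : (N : ℝ) ≤ (P : ℝ) ^ (B * #N.primeFactors + N.factorization p) := by
    exact_mod_cast h2
  have h4 : Real.log N ≤ Real.log ((P : ℝ) ^ (B * #N.primeFactors + N.factorization p)) :=
    Real.log_le_log (by exact_mod_cast Nat.pos_of_ne_zero hN0) h3
  rw [Real.log_pow] at h4
  push_cast at h4
  exact h4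

/-- `√P log P ≤ 6 P ^ (2/3)` -/
private theorem cg2_sqrt_log {P : ℝ} (hP : 1 ≤ P) :
    Real.sqrt P * Real.log P ≤ 6 * P ^ (2 / 3 : ℝ) := by
  have hP0 : 0 < P := by linarith
  have h1 : Real.log (P ^ (1 / 6 : ℝ)) = (1 / 6) * Real.log P := Real.log_rpow hP0 _
  have h2 : Real.log (P ^ (1 / 6 : ℝ)) ≤ P ^ (1 / 6 : ℝ) - 1 :=
    Real.log_le_sub_one_of_pos (Real.rpow_pos_of_pos hP0 _)
  have h3 : Real.log P ≤ 6 * P ^ (1 / 6 : ℝ) := by
    rw [h1] at h2
    linarith
  have h4 : Real.sqrt P * P ^ (1 / 6 : ℝ) = P ^ (2 / 3 : ℝ) := by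
    rw [Real.sqrt_eq_rpow, ← Real.rpow_add hP0]
    norm_num
  calc Real.sqrt P * Real.log P ≤ Real.sqrt P * (6 * P ^ (1 / 6 : ℝ)) :=
        mul_le_mul_of_nonneg_left h3 (Real.sqrt_nonneg _)
    _ = 6 * (Real.sqrt P * P ^ (1 / 6 : ℝ)) := by ring
    _ = 6 * P ^ (2 / 3 : ℝ) := by rw [h4]

/-- the passage from `log N ≤ D P ^ θ log P` to the lower bound for `P` -/
private theorem cg2_second {B : ℕ} (hB : 1 ≤ B) {D : ℝ} (hD : 0 < D) :
    ∃ c : ℝ, 0 < c ∧ ∀ N P : ℕ, 3 ≤ N → 3 ≤ P →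
      Real.log N ≤ D * (P : ℝ) ^ (1 - 1 / (3 * (B : ℝ))) * Real.log P →
      c * (Real.log N / Real.log (Real.log N)) ^ (1 + 1 / (3 * (B : ℝ) - 1)) ≤ P := by
  have hB1 : (1 : ℝ) ≤ B := by exact_mod_cast hB
  have hB0 : (0 : ℝ) < B := by linarith
  have h3B : (2 : ℝ) ≤ 3 * (B : ℝ) - 1 := by linarith
  set a : ℝ := 1 + 1 / (3 * (B : ℝ) - 1) with ha
  set θ : ℝ := 1 - 1 / (3 * (B : ℝ)) with hθ
  have haθ : θ * a = 1 := by
    rw [ha, hθ]
    have h1 : (3 * (B : ℝ) - 1) ≠ 0 := by linarith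
    field_simp
    ring
  have ha2 : a ≤ 2 := by
    rw [ha]
    have : 1 / (3 * (B : ℝ) - 1) ≤ 1 := by
      rw [div_le_one (by linarith)]
      linarith
    linarith
  have ha0 : 0 < a := by
    rw [ha]
    have : 0 < 1 / (3 * (B : ℝ) - 1) := by
      apply one_div_pos.2
      linarith
    linarith
  set l₀ : ℝ := Real.log (Real.log 3) with hl₀
  have hl₀pos : 0 < l₀ := Real.log_pos cg2_log_three
  set K : ℝ := 2 * D with hK
  have hKpos : 0 < K := by positivity
  refine ⟨min (l₀ ^ 2) (1 / K ^ a), ?_, ?_⟩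
  · apply lt_min (by positivity)
    have := Real.rpow_pos_of_pos hKpos a
    positivity
  intro N P hN3 hP3 hlogN
  have hP3r : (3 : ℝ) ≤ P := by exact_mod_cast hP3
  have hP0 : (0 : ℝ) < P := by linarith
  have hNr : (3 : ℝ) ≤ N := by exact_mod_cast hN3
  set u : ℝ := Real.log N with hu
  have hu3 : Real.log 3 ≤ u := Real.log_le_log (by norm_num) hNr
  have hu1 : 1 < u := lt_of_lt_of_le cg2_log_three hu3
  have hℓ : l₀ ≤ Real.log u := Real.log_le_log (by linarith [cg2_log_three]) hu3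
  have hℓpos : 0 < Real.log u := lt_of_lt_of_le hl₀pos hℓ
  have hlogP : 0 < Real.log P := Real.log_pos (by linarith)
  have hq0 : 0 ≤ u / Real.log u := by positivity
  have hqa : 0 ≤ (u / Real.log u) ^ a := Real.rpow_nonneg hq0 a
  rcases le_or_gt (u ^ 2) (P : ℝ) with hbig | hsmall
  · have h1 : u / Real.log u ≤ u / l₀ := div_le_div_of_nonneg_left (by linarith) hl₀pos hℓ
    have hl1 : l₀ ≤ 1 := by
      have h3 : Real.log 3 ≤ 2 := by
        rw [Real.log_le_iff_le_exp (by norm_num)]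
        have h4 : (2 : ℝ) + 1 ≤ Real.exp 2 := Real.add_one_le_exp 2
        linarith
      have h4 : Real.log (Real.log 3) ≤ Real.log 3 - 1 :=
        Real.log_le_sub_one_of_pos (by linarith [cg2_log_three])
      rw [hl₀]
      linarith
    have h2 : 1 ≤ u / l₀ := by
      rw [le_div_iff₀ hl₀pos]
      linarith
    have h3 : (u / Real.log u) ^ a ≤ (u / l₀) ^ (2 : ℝ) :=
      (Real.rpow_le_rpow hq0 h1 ha0.le).trans (Real.rpow_le_rpow_of_exponent_le h2 ha2)
    have h4 : (u / l₀) ^ (2 : ℝ) = u ^ 2 / l₀ ^ 2 := by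
      rw [show (2 : ℝ) = ((2 : ℕ) : ℝ) by norm_num, Real.rpow_natCast, div_pow]
    rw [h4] at h3
    calc min (l₀ ^ 2) (1 / K ^ a) * (u / Real.log u) ^ a
        ≤ l₀ ^ 2 * (u / Real.log u) ^ a :=
          mul_le_mul_of_nonneg_right (min_le_left _ _) hqa
      _ ≤ l₀ ^ 2 * (u ^ 2 / l₀ ^ 2) := mul_le_mul_of_nonneg_left h3 (by positivity)
      _ = u ^ 2 := by field_simp
      _ ≤ P := hbig
  · have h1 : Real.log P ≤ 2 * Real.log u := by
      have h2 : Real.log P ≤ Real.log (u ^ 2) := Real.log_le_log hP0 hsmall.le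
      rw [Real.log_pow] at h2
      exact_mod_cast h2
    have h2 : u ≤ K * Real.log u * (P : ℝ) ^ θ := by
      calc u ≤ D * (P : ℝ) ^ θ * Real.log P := hlogN
        _ ≤ D * (P : ℝ) ^ θ * (2 * Real.log u) := by
            apply mul_le_mul_of_nonneg_left h1
            have := Real.rpow_pos_of_pos hP0 θ
            positivity
        _ = K * Real.log u * (P : ℝ) ^ θ := by
            rw [hK]
            ring
    have h3 : u / Real.log u ≤ K * (P : ℝ) ^ θ := by
      rw [div_le_iff₀ hℓpos]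
      linarith
    have h4 : (u / Real.log u) ^ a ≤ K ^ a * P := by
      calc (u / Real.log u) ^ a ≤ (K * (P : ℝ) ^ θ) ^ a := Real.rpow_le_rpow hq0 h3 ha0.le
        _ = K ^ a * ((P : ℝ) ^ θ) ^ a :=
            Real.mul_rpow hKpos.le (Real.rpow_nonneg hP0.le _)
        _ = K ^ a * P := by
            rw [← Real.rpow_mul hP0.le, haθ, Real.rpow_one]
    have hKa : 0 < K ^ a := Real.rpow_pos_of_pos hKpos a
    calc min (l₀ ^ 2) (1 / K ^ a) * (u / Real.log u) ^ a
        ≤ (1 / K ^ a) * (u / Real.log u) ^ a :=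
          mul_le_mul_of_nonneg_right (min_le_right _ _) hqa
      _ ≤ (1 / K ^ a) * (K ^ a * P) := mul_le_mul_of_nonneg_left h4 (by positivity)
      _ = P := by field_simp

private theorem cg2_pow_cube {P : ℝ} (hP0 : 0 < P) {B : ℕ} (hB : 1 ≤ B) :
    P ^ 2 * P ^ (1 - 1 / (B : ℝ)) = (P ^ (1 - 1 / (3 * (B : ℝ)))) ^ 3 := by
  have hB0 : (0 : ℝ) < B := by exact_mod_cast hB
  rw [← Real.rpow_natCast, ← Real.rpow_natCast, ← Real.rpow_mul hP0.le, ← Real.rpow_add hP0]
  congr 1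
  push_cast
  field_simp
  ring


theorem card_ZZ_le {N B : ℕ} {y : ℝ} (hB : 1 ≤ B) (hy : 2 ≤ y) :
    (#(ZZ N B y) : ℝ) ≤ y ^ (1 - 1 / (B : ℝ)) := by
  have hB0 : (0 : ℝ) < B := by exact_mod_cast hB
  have hy1 : 1 ≤ y := by linarith
  have hy0 : 0 < y := by linarith
  have key : ∀ q ∈ ZZ N B y, (q : ℝ) ≤ y ^ (1 - 1 / (B : ℝ)) := by
    intro q hq
    unfold ZZ at hq
    rw [mem_filter] at hq
    obtain ⟨hq1, hq2, hq3⟩ := hq
    have hv := fac_pos hq1
    set v := N.factorization q with hvdef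
    have hv0 : (0 : ℝ) < v := by exact_mod_cast hv
    have hq0 : (0 : ℝ) ≤ q := Nat.cast_nonneg q
    have h4 : (q : ℝ) = ((q : ℝ) ^ v) ^ (1 / (v : ℝ)) := by
      rw [← Real.rpow_natCast, ← Real.rpow_mul hq0]
      rw [mul_one_div_cancel hv0.ne', Real.rpow_one]
    have h5 : (y ^ (v - 1)) ^ (1 / (v : ℝ)) = y ^ (1 - 1 / (v : ℝ)) := by
      rw [← Real.rpow_natCast, ← Real.rpow_mul hy0.le]
      congr 1
      have : ((v - 1 : ℕ) : ℝ) = (v : ℝ) - 1 := by
        rw [Nat.cast_sub hv]; simp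
      rw [this]
      field_simp
    have h6 : (q : ℝ) ≤ y ^ (1 - 1 / (v : ℝ)) := by
      rw [h4, ← h5]
      exact Real.rpow_le_rpow (by positivity) hq3 (by positivity)
    refine h6.trans (Real.rpow_le_rpow_of_exponent_le hy1 ?_)
    have h7 : 1 / (B : ℝ) ≤ 1 / (v : ℝ) :=
      one_div_le_one_div_of_le hv0 (by exact_mod_cast hq2)
    linarith
  have hsub : ZZ N B y ⊆ Finset.Icc 1 ⌊y ^ (1 - 1 / (B : ℝ))⌋₊ := by
    intro q hq
    rw [Finset.mem_Icc]
    refine ⟨?_, Nat.le_floor (key q hq)⟩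
    unfold ZZ at hq
    rw [mem_filter] at hq
    exact Nat.pos_of_mem_primeFactors hq.1
  have h1 := card_le_card hsub
  rw [Nat.card_Icc, Nat.add_sub_cancel] at h1
  have h2 : (#(ZZ N B y) : ℝ) ≤ (⌊y ^ (1 - 1 / (B : ℝ))⌋₊ : ℝ) := by exact_mod_cast h1
  exact h2.trans (Nat.floor_le (by positivity))

theorem cor_explicit (h : GenIneq) {N P B : ℕ} (hB : 1 ≤ B) (ho : Odd N) (hN : N.Perfect)
    (hP : P ∈ N.primeFactors) (hPmax : ∀ q ∈ N.primeFactors, q ≤ P)
    (hexp : ∀ q ∈ N.primeFactors, N.factorization q ≤ B) :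
    (#N.primeFactors : ℝ) ≤ 27 * (B : ℝ) ^ 2 * (P : ℝ) ^ (1 - 1 / (3 * (B : ℝ))) := by
  have hP3 : 2 < P := two_lt ho hP
  have hP3r : (3 : ℝ) ≤ P := by exact_mod_cast hP3
  have hP1 : (1 : ℝ) ≤ P := by linarith
  have hP0 : (0 : ℝ) < P := by linarith
  have hB1 : (1 : ℝ) ≤ B := by exact_mod_cast hB
  have hB0 : (0 : ℝ) < B := by linarith
  have hg := h N B P ho hN hB (by linarith)
  have hLO : LO N B P = N.primeFactors := by
    unfold LO
    apply filter_true_of_mem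
    intro q hq
    exact ⟨by exact_mod_cast hPmax q hq, hexp q hq⟩
  have hLOc : LOc N B P = ∅ := by
    unfold LOc
    apply filter_false_of_mem
    intro q hq hcon
    exact hcon ⟨by exact_mod_cast hPmax q hq, hexp q hq⟩
  rw [hLO, hLOc, sum_empty, zero_add] at hg
  have hZ := card_ZZ_le (N := N) hB (show (2 : ℝ) ≤ (P : ℝ) by linarith)
  have hinv : 1 / (B : ℝ) ≤ 1 := by
    rw [div_le_one hB0]; exact hB1
  have hx1 : 1 ≤ (P : ℝ) ^ (1 - 1 / (B : ℝ)) := Real.one_le_rpow hP1 (by linarith)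
  have hcube := cg2_pow_cube hP0 hB
  set X : ℝ := (P : ℝ) ^ (1 - 1 / (3 * (B : ℝ))) with hX
  have hX0 : 0 < X := Real.rpow_pos_of_pos hP0 _
  have h3 : (#N.primeFactors : ℝ) ^ 3 ≤ (27 * (B : ℝ) ^ 2 * X) ^ 3 := by
    calc (#N.primeFactors : ℝ) ^ 3
        ≤ 9261 * (B : ℝ) ^ 6 * (P : ℝ) ^ 2 * (#(ZZ N B P) + 1) := hg
      _ ≤ 9261 * (B : ℝ) ^ 6 * (P : ℝ) ^ 2 * (2 * (P : ℝ) ^ (1 - 1 / (B : ℝ))) :=
          mul_le_mul_of_nonneg_left (by linarith) (by positivity)
      _ = 18522 * (B : ℝ) ^ 6 * ((P : ℝ) ^ 2 * (P : ℝ) ^ (1 - 1 / (B : ℝ))) := by ring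
      _ = 18522 * (B : ℝ) ^ 6 * X ^ 3 := by rw [hcube]
      _ ≤ 19683 * (B : ℝ) ^ 6 * X ^ 3 := by
          have : 0 < (B : ℝ) ^ 6 * X ^ 3 := by positivity
          nlinarith
      _ = (27 * (B : ℝ) ^ 2 * X) ^ 3 := by ring
  exact le_of_pow_le_pow_left₀ (by norm_num) (by positivity) h3

theorem cor_gen (h : GenIneq) (hEu : EulerExp) (B : ℕ) (hB : 3 ≤ B) :
    ∃ c : ℝ, 0 < c ∧ ∀ N P p : ℕ, Odd N → N.Perfect → P ∈ N.primeFactors →
      (∀ q ∈ N.primeFactors, q ≤ P) → (∀ q ∈ N.primeFactors, q ≠ p → N.factorization q ≤ B) →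
      c * (#N.primeFactors : ℝ) ≤ (P : ℝ) ^ (1 - 1 / (3 * (B : ℝ))) ∧
      c * (Real.log N / Real.log (Real.log N)) ^ (1 + 1 / (3 * (B : ℝ) - 1)) ≤ P := by
  obtain ⟨C, hC, hEuB⟩ := hEu B
  have hB1' : 1 ≤ B := by omega
  have hB3 : (3 : ℝ) ≤ B := by exact_mod_cast hB
  have hB0 : (0 : ℝ) < B := by linarith
  set A : ℝ := 9261 * (B : ℝ) ^ 6 * (6 * C + 2) with hA
  have hApos : 0 < A := by positivity
  set D : ℝ := B * (2 + A) + 6 * C with hD
  have hDpos : 0 < D := by positivity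
  obtain ⟨c₂, hc₂, hsecond⟩ := cg2_second hB1' hDpos
  refine ⟨min (1 / (2 + A)) c₂, lt_min (by positivity) hc₂, ?_⟩
  intro N P p ho hN hP hmax hexp
  have hP3 : 2 < P := two_lt ho hP
  have hP3r : (3 : ℝ) ≤ P := by exact_mod_cast hP3
  have hP1 : (1 : ℝ) ≤ P := by linarith
  have hP0 : (0 : ℝ) < P := by linarith
  have hN0 : N ≠ 0 := hN.2.ne'
  have hlogP : 0 < Real.log P := Real.log_pos (by linarith)
  -- the exponent of `p`
  have hα : (N.factorization p : ℝ) ≤ C * Real.sqrt P * Real.log P := by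
    by_cases hp : p ∈ N.primeFactors
    · exact hEuB N P p ho hN hp hmax hexp
    · have h0 : N.factorization p = 0 := by
        rw [← Finsupp.notMem_support_iff, Nat.support_factorization]
        exact hp
      rw [h0]
      have := Real.sqrt_nonneg (P : ℝ)
      push_cast
      positivity
  have hα' : (N.factorization p : ℝ) ≤ 6 * C * (P : ℝ) ^ (2 / 3 : ℝ) := by
    have h1 := mul_le_mul_of_nonneg_left (cg2_sqrt_log hP1) hC.le
    calc (N.factorization p : ℝ) ≤ C * Real.sqrt P * Real.log P := hα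
      _ = C * (Real.sqrt P * Real.log P) := by ring
      _ ≤ C * (6 * (P : ℝ) ^ (2 / 3 : ℝ)) := h1
      _ = 6 * C * (P : ℝ) ^ (2 / 3 : ℝ) := by ring
  have hg := h N B P ho hN hB1' (by linarith)
  have hZ := card_ZZ_le (N := N) hB1' (show (2 : ℝ) ≤ (P : ℝ) by linarith)
  have hinv : 1 / (B : ℝ) ≤ 1 / 3 := one_div_le_one_div_of_le (by norm_num) hB3
  have hinv0 : 0 < 1 / (B : ℝ) := by positivity
  have hx1 : 1 ≤ (P : ℝ) ^ (1 - 1 / (B : ℝ)) := Real.one_le_rpow hP1 (by linarith)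
  have hx2 : (P : ℝ) ^ (2 / 3 : ℝ) ≤ (P : ℝ) ^ (1 - 1 / (B : ℝ)) :=
    Real.rpow_le_rpow_of_exponent_le hP1 (by linarith)
  have hcube := cg2_pow_cube hP0 hB1'
  have hinv3 : 1 / (3 * (B : ℝ)) ≤ 1 / 3 := by
    apply one_div_le_one_div_of_le (by norm_num)
    linarith
  have hx3 : (P : ℝ) ^ (2 / 3 : ℝ) ≤ (P : ℝ) ^ (1 - 1 / (3 * (B : ℝ))) :=
    Real.rpow_le_rpow_of_exponent_le hP1 (by linarith)
  have hX1 : 1 ≤ (P : ℝ) ^ (1 - 1 / (3 * (B : ℝ))) := Real.one_le_rpow hP1 (by linarith)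
  set X : ℝ := (P : ℝ) ^ (1 - 1 / (3 * (B : ℝ))) with hX
  have hX0 : 0 < X := by linarith
  -- the sum over the other primes
  have hsub : ∀ q ∈ LOc N B P, q = p := by
    intro q hq
    unfold LOc at hq
    rw [mem_filter] at hq
    by_contra hne
    exact hq.2 ⟨by exact_mod_cast hmax q hq.1, hexp q hq.1 hne⟩
  have hLOc : (∑ q ∈ LOc N B P, (N.factorization q : ℝ)) ≤ (N.factorization p : ℝ) := by
    have h1 : LOc N B P ⊆ {p} := by
      intro q hq
      rw [mem_singleton]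
      exact hsub q hq
    refine (sum_le_sum_of_subset_of_nonneg h1 ?_).trans ?_
    · intro q _ _
      exact Nat.cast_nonneg _
    · rw [sum_singleton]
  have hLO : (#N.primeFactors : ℝ) ≤ #(LO N B P) + 1 := by
    have h1 : N.primeFactors ⊆ insert p (LO N B P) := by
      intro q hq
      rw [mem_insert]
      by_cases hqp : q = p
      · exact Or.inl hqp
      · right
        unfold LO
        rw [mem_filter]
        exact ⟨hq, by exact_mod_cast hmax q hq, hexp q hq hqp⟩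
    have h2 := (card_le_card h1).trans (card_insert_le _ _)
    exact_mod_cast h2
  have hL0 : (0 : ℝ) ≤ #(LO N B P) := Nat.cast_nonneg _
  have hL : (#(LO N B P) : ℝ) ^ 3 ≤ A * X ^ 3 := by
    calc (#(LO N B P) : ℝ) ^ 3
        ≤ 9261 * (B : ℝ) ^ 6 * (P : ℝ) ^ 2 *
          ((∑ q ∈ LOc N B P, (N.factorization q : ℝ)) + #(ZZ N B P) + 1) := hg
      _ ≤ 9261 * (B : ℝ) ^ 6 * (P : ℝ) ^ 2 * ((6 * C + 2) * (P : ℝ) ^ (1 - 1 / (B : ℝ))) := by
          apply mul_le_mul_of_nonneg_left _ (by positivity)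
          have h6 : 6 * C * (P : ℝ) ^ (2 / 3 : ℝ) ≤ 6 * C * (P : ℝ) ^ (1 - 1 / (B : ℝ)) :=
            mul_le_mul_of_nonneg_left hx2 (by positivity)
          calc (∑ q ∈ LOc N B P, (N.factorization q : ℝ)) + #(ZZ N B P) + 1
              ≤ 6 * C * (P : ℝ) ^ (1 - 1 / (B : ℝ)) + (P : ℝ) ^ (1 - 1 / (B : ℝ)) +
                (P : ℝ) ^ (1 - 1 / (B : ℝ)) :=
                add_le_add (add_le_add (hLOc.trans (hα'.trans h6)) hZ) hx1
            _ = (6 * C + 2) * (P : ℝ) ^ (1 - 1 / (B : ℝ)) := by ring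
      _ = A * ((P : ℝ) ^ 2 * (P : ℝ) ^ (1 - 1 / (B : ℝ))) := by rw [hA]; ring
      _ = A * X ^ 3 := by rw [hcube]
  have hL1 : (#(LO N B P) : ℝ) ≤ (1 + A) * X := by
    have h1 : (#(LO N B P) : ℝ) ^ 3 ≤ ((1 + A) * X) ^ 3 := by
      refine hL.trans ?_
      rw [mul_pow]
      apply mul_le_mul_of_nonneg_right _ (by positivity)
      nlinarith [sq_nonneg A, pow_pos hApos 3]
    exact le_of_pow_le_pow_left₀ (by norm_num) (by positivity) h1
  have hW : (#N.primeFactors : ℝ) ≤ (2 + A) * X := by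
    calc (#N.primeFactors : ℝ) ≤ #(LO N B P) + 1 := hLO
      _ ≤ (1 + A) * X + X := add_le_add hL1 hX1
      _ = (2 + A) * X := by ring
  have hω : (0 : ℝ) ≤ #N.primeFactors := Nat.cast_nonneg _
  constructor
  · calc min (1 / (2 + A)) c₂ * (#N.primeFactors : ℝ)
        ≤ 1 / (2 + A) * ((2 + A) * X) :=
          mul_le_mul (min_le_left _ _) hW hω (by positivity)
      _ = X := by field_simp
  · have hlogN := cg2_log_le hN0 hmax hexp (by omega : 1 ≤ P)
    have hlogN' : Real.log N ≤ D * X * Real.log P := by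
      refine hlogN.trans (mul_le_mul_of_nonneg_right ?_ hlogP.le)
      have h1 : (B : ℝ) * #N.primeFactors ≤ B * ((2 + A) * X) :=
        mul_le_mul_of_nonneg_left hW hB0.le
      have h2 : 6 * C * (P : ℝ) ^ (2 / 3 : ℝ) ≤ 6 * C * X :=
        mul_le_mul_of_nonneg_left hx3 (by positivity)
      calc (B : ℝ) * #N.primeFactors + (N.factorization p : ℝ)
          ≤ B * ((2 + A) * X) + 6 * C * X := add_le_add h1 (hα'.trans h2)
        _ = D * X := by rw [hD]; ring
    have hPN : P ≤ N := Nat.le_of_mem_primeFactors hP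
    have h1 := hsecond N P (by omega) (by omega) hlogN'
    have h2 : 0 ≤ (Real.log N / Real.log (Real.log N)) ^ (1 + 1 / (3 * (B : ℝ) - 1)) := by
      apply Real.rpow_nonneg
      have h3 : (3 : ℝ) ≤ N := by
        have : 3 ≤ N := by omega
        exact_mod_cast this
      have h4 : Real.log 3 ≤ Real.log N := Real.log_le_log (by norm_num) h3
      have h5 := cg2_log_three
      have h6 : 0 < Real.log (Real.log N) := Real.log_pos (by linarith)
      have h7 : 0 < Real.log N := by linarith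
      positivity
    exact (mul_le_mul_of_nonneg_right (min_le_right _ _) h2).trans h1

end Pool.Agent.BE
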