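import Pool.Agent.Lib.MP_f02ea4_nt.BE.CorGen

/-!
# Many large prime factors
TASK Cm. `card_ZZ_le` (CorGen.lean) is a black box. Write `W = #N.primeFactors`.
* `cor_many` (all exponents `≤ B`): let `c₁ ∈ (0, 1]` be small, `y = c₁ W ^ (1 + 1/(3B-1))` (note
  `(1 + 1/(3B-1)) (3 - 1/B) = 3`, so `y ^ (3 - 1/B) ≤ c₁² W³`), `L = #{q : y < q}`. If `y < 2` then
  `L = W` and we are done (`W ^ (1 - 2/(3B-1)) ≤ W`). If `L ≥ W / 2`: done. Otherwise
  `#LO N B y ≥ W / 2`, `LOc = {q : y < q}`, so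
  `W³ / 8 ≤ 9261 B⁶ y² (B L + y ^ (1 - 1/B) + 1) ≤ 9261 B⁷ y² L + 18522 B⁶ c₁² W³`
  and if `18522 B⁶ c₁² ≤ 1/16` then `L ≥ W³ / (16 * 9261 B⁷ y²) ≥ c W ^ (3 - 2 (1 + 1/(3B-1)))
  = c W ^ (1 - 2/(3B-1))`.
-/

set_option autoImplicit false

namespace Pool.Agent.BE

open Finset Nat

private theorem Cm_pow {b c W : ℝ} (hb : 1 ≤ b) (hc : 0 < c) (hc1 : c ≤ 1) (hW : 1 ≤ W) :
    (c * W ^ (1 + 1 / (3 * b - 1))) ^ (3 - 1 / b) ≤ c ^ 2 * W ^ 3 := by
  have hb0 : 0 < b := by linarith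
  have h3b : 0 < 3 * b - 1 := by linarith
  have hW0 : 0 < W := by linarith
  have hinv : 1 / b ≤ 1 := by
    rw [div_le_one hb0]
    exact hb
  rw [Real.mul_rpow hc.le (Real.rpow_nonneg hW0.le _), ← Real.rpow_mul hW0.le]
  have he : (1 + 1 / (3 * b - 1)) * (3 - 1 / b) = ((3 : ℕ) : ℝ) := by
    have h1 := h3b.ne'
    push_cast
    field_simp
    ring
  rw [he, Real.rpow_natCast]
  have h2 : c ^ (3 - 1 / b) ≤ c ^ ((2 : ℕ) : ℝ) := by
    refine Real.rpow_le_rpow_of_exponent_ge hc hc1 ?_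
    push_cast
    linarith
  rw [Real.rpow_natCast] at h2
  exact mul_le_mul_of_nonneg_right h2 (by positivity)

private theorem Cm_pow2 {b W : ℝ} (hb : 1 ≤ b) (hW : 1 ≤ W) :
    (W ^ (1 + 1 / (3 * b - 1))) ^ 2 * W ^ (1 - 2 / (3 * b - 1)) = W ^ 3 := by
  have hW0 : 0 < W := by linarith
  have h3b : 0 < 3 * b - 1 := by linarith
  rw [← Real.rpow_natCast (W ^ (1 + 1 / (3 * b - 1))) 2, ← Real.rpow_mul hW0.le,
    ← Real.rpow_add hW0, ← Real.rpow_natCast W 3]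
  congr 1
  have h1 := h3b.ne'
  push_cast
  field_simp
  ring

/-- The main case. -/
private theorem Cm_main {b c W L Z y A : ℝ} (hb : 1 ≤ b) (hc : c = 1 / (600 * b ^ 3))
    (hW : 1 ≤ W) (hy : y = c * W ^ (1 + 1 / (3 * b - 1))) (hy2 : 2 ≤ y)
    (hZ : Z ≤ y ^ (1 - 1 / b)) (hA : W / 2 ≤ A)
    (hg : A ^ 3 ≤ 9261 * b ^ 6 * y ^ 2 * (b * L + Z + 1)) :
    1 / (148176 * b ^ 7) * W ^ (1 - 2 / (3 * b - 1)) ≤ L := by
  have hb0 : 0 < b := by linarith
  have hy0 : 0 < y := by linarith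
  have hW0 : 0 < W := by linarith
  have hb3 : 1 ≤ b ^ 3 := one_le_pow₀ hb
  have hc0 : 0 < c := by
    rw [hc]
    positivity
  have hc1 : c ≤ 1 := by
    rw [hc, div_le_one (by positivity)]
    linarith
  have hinv : 1 / b ≤ 1 := by
    rw [div_le_one hb0]
    exact hb
  have hyp : y ^ 2 * y ^ (1 - 1 / b) = y ^ (3 - 1 / b) := by
    rw [← Real.rpow_natCast y 2, ← Real.rpow_add hy0]
    congr 1
    push_cast
    ring
  have hy1 : 1 ≤ y ^ (1 - 1 / b) := Real.one_le_rpow (by linarith) (by linarith)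
  have hyc : y ^ (3 - 1 / b) ≤ c ^ 2 * W ^ 3 := by
    rw [hy]
    exact Cm_pow hb hc0 hc1 hW
  have h1 : y ^ 2 * (Z + 1) ≤ 2 * (c ^ 2 * W ^ 3) := by
    have hy2' : 0 ≤ y ^ 2 := by positivity
    calc y ^ 2 * (Z + 1) ≤ y ^ 2 * (y ^ (1 - 1 / b) + y ^ (1 - 1 / b)) :=
          mul_le_mul_of_nonneg_left (add_le_add hZ hy1) hy2'
      _ = 2 * (y ^ 2 * y ^ (1 - 1 / b)) := by ring
      _ ≤ 2 * (c ^ 2 * W ^ 3) := by
          rw [hyp]
          linarith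
  have h2 : (W / 2) ^ 3 ≤ A ^ 3 := pow_le_pow_left₀ (by positivity) hA 3
  have h3 : 9261 * b ^ 6 * y ^ 2 * (b * L + Z + 1) =
      9261 * b ^ 7 * y ^ 2 * L + 9261 * b ^ 6 * (y ^ 2 * (Z + 1)) := by ring
  have h4 : 9261 * b ^ 6 * (y ^ 2 * (Z + 1)) ≤ 9261 * b ^ 6 * (2 * (c ^ 2 * W ^ 3)) :=
    mul_le_mul_of_nonneg_left h1 (by positivity)
  have h5 : 9261 * b ^ 6 * (2 * (c ^ 2 * W ^ 3)) = 18522 / 360000 * W ^ 3 := by
    rw [hc]
    field_simp
    ring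
  have hW3 : 0 < W ^ 3 := by positivity
  have h6 : W ^ 3 / 16 ≤ 9261 * b ^ 7 * y ^ 2 * L := by
    have h7 : (W / 2) ^ 3 = W ^ 3 / 8 := by ring
    rw [h7] at h2
    rw [h3] at hg
    rw [h5] at h4
    linarith
  obtain ⟨R, hR⟩ : ∃ R, R = W ^ (1 + 1 / (3 * b - 1)) := ⟨_, rfl⟩
  obtain ⟨T, hT⟩ : ∃ T, T = W ^ (1 - 2 / (3 * b - 1)) := ⟨_, rfl⟩
  have hRT : R ^ 2 * T = W ^ 3 := by
    rw [hR, hT]
    exact Cm_pow2 hb hW
  have hR0 : 0 < R := by
    rw [hR]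
    positivity
  have hT0 : 0 < T := by
    rw [hT]
    positivity
  rw [← hR] at hy
  rw [← hT]
  rw [hy, ← hRT] at h6
  have hL0 : 0 ≤ L := by
    by_contra hcon
    push Not at hcon
    have h8 : 9261 * b ^ 7 * (c * R) ^ 2 * L < 0 :=
      mul_neg_of_pos_of_neg (by positivity) hcon
    have h9 : 0 < R ^ 2 * T / 16 := by positivity
    linarith
  have h10 : (c * R) ^ 2 ≤ R ^ 2 := by
    have : c * R ≤ R := by
      calc c * R ≤ 1 * R := mul_le_mul_of_nonneg_right hc1 hR0.le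
        _ = R := one_mul R
    exact pow_le_pow_left₀ (by positivity) this 2
  have h11 : R ^ 2 * T / 16 ≤ 9261 * b ^ 7 * R ^ 2 * L := by
    refine h6.trans ?_
    exact mul_le_mul_of_nonneg_right (mul_le_mul_of_nonneg_left h10 (by positivity)) hL0
  have h12 : T / 16 ≤ 9261 * b ^ 7 * L := by
    have hR2 : 0 < R ^ 2 := by positivity
    have h13 : R ^ 2 * (T / 16) ≤ R ^ 2 * (9261 * b ^ 7 * L) := by linarith
    exact le_of_mul_le_mul_left h13 hR2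
  have hb7 : 0 < 148176 * b ^ 7 := by positivity
  rw [one_div, inv_mul_le_iff₀ hb7]
  linarith

theorem cor_many (h : GenIneq) (B : ℕ) (hB : 1 ≤ B) :
    ∃ c : ℝ, 0 < c ∧ ∀ N : ℕ, Odd N → N.Perfect →
      (∀ q ∈ N.primeFactors, N.factorization q ≤ B) →
      c * (#N.primeFactors : ℝ) ^ (1 - 2 / (3 * (B : ℝ) - 1)) ≤
        ((N.primeFactors.filter (fun q : ℕ =>
          c * (#N.primeFactors : ℝ) ^ (1 + 1 / (3 * (B : ℝ) - 1)) ≤ (q : ℝ))).card : ℝ) := by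
  obtain ⟨b, hbd⟩ : ∃ b : ℝ, b = (B : ℝ) := ⟨_, rfl⟩
  have hb : 1 ≤ b := by
    rw [hbd]
    exact_mod_cast hB
  rw [← hbd]
  have hb0 : 0 < b := by linarith
  have hb3 : 1 ≤ b ^ 3 := one_le_pow₀ hb
  have hb7 : b ^ 3 ≤ b ^ 7 := pow_le_pow_right₀ hb (by norm_num)
  obtain ⟨c1, hc1⟩ : ∃ c1 : ℝ, c1 = 1 / (600 * b ^ 3) := ⟨_, rfl⟩
  have hcc : 1 / (148176 * b ^ 7) ≤ c1 := by
    rw [hc1]
    exact one_div_le_one_div_of_le (by positivity) (by linarith)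
  have hc0 : 0 < 1 / (148176 * b ^ 7) := by positivity
  have hchalf : 1 / (148176 * b ^ 7) ≤ 1 / 2 :=
    one_div_le_one_div_of_le (by norm_num) (by linarith)
  refine ⟨1 / (148176 * b ^ 7), hc0, fun N hodd hperf hexp => ?_⟩
  obtain ⟨W, hWd⟩ : ∃ W : ℝ, W = (#N.primeFactors : ℝ) := ⟨_, rfl⟩
  rw [← hWd]
  have hN1 : 1 < N := by
    have hpos : 0 < N := hperf.2
    by_contra hcon
    have hN : N = 1 := by omega
    rw [hN] at hperf
    have h2 := hperf.1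
    rw [Nat.properDivisors_one, sum_empty] at h2
    exact absurd h2 (by norm_num)
  have hW : 1 ≤ W := by
    rw [hWd]
    have h1 : 0 < #N.primeFactors := card_pos.mpr (Nat.nonempty_primeFactors.mpr hN1)
    exact_mod_cast h1
  have hW0 : 0 < W := by linarith
  obtain ⟨y, hy⟩ : ∃ y : ℝ, y = c1 * W ^ (1 + 1 / (3 * b - 1)) := ⟨_, rfl⟩
  have hR0 : 0 ≤ W ^ (1 + 1 / (3 * b - 1)) := Real.rpow_nonneg hW0.le _
  have hcy : 1 / (148176 * b ^ 7) * W ^ (1 + 1 / (3 * b - 1)) ≤ y := by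
    rw [hy]
    exact mul_le_mul_of_nonneg_right hcc hR0
  have hsub : LOc N B y ⊆ N.primeFactors.filter (fun q : ℕ =>
      1 / (148176 * b ^ 7) * W ^ (1 + 1 / (3 * b - 1)) ≤ (q : ℝ)) := by
    intro q hq
    unfold LOc at hq
    rw [mem_filter] at hq ⊢
    refine ⟨hq.1, ?_⟩
    have h1 : ¬ ((q : ℝ) ≤ y) := fun h2 => hq.2 ⟨h2, hexp q hq.1⟩
    push Not at h1
    linarith
  have hcard : ((LOc N B y).card : ℝ) ≤ ((N.primeFactors.filter (fun q : ℕ =>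
      1 / (148176 * b ^ 7) * W ^ (1 + 1 / (3 * b - 1)) ≤ (q : ℝ))).card : ℝ) := by
    exact_mod_cast card_le_card hsub
  refine le_trans ?_ hcard
  have hT : W ^ (1 - 2 / (3 * b - 1)) ≤ W := by
    have h3b : 0 < 3 * b - 1 := by linarith
    calc W ^ (1 - 2 / (3 * b - 1)) ≤ W ^ (1 : ℝ) := by
          refine Real.rpow_le_rpow_of_exponent_le hW ?_
          have : 0 ≤ 2 / (3 * b - 1) := by positivity
          linarith
      _ = W := Real.rpow_one W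
  have hT0 : 0 ≤ W ^ (1 - 2 / (3 * b - 1)) := Real.rpow_nonneg hW0.le _
  have hhalf : 1 / (148176 * b ^ 7) * W ^ (1 - 2 / (3 * b - 1)) ≤ W / 2 := by
    calc 1 / (148176 * b ^ 7) * W ^ (1 - 2 / (3 * b - 1)) ≤ 1 / 2 * W :=
          mul_le_mul hchalf hT hT0 (by norm_num)
      _ = W / 2 := by ring
  have hsum : ((LO N B y).card : ℝ) + ((LOc N B y).card : ℝ) = W := by
    rw [hWd]
    unfold LO LOc
    exact_mod_cast card_filter_add_card_filter_not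
      (s := N.primeFactors) (fun q : ℕ => (q : ℝ) ≤ y ∧ N.factorization q ≤ B)
  rcases lt_or_ge y 2 with hy2 | hy2
  · have h1 : ((LO N B y).card : ℝ) = 0 := by
      have h2 : LO N B y = ∅ := by
        unfold LO
        rw [filter_eq_empty_iff]
        intro q hq h3
        have h4 : (2 : ℝ) ≤ q := by exact_mod_cast (Nat.prime_of_mem_primeFactors hq).two_le
        linarith [h3.1]
      rw [h2]
      simp
    linarith
  · rcases le_or_gt (W / 2) ((LOc N B y).card : ℝ) with h1 | h1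
    · exact hhalf.trans h1
    · have hA : W / 2 ≤ ((LO N B y).card : ℝ) := by linarith
      have hg := h N B y hodd hperf hB hy2
      have hs : (∑ q ∈ LOc N B y, (N.factorization q : ℝ)) ≤ b * ((LOc N B y).card : ℝ) := by
        have h2 := sum_le_card_nsmul (LOc N B y) (fun q => (N.factorization q : ℝ)) b (by
          intro q hq
          unfold LOc at hq
          rw [hbd]
          exact_mod_cast hexp q (mem_filter.mp hq).1)
        rw [nsmul_eq_mul] at h2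
        linarith
      have hZ : ((ZZ N B y).card : ℝ) ≤ y ^ (1 - 1 / b) := by
        rw [hbd]
        exact card_ZZ_le hB hy2
      refine Cm_main hb hc1 hW hy hy2 hZ hA (hg.trans ?_)
      rw [← hbd]
      exact mul_le_mul_of_nonneg_left (by linarith) (by positivity)

end Pool.Agent.BE
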