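import Pool.Agent.Lib.MP_f02ea4_nt.BE.Defs

/-!
# The part of `N` composed of large primes
TASK CP. Write `ω = #N.primeFactors`, `D = d / (d + 1) ∈ [2/3, 1)`, `v_q = N.factorization q`. The
lemmas `Ct_sm`, `Ct_logN` and the arguments in CorTwo.lean (complete, in this directory) can be
copied (rename the private lemmas).
* `cor_part`: all exponents are `≤ e + K =: M`. Let `0 < c ≤ 1` be small (chosen at the end, in
  terms of `d, e, K` and the constant of `Thin`) and `y = c (ω (log ω)²) ^ (1 + 1/d)` (real),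
  `m = ⌊y⌋₊`. If `y < 2` then every prime factor `q ≥ 3` is `> y`, the sum is
  `∑ v_q log q = log N ≥ c log N`. So let `y ≥ 2`, `m ≥ 2`. For naturals `q`: `y < q ↔ m < q`. Let
  `U = ∑_{q > m} v_q log q` (the sum in the theorem). `TwoIneq'` with `m`:
  `#DE ≤ 40 e^4 (#SM + SS)`, where
  - `#SM`: `q ^ (d+1) ≤ (m+1) ^ d`, so `q ≤ x := (m + 1) ^ D ≥ 2` (`3^(2/3) ≥ 2`), exponent `≤ e`, so
    `Thin` gives `#SM ≤ CT e 2^e x / (log x)²`, `x ≤ (2 y) ^ D ≤ 2 y ^ D = 2 c ^ D ω (log ω)²`,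
    `log x ≥ D log y ≥ (2/3) log y` (since `m + 1 > y`). Now `ω ≥ 3` (as `y ≥ 2 > 0`, `log ω > 0`
    and `ω (log ω)² ≥ (2 / c) ^ D ≥ 1`), and `log ω ≤ 1 + log (ω (log ω)²)`-like bound: if
    `log ω ≥ 1` then `log ω ≤ log (ω (log ω)²) = D (log y + log (1/c)) ≤ log y (1 + log (1/c) / log 2)`,
    (if `log ω < 1` then `ω (log ω)² < e < 3` and `y < 2` for small `c`). Hence
    `#SM ≤ A c ^ D (1 + 2 log (1/c))² ω` with `A = A(CT, e)`, and this is `≤ δ ω` for small `c`
    (`log (1/c) ≤ 6 c ^ (-1/6)`, `D ≥ 2/3`).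
  - `SS`: `XX` = the primes `> m` and the exceptional ones `≤ m`: `SS ≤ 2 K + 2 U / log m`
    (`1 + log q / log m ≤ 2 log q / log m` for `q > m`, and `≤ 2` for `q ≤ m`); `log m ≥ (1/2) log y`
    or so (`m ≥ y - 1 ≥ y / 2`, `m ≥ 2`).
  `ω ≤ #DE + #XX ≤ #DE + K + U / log m`, so for `δ 40 e^4 ≤ 1/2`:
  `ω ≤ 2 (80 e^4 + 1) (K + U / log m)`. If `ω ≥ 4 (80 e^4 + 1) K` then
  `U ≥ ω log m / (4 (80 e^4 + 1))`. For small `c` the condition `y ≥ 2` forces
  `ω ≥ 4 (80 e^4 + 1) K`. Finally `log N = ∑_{q ≤ m} v_q log q + U ≤ M ω log m + U ≤ C U`, and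
  `c ≤ 1 / C`.
-/

set_option autoImplicit false

namespace Pool.Agent.BE

open Finset Nat

private theorem Cp_sm {N m d e : ℕ} {CT y : ℝ} (hCT : 0 < CT)
    (hT : ∀ x : ℝ, 2 ≤ x → ∀ E : ℕ, 1 ≤ E →
      ((N.primeFactors.filter
        (fun p : ℕ => (p : ℝ) ≤ x ∧ N.factorization p ≤ E)).card : ℝ) ≤
        CT * E * (2 : ℝ) ^ E * x / (Real.log x) ^ 2)
    (h2 : 2 ≤ d) (hde : d ≤ e) (hm : 2 ≤ m) (hy2 : 2 ≤ y) (hmy : (m : ℝ) ≤ y)
    (hym : y ≤ m + 1) :
    (#(SM N m d e) : ℝ) ≤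
      CT * e * (2 : ℝ) ^ e * 5 * y ^ ((d : ℝ) / (d + 1)) / (Real.log y) ^ 2 := by
  have hd0 : (2 : ℝ) ≤ d := by exact_mod_cast h2
  have hm2 : (2 : ℝ) ≤ m := by exact_mod_cast hm
  set D : ℝ := (d : ℝ) / (d + 1) with hD
  have hD1 : D ≤ 1 := by
    rw [hD, div_le_one (by linarith)]; linarith
  have hD2 : 2 / 3 ≤ D := by
    rw [hD, div_le_div_iff₀ (by norm_num) (by linarith)]; linarith
  set X : ℝ := ((m : ℝ) + 1) ^ D with hX
  have hlogy : 0 < Real.log y := Real.log_pos (by linarith)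
  have hlogX : (2 / 3) * Real.log y ≤ Real.log X := by
    rw [hX, Real.log_rpow (by linarith)]
    have h1 : Real.log y ≤ Real.log ((m : ℝ) + 1) :=
      Real.log_le_log (by linarith) hym
    calc (2 / 3) * Real.log y ≤ D * Real.log y := mul_le_mul_of_nonneg_right hD2 hlogy.le
      _ ≤ D * Real.log ((m : ℝ) + 1) := mul_le_mul_of_nonneg_left h1 (by linarith)
  have hX2 : 2 ≤ X := by
    have h1 : (3 : ℝ) ^ (2 / 3 : ℝ) ≤ X := by
      calc (3 : ℝ) ^ (2 / 3 : ℝ) ≤ (3 : ℝ) ^ D :=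
            Real.rpow_le_rpow_of_exponent_le (by norm_num) hD2
        _ ≤ ((m : ℝ) + 1) ^ D :=
            Real.rpow_le_rpow (by norm_num) (by linarith) (by linarith)
    have h3 : (2 : ℝ) ≤ (3 : ℝ) ^ (2 / 3 : ℝ) := by
      have h4 : (8 : ℝ) ^ (1 / 3 : ℝ) = 2 := by
        rw [show (8 : ℝ) = 2 ^ (3 : ℝ) by norm_num, ← Real.rpow_mul (by norm_num)]
        norm_num
      have h5 : (3 : ℝ) ^ (2 / 3 : ℝ) = (9 : ℝ) ^ (1 / 3 : ℝ) := by
        rw [show (9 : ℝ) = 3 ^ (2 : ℝ) by norm_num, ← Real.rpow_mul (by norm_num)]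
        norm_num
      rw [h5, ← h4]
      exact Real.rpow_le_rpow (by norm_num) (by norm_num) (by norm_num)
    linarith
  have hXP : X ≤ 2 * y ^ D := by
    calc X ≤ (2 * y) ^ D := Real.rpow_le_rpow (by linarith) (by linarith) (by linarith)
      _ = 2 ^ D * y ^ D := Real.mul_rpow (by norm_num) (by linarith)
      _ ≤ 2 * y ^ D := by
          refine mul_le_mul_of_nonneg_right ?_ (Real.rpow_nonneg (by linarith) _)
          calc (2 : ℝ) ^ D ≤ (2 : ℝ) ^ (1 : ℝ) :=
                Real.rpow_le_rpow_of_exponent_le (by norm_num) hD1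
            _ = 2 := Real.rpow_one _
  have hsub : SM N m d e ⊆ N.primeFactors.filter
      (fun p : ℕ => (p : ℝ) ≤ X ∧ N.factorization p ≤ e) := by
    intro q hq
    rw [SM, mem_filter] at hq
    rw [mem_filter]
    refine ⟨hq.1, ?_, ?_⟩
    · have h1 : ((q : ℝ)) ^ (d + 1) ≤ ((m : ℝ) + 1) ^ d := by exact_mod_cast hq.2.2
      have h3 : (((q : ℝ)) ^ (d + 1)) ^ ((1 : ℝ) / (d + 1)) ≤
          (((m : ℝ) + 1) ^ d) ^ ((1 : ℝ) / (d + 1)) :=
        Real.rpow_le_rpow (by positivity) h1 (by positivity)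
      rw [← Real.rpow_natCast, ← Real.rpow_natCast, ← Real.rpow_mul (by positivity),
        ← Real.rpow_mul (by positivity)] at h3
      have h4 : (((d + 1 : ℕ) : ℝ)) * (1 / ((d : ℝ) + 1)) = 1 := by
        push_cast
        field_simp
      rw [h4, Real.rpow_one] at h3
      rw [hX, hD]
      rw [mul_one_div] at h3
      exact h3
    · rcases hq.2.1 with h | h <;> omega
  have he1 : 1 ≤ e := by omega
  have h1 := hT X hX2 e he1
  have hc : (#(SM N m d e) : ℝ) ≤ ((N.primeFactors.filter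
      (fun p : ℕ => (p : ℝ) ≤ X ∧ N.factorization p ≤ e)).card : ℝ) := by
    exact_mod_cast card_le_card hsub
  refine hc.trans (h1.trans ?_)
  have hPD : 0 ≤ y ^ D := Real.rpow_nonneg (by linarith) _
  have hA : 0 ≤ CT * e * (2 : ℝ) ^ e := by positivity
  have hL2 : (4 / 9) * (Real.log y) ^ 2 ≤ (Real.log X) ^ 2 := by
    have h5 : 0 ≤ (2 / 3) * Real.log y := by linarith
    nlinarith
  have hL0 : 0 < (Real.log y) ^ 2 := by positivity
  have hLX : 0 < (Real.log X) ^ 2 := by nlinarith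
  rw [div_le_div_iff₀ hLX hL0]
  have h6 : CT * e * (2 : ℝ) ^ e * X ≤ CT * e * (2 : ℝ) ^ e * (2 * y ^ D) :=
    mul_le_mul_of_nonneg_left hXP hA
  calc CT * e * (2 : ℝ) ^ e * X * (Real.log y) ^ 2
      ≤ CT * e * (2 : ℝ) ^ e * (2 * y ^ D) * (Real.log y) ^ 2 :=
        mul_le_mul_of_nonneg_right h6 hL0.le
    _ = CT * e * (2 : ℝ) ^ e * y ^ D * (9 / 2) * ((4 / 9) * (Real.log y) ^ 2) := by ring
    _ ≤ CT * e * (2 : ℝ) ^ e * y ^ D * (9 / 2) * ((Real.log X) ^ 2) := by
        refine mul_le_mul_of_nonneg_left hL2 ?_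
        positivity
    _ ≤ CT * e * (2 : ℝ) ^ e * 5 * y ^ D * (Real.log X) ^ 2 := by
        have h7 : 0 ≤ CT * e * (2 : ℝ) ^ e * y ^ D * (Real.log X) ^ 2 := by positivity
        nlinarith

private theorem Cp_logN {N : ℕ} (hN : N ≠ 0) :
    Real.log N = ∑ q ∈ N.primeFactors, (N.factorization q : ℝ) * Real.log q := by
  have h1 : (N : ℝ) = ∏ q ∈ N.primeFactors, (q : ℝ) ^ N.factorization q := by
    conv_lhs => rw [← Nat.prod_factorization_pow_eq_self hN]
    rw [Finsupp.prod, Nat.support_factorization]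
    push_cast
    rfl
  rw [h1, Real.log_prod (fun q hq => by
    have := (Nat.prime_of_mem_primeFactors hq).pos
    positivity)]
  refine sum_congr rfl fun q hq => ?_
  rw [Real.log_pow]

private theorem Cp_c {T D : ℝ} (hT2 : 2 ≤ T) (hD2 : 2 / 3 ≤ D) :
    ((T ^ 6)⁻¹ : ℝ) ≤ 1 ∧ ((T ^ 6)⁻¹ : ℝ) ^ D ≤ (T ^ 4)⁻¹ ∧
      Real.log ((T ^ 6)⁻¹ : ℝ) = - (6 * Real.log T) ∧ (T ^ 6)⁻¹ * T ≤ 1 := by
  have hT0 : 0 < T := by linarith
  have hT6 : T ≤ T ^ 6 := by
    calc T = T ^ 1 := (pow_one T).symm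
      _ ≤ T ^ 6 := pow_le_pow_right₀ (by linarith) (by norm_num)
  have hc1 : ((T ^ 6)⁻¹ : ℝ) ≤ 1 := inv_le_one_of_one_le₀ (by linarith)
  refine ⟨hc1, ?_, ?_, ?_⟩
  · calc ((T ^ 6)⁻¹ : ℝ) ^ D ≤ ((T ^ 6)⁻¹ : ℝ) ^ (2 / 3 : ℝ) :=
          Real.rpow_le_rpow_of_exponent_ge (by positivity) hc1 hD2
      _ = (T ^ 4)⁻¹ := by
          rw [Real.inv_rpow (by positivity), ← Real.rpow_natCast, ← Real.rpow_natCast,
            ← Real.rpow_mul hT0.le]
          norm_num
  · rw [Real.log_inv, Real.log_pow]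
    push_cast
    ring
  · rw [inv_mul_le_iff₀ (by positivity), mul_one]
    exact hT6

private theorem Cp_real {T D c w y : ℝ} (hT2 : 2 ≤ T) (hD1 : D ≤ 1) (hD2 : 2 / 3 ≤ D)
    (hc0 : 0 < c) (hcD : c ^ D ≤ (T ^ 4)⁻¹) (hlogc : Real.log c = - (6 * Real.log T))
    (hw0 : 0 ≤ w) (hw : 0 < w → 1 ≤ w) (hy2 : 2 ≤ y)
    (hyD : y ^ D = c ^ D * (w * (Real.log w) ^ 2)) :
    T ≤ w ∧ 0 ≤ Real.log w ∧ Real.log w ≤ 13 * T * Real.log y := by
  have hT0 : 0 < T := by linarith
  have hlogy : 1 / 2 ≤ Real.log y := by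
    have h1 : Real.log 2 ≤ Real.log y := Real.log_le_log (by norm_num) hy2
    have h3 := Real.log_two_gt_d9
    linarith
  have hlogT : Real.log T ≤ T := by
    have := Real.log_le_sub_one_of_pos hT0
    linarith
  have hlogy0 : 0 < Real.log y := by linarith
  have hyD1 : 1 ≤ y ^ D := Real.one_le_rpow (by linarith) (by linarith)
  have hW0 : 0 ≤ w * (Real.log w) ^ 2 := by positivity
  have hWT : T ^ 4 ≤ w * (Real.log w) ^ 2 := by
    have h1 : 1 ≤ (T ^ 4)⁻¹ * (w * (Real.log w) ^ 2) := by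
      rw [hyD] at hyD1
      exact hyD1.trans (mul_le_mul_of_nonneg_right hcD hW0)
    have h3 : 0 < T ^ 4 := by positivity
    rw [inv_mul_eq_div, le_div_iff₀ h3, one_mul] at h1
    exact h1
  have hT4 : 16 ≤ T ^ 4 := by
    calc (16 : ℝ) = 2 ^ 4 := by norm_num
      _ ≤ T ^ 4 := pow_le_pow_left₀ (by norm_num) hT2 4
  have hWpos : 0 < w * (Real.log w) ^ 2 := by linarith
  have hwpos : 0 < w := by
    rcases hw0.lt_or_eq with h1 | h1
    · exact h1
    · rw [← h1] at hWpos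
      simp at hWpos
  have hw1 : 1 ≤ w := hw hwpos
  have hL0 : 0 ≤ Real.log w := Real.log_nonneg hw1
  have hL1 : 1 ≤ Real.log w := by
    by_contra hcon
    push Not at hcon
    have h1 : w < 3 := by
      have h3 : w < Real.exp 1 := (Real.log_lt_iff_lt_exp hwpos).1 hcon
      have h4 : Real.exp 1 < 3 := Real.exp_one_lt_d9.trans (by norm_num)
      linarith
    have h5 : (Real.log w) ^ 2 ≤ 1 := pow_le_one₀ hL0 hcon.le
    have h6 : w * (Real.log w) ^ 2 ≤ 3 * 1 := mul_le_mul h1.le h5 (by positivity) (by norm_num)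
    linarith
  have hlogW : Real.log (w * (Real.log w) ^ 2) = D * (Real.log y + 6 * Real.log T) := by
    have h1 : Real.log (y ^ D) = Real.log (c ^ D * (w * (Real.log w) ^ 2)) := by rw [hyD]
    rw [Real.log_rpow (by linarith), Real.log_mul (Real.rpow_pos_of_pos hc0 _).ne' hWpos.ne',
      Real.log_rpow hc0, hlogc] at h1
    linarith
  have hwW : w ≤ w * (Real.log w) ^ 2 := le_mul_of_one_le_right hw0 (one_le_pow₀ hL1)
  have hLy : Real.log w ≤ 13 * T * Real.log y := by
    have h1 : Real.log w ≤ Real.log (w * (Real.log w) ^ 2) := Real.log_le_log hwpos hwW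
    have h3 : 0 ≤ Real.log T := Real.log_nonneg (by linarith)
    have h4 : D * (Real.log y + 6 * Real.log T) ≤ 1 * (Real.log y + 6 * Real.log T) :=
      mul_le_mul_of_nonneg_right hD1 (by linarith)
    have h5 : T * (1 / 2) ≤ T * Real.log y := mul_le_mul_of_nonneg_left hlogy hT0.le
    have h6 : Real.log y ≤ T * Real.log y := le_mul_of_one_le_left hlogy0.le (by linarith)
    have h7 : 13 * T * Real.log y = 13 * (T * Real.log y) := by ring
    rw [h7]
    linarith
  refine ⟨?_, hL0, hLy⟩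
  have h1 : Real.log w ≤ w := by
    have := Real.log_le_sub_one_of_pos hwpos
    linarith
  have h3 : w * (Real.log w) ^ 2 ≤ w ^ 3 := by
    have h4 : (Real.log w) ^ 2 ≤ w ^ 2 := pow_le_pow_left₀ hL0 h1 2
    calc w * (Real.log w) ^ 2 ≤ w * w ^ 2 := mul_le_mul_of_nonneg_left h4 hw0
      _ = w ^ 3 := by ring
  have h5 : T ^ 3 ≤ w ^ 3 := by
    have h6 : T ^ 3 ≤ T ^ 4 := pow_le_pow_right₀ (by linarith) (by norm_num)
    linarith
  exact le_of_pow_le_pow_left₀ (by norm_num) hw0 h5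

private theorem Cp_num {T D c w y A C0 S : ℝ} (hT2 : 2 ≤ T)
    (hcD : c ^ D ≤ (T ^ 4)⁻¹) (hA0 : 0 ≤ A) (hC00 : 0 ≤ C0) (hTA : 338 * (A * C0) ≤ T)
    (hw0 : 0 ≤ w) (hL0 : 0 ≤ Real.log w) (hy2 : 2 ≤ y)
    (hyD : y ^ D = c ^ D * (w * (Real.log w) ^ 2))
    (hLy : Real.log w ≤ 13 * T * Real.log y)
    (hS : S ≤ A * y ^ D / (Real.log y) ^ 2) : C0 * S ≤ w / 2 := by
  have hT0 : 0 < T := by linarith
  have hlogy0 : 0 < Real.log y := Real.log_pos (by linarith)
  have hLy2 : (Real.log w) ^ 2 ≤ (13 * T * Real.log y) ^ 2 := pow_le_pow_left₀ hL0 hLy 2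
  have h1 : S ≤ 169 * A * w / T := by
    refine hS.trans ?_
    rw [hyD, div_le_div_iff₀ (by positivity) hT0]
    have h3 : c ^ D * (w * (Real.log w) ^ 2) ≤
        (T ^ 4)⁻¹ * (w * (13 * T * Real.log y) ^ 2) := by
      refine mul_le_mul hcD ?_ (by positivity) (by positivity)
      exact mul_le_mul_of_nonneg_left hLy2 hw0
    have h4 : T * (T ^ 4)⁻¹ * T ^ 2 ≤ 1 := by
      have h5 : T * (T ^ 4)⁻¹ * T ^ 2 = T⁻¹ := by field_simp
      rw [h5]
      exact inv_le_one_of_one_le₀ (by linarith)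
    calc A * (c ^ D * (w * (Real.log w) ^ 2)) * T
        ≤ A * ((T ^ 4)⁻¹ * (w * (13 * T * Real.log y) ^ 2)) * T := by
          refine mul_le_mul_of_nonneg_right (mul_le_mul_of_nonneg_left h3 hA0) hT0.le
      _ = 169 * A * w * (Real.log y) ^ 2 * (T * (T ^ 4)⁻¹ * T ^ 2) := by ring
      _ ≤ 169 * A * w * (Real.log y) ^ 2 * 1 :=
          mul_le_mul_of_nonneg_left h4 (by positivity)
      _ = 169 * A * w * (Real.log y) ^ 2 := mul_one _
  calc C0 * S ≤ C0 * (169 * A * w / T) := mul_le_mul_of_nonneg_left h1 hC00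
    _ = (338 * (A * C0)) * (w / 2) / T := by ring
    _ ≤ T * (w / 2) / T := by
        refine div_le_div_of_nonneg_right ?_ hT0.le
        exact mul_le_mul_of_nonneg_right hTA (by positivity)
    _ = w / 2 := by field_simp

/-- the bounds for the set of the other primes: `F` exceptional, `B` large -/
private theorem Cp_XX {N m d e K : ℕ} {U : ℝ} (hm2 : 2 ≤ m)
    (hK : (∑ q ∈ N.primeFactors.filter
        (fun q => N.factorization q ≠ d ∧ N.factorization q ≠ e), N.factorization q) ≤ K)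
    (hU : ∑ q ∈ N.primeFactors.filter (fun q : ℕ => m < q),
      (N.factorization q : ℝ) * Real.log q = U) :
    (#(XX N m d e) : ℝ) ≤ K + U / Real.log m ∧ SS N m d e ≤ 2 * (K + U / Real.log m) := by
  have hm2' : (2 : ℝ) ≤ m := by exact_mod_cast hm2
  have hlogm : 0 < Real.log m := Real.log_pos (by linarith)
  obtain ⟨F, hF⟩ : ∃ F, F = N.primeFactors.filter
    (fun q => N.factorization q ≠ d ∧ N.factorization q ≠ e) := ⟨_, rfl⟩
  obtain ⟨B, hB⟩ : ∃ B, B = N.primeFactors.filter (fun q : ℕ => m < q) := ⟨_, rfl⟩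
  rw [← hF] at hK
  rw [← hB] at hU
  have hFN : F ⊆ N.primeFactors := by rw [hF]; exact filter_subset _ _
  have hBN : B ⊆ N.primeFactors := by rw [hB]; exact filter_subset _ _
  have hFs : (∑ q ∈ F, (N.factorization q : ℝ)) ≤ K := by exact_mod_cast hK
  have hFc : (#F : ℝ) ≤ K := by
    refine le_trans ?_ hFs
    rw [card_eq_sum_ones]
    push_cast
    apply sum_le_sum
    intro q hq
    exact_mod_cast fac_pos (hFN hq)
  have hBlog : ∀ q ∈ B, Real.log m ≤ Real.log q := by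
    intro q hq
    rw [hB, mem_filter] at hq
    exact Real.log_le_log (by linarith) (by exact_mod_cast hq.2.le)
  have hBc : (#B : ℝ) ≤ U / Real.log m := by
    rw [le_div_iff₀ hlogm, ← hU, card_eq_sum_ones]
    push_cast
    rw [sum_mul]
    apply sum_le_sum
    intro q hq
    have h1 : (1 : ℝ) ≤ N.factorization q := by exact_mod_cast fac_pos (hBN hq)
    exact mul_le_mul h1 (hBlog q hq) hlogm.le (by positivity)
  have hXX : XX N m d e ⊆ F ∪ B := by
    intro q hq
    rw [XX, mem_filter] at hq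
    rw [mem_union, hF, hB, mem_filter, mem_filter]
    by_cases hqm : q ≤ m
    · left
      exact ⟨hq.1, fun h4 => hq.2 ⟨hqm, Or.inl h4⟩, fun h4 => hq.2 ⟨hqm, Or.inr h4⟩⟩
    · right
      exact ⟨hq.1, by omega⟩
  constructor
  · have h1 : #(XX N m d e) ≤ #F + #B := (card_le_card hXX).trans (card_union_le _ _)
    have h3 : (#(XX N m d e) : ℝ) ≤ #F + #B := by exact_mod_cast h1
    linarith
  have hg : ∀ q ∈ XX N m d e, (N.factorization q : ℝ) * (1 + Real.log q / Real.log m) ≤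
      (if q ∈ F then 2 * (N.factorization q : ℝ) else 0) +
        (if q ∈ B then 2 * ((N.factorization q : ℝ) * Real.log q / Real.log m) else 0) := by
    intro q hq
    have hqN : q ∈ N.primeFactors := (mem_filter.1 hq).1
    have hv0 : (0 : ℝ) ≤ N.factorization q := by positivity
    have hq0 : 0 < q := (Nat.prime_of_mem_primeFactors hqN).pos
    have hlq : 0 ≤ Real.log q := Real.log_natCast_nonneg q
    by_cases hqB : q ∈ B
    · rw [if_pos hqB]
      have h1 : 0 ≤ (if q ∈ F then 2 * (N.factorization q : ℝ) else 0) := by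
        split_ifs <;> positivity
      have h3 : 1 ≤ Real.log q / Real.log m := by
        rw [one_le_div hlogm]; exact hBlog q hqB
      have h4 : (N.factorization q : ℝ) * (1 + Real.log q / Real.log m) ≤
          (N.factorization q : ℝ) * (2 * (Real.log q / Real.log m)) :=
        mul_le_mul_of_nonneg_left (by linarith) hv0
      have h5 : (N.factorization q : ℝ) * (2 * (Real.log q / Real.log m)) =
          2 * ((N.factorization q : ℝ) * Real.log q / Real.log m) := by ring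
      linarith
    · have hqF : q ∈ F := by
        rcases mem_union.1 (hXX hq) with h1 | h1
        · exact h1
        · exact absurd h1 hqB
      rw [if_neg hqB, if_pos hqF]
      have hqm : q ≤ m := by
        by_contra hcon
        apply hqB
        rw [hB, mem_filter]
        exact ⟨hqN, by omega⟩
      have h3 : Real.log q / Real.log m ≤ 1 := by
        rw [div_le_one hlogm]
        exact Real.log_le_log (by exact_mod_cast hq0) (by exact_mod_cast hqm)
      have h4 : (N.factorization q : ℝ) * (1 + Real.log q / Real.log m) ≤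
          (N.factorization q : ℝ) * 2 :=
        mul_le_mul_of_nonneg_left (by linarith) hv0
      linarith
  calc SS N m d e
      ≤ ∑ q ∈ XX N m d e, ((if q ∈ F then 2 * (N.factorization q : ℝ) else 0) +
        (if q ∈ B then 2 * ((N.factorization q : ℝ) * Real.log q / Real.log m) else 0)) := by
        unfold SS
        exact sum_le_sum hg
    _ ≤ ∑ q ∈ N.primeFactors, ((if q ∈ F then 2 * (N.factorization q : ℝ) else 0) +
        (if q ∈ B then 2 * ((N.factorization q : ℝ) * Real.log q / Real.log m) else 0)) := by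
        refine sum_le_sum_of_subset_of_nonneg (filter_subset _ _) fun q _ _ => ?_
        have hlq : 0 ≤ Real.log q := Real.log_natCast_nonneg q
        have h1 : 0 ≤ (if q ∈ F then 2 * (N.factorization q : ℝ) else 0) := by
          split_ifs <;> positivity
        have h3 : 0 ≤ (if q ∈ B then
            2 * ((N.factorization q : ℝ) * Real.log q / Real.log m) else 0) := by
          split_ifs <;> positivity
        linarith
    _ = ∑ q ∈ F, 2 * (N.factorization q : ℝ) +
        ∑ q ∈ B, 2 * ((N.factorization q : ℝ) * Real.log q / Real.log m) := by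
        rw [sum_add_distrib, ← sum_filter, ← sum_filter, filter_mem_eq_inter,
          filter_mem_eq_inter, inter_eq_right.2 hFN, inter_eq_right.2 hBN]
    _ = 2 * (∑ q ∈ F, (N.factorization q : ℝ)) + 2 * (U / Real.log m) := by
        rw [← mul_sum, ← mul_sum, ← hU, sum_div]
    _ ≤ 2 * (K + U / Real.log m) := by linarith

/-- the bound for `log N` -/
private theorem Cp_low {N m d e K : ℕ} (hde : d ≤ e)
    (hK : (∑ q ∈ N.primeFactors.filter
        (fun q => N.factorization q ≠ d ∧ N.factorization q ≠ e), N.factorization q) ≤ K) :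
    ∑ q ∈ N.primeFactors, (N.factorization q : ℝ) * Real.log q ≤
      ((e : ℝ) + K) * ((#N.primeFactors : ℝ) * Real.log m) +
      ∑ q ∈ N.primeFactors.filter (fun q : ℕ => m < q),
        (N.factorization q : ℝ) * Real.log q := by
  rw [← sum_filter_add_sum_filter_not (s := N.primeFactors) (p := fun q : ℕ => m < q)]
  have h1 : ∑ q ∈ N.primeFactors.filter (fun q : ℕ => ¬ m < q),
      (N.factorization q : ℝ) * Real.log q ≤
      ((e : ℝ) + K) * ((#N.primeFactors : ℝ) * Real.log m) := by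
    calc ∑ q ∈ N.primeFactors.filter (fun q : ℕ => ¬ m < q),
        (N.factorization q : ℝ) * Real.log q
        ≤ ∑ _q ∈ N.primeFactors.filter (fun q : ℕ => ¬ m < q),
          ((e : ℝ) + K) * Real.log m := by
          apply sum_le_sum
          intro q hq
          rw [mem_filter] at hq
          have hq0 : 0 < q := (Nat.prime_of_mem_primeFactors hq.1).pos
          have hqm : q ≤ m := by omega
          have h3 : Real.log q ≤ Real.log m :=
            Real.log_le_log (by exact_mod_cast hq0) (by exact_mod_cast hqm)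
          have h4 : (N.factorization q : ℝ) ≤ e + K := by
            have h5 : N.factorization q ≤ e + K := by
              by_cases hq' : N.factorization q = d ∨ N.factorization q = e
              · rcases hq' with h1 | h1 <;> omega
              · have hqF : q ∈ N.primeFactors.filter
                    (fun q => N.factorization q ≠ d ∧ N.factorization q ≠ e) := by
                  rw [mem_filter]
                  exact ⟨hq.1, fun h4 => hq' (Or.inl h4), fun h4 => hq' (Or.inr h4)⟩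
                have h1 : N.factorization q ≤ ∑ q ∈ N.primeFactors.filter
                    (fun q => N.factorization q ≠ d ∧ N.factorization q ≠ e),
                    N.factorization q :=
                  single_le_sum (f := fun q => N.factorization q)
                    (fun _ _ => Nat.zero_le _) hqF
                omega
            exact_mod_cast h5
          exact mul_le_mul h4 h3 (Real.log_natCast_nonneg q) (by positivity)
      _ = (#(N.primeFactors.filter (fun q : ℕ => ¬ m < q)) : ℝ) *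
          (((e : ℝ) + K) * Real.log m) := by rw [sum_const, nsmul_eq_mul]
      _ ≤ (#N.primeFactors : ℝ) * (((e : ℝ) + K) * Real.log m) := by
          have h5 : 0 ≤ Real.log (m : ℝ) := Real.log_natCast_nonneg m
          refine mul_le_mul_of_nonneg_right ?_ (by positivity)
          exact_mod_cast card_le_card (filter_subset _ _)
      _ = ((e : ℝ) + K) * ((#N.primeFactors : ℝ) * Real.log m) := by ring
  linarith

/-- the count of the prime factors -/
private theorem Cp_w {N m d e K : ℕ} {U C0 : ℝ} (hC00 : 0 ≤ C0) (hm2 : 2 ≤ m)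
    (hXXc : (#(XX N m d e) : ℝ) ≤ K + U / Real.log m)
    (hSS : SS N m d e ≤ 2 * (K + U / Real.log m))
    (hDE : (#(DE N m d e) : ℝ) ≤ C0 * (#(SM N m d e) + SS N m d e))
    (hSM : C0 * (#(SM N m d e) : ℝ) ≤ (#N.primeFactors : ℝ) / 2)
    (hK : 4 * (2 * C0 + 1) * K ≤ (#N.primeFactors : ℝ)) :
    (#N.primeFactors : ℝ) * Real.log m ≤ 4 * (2 * C0 + 1) * U := by
  have hm2' : (2 : ℝ) ≤ m := by exact_mod_cast hm2
  have hlogm : 0 < Real.log m := Real.log_pos (by linarith)
  have hsplit : #N.primeFactors = #(DE N m d e) + #(XX N m d e) := by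
    unfold DE XX
    rw [← card_filter_add_card_filter_not
      (p := fun q => q ≤ m ∧ (N.factorization q = d ∨ N.factorization q = e))]
  have h3 : (#N.primeFactors : ℝ) = #(DE N m d e) + #(XX N m d e) := by exact_mod_cast hsplit
  have h4 : C0 * SS N m d e ≤ C0 * (2 * (K + U / Real.log m)) :=
    mul_le_mul_of_nonneg_left hSS hC00
  have h5 : (#(DE N m d e) : ℝ) ≤ C0 * #(SM N m d e) + C0 * SS N m d e := by
    rw [← mul_add]; exact hDE
  obtain ⟨V, hV⟩ : ∃ V, V = U / Real.log m := ⟨_, rfl⟩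
  rw [← hV] at h4 hXXc
  have h6 : (#N.primeFactors : ℝ) ≤ 4 * (2 * C0 + 1) * V := by
    have h7 : C0 * (2 * (K + V)) + (K + V) = (2 * C0 + 1) * K + (2 * C0 + 1) * V := by ring
    have h8 : 4 * (2 * C0 + 1) * K = 4 * ((2 * C0 + 1) * K) := by ring
    have h9 : 4 * (2 * C0 + 1) * V = 4 * ((2 * C0 + 1) * V) := by ring
    rw [h8] at hK
    rw [h9]
    linarith
  rw [hV, ← mul_div_assoc, le_div_iff₀ hlogm] at h6
  exact h6

theorem cor_part (hT : Thin) {d e : ℕ} (h2 : 2 ≤ d) (hde : d ≤ e) (h : TwoIneq' d e) (K : ℕ) :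
    ∃ c : ℝ, 0 < c ∧ ∀ N : ℕ, Odd N → N.Perfect →
      (∑ q ∈ N.primeFactors.filter
        (fun q => N.factorization q ≠ d ∧ N.factorization q ≠ e), N.factorization q) ≤ K →
      c * Real.log N ≤ ∑ q ∈ N.primeFactors.filter (fun q : ℕ =>
        c * ((#N.primeFactors : ℝ) * (Real.log (#N.primeFactors : ℝ)) ^ 2) ^ (1 + 1 / (d : ℝ)) <
          (q : ℝ)), (N.factorization q : ℝ) * Real.log q := by
  obtain ⟨CT, hCT, hT⟩ := hT
  have hd0 : (2 : ℝ) ≤ d := by exact_mod_cast h2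
  obtain ⟨D, hD⟩ : ∃ D : ℝ, D = (d : ℝ) / (d + 1) := ⟨_, rfl⟩
  have hD1 : D ≤ 1 := by
    rw [hD, div_le_one (by linarith)]; linarith
  have hD2 : 2 / 3 ≤ D := by
    rw [hD, div_le_div_iff₀ (by norm_num) (by linarith)]; linarith
  have hDd : (1 + 1 / (d : ℝ)) * D = 1 := by
    rw [hD]; field_simp
  obtain ⟨A, hA⟩ : ∃ A : ℝ, A = CT * e * (2 : ℝ) ^ e * 5 := ⟨_, rfl⟩
  have hA0 : 0 ≤ A := by rw [hA]; positivity
  obtain ⟨C0, hC0⟩ : ∃ C0 : ℝ, C0 = 40 * (e : ℝ) ^ 4 := ⟨_, rfl⟩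
  have hC00 : 0 ≤ C0 := by rw [hC0]; positivity
  obtain ⟨T, hTd⟩ : ∃ T : ℝ, T = 2 + 338 * (A * C0) + 4 * (2 * C0 + 1) * K +
    4 * (2 * C0 + 1) * (e + K) + 1 := ⟨_, rfl⟩
  have e1 : 0 ≤ A * C0 := mul_nonneg hA0 hC00
  have e2 : 0 ≤ 4 * (2 * C0 + 1) * (K : ℝ) := by positivity
  have e3 : 0 ≤ 4 * (2 * C0 + 1) * ((e : ℝ) + K) := by positivity
  have hT2 : 2 ≤ T := by linarith
  have hTA : 338 * (A * C0) ≤ T := by linarith
  have hTK : 4 * (2 * C0 + 1) * (K : ℝ) ≤ T := by linarith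
  have hTM : 4 * (2 * C0 + 1) * ((e : ℝ) + K) + 1 ≤ T := by linarith
  obtain ⟨c, hc⟩ : ∃ c : ℝ, c = (T ^ 6)⁻¹ := ⟨_, rfl⟩
  obtain ⟨hc1, hcD, hlogc, hcT⟩ := Cp_c (T := T) (D := D) hT2 hD2
  rw [← hc] at hc1 hcD hlogc hcT
  have hc0 : 0 < c := by
    have : 0 < T := by linarith
    rw [hc]; positivity
  refine ⟨c, hc0, ?_⟩
  intro N ho hN hK
  rw [Cp_logN hN.2.ne']
  have hterm : ∀ q ∈ N.primeFactors, 0 ≤ (N.factorization q : ℝ) * Real.log q := by
    intro q _
    exact mul_nonneg (by positivity) (Real.log_natCast_nonneg q)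
  obtain ⟨y, hy⟩ : ∃ y : ℝ, y = c * ((#N.primeFactors : ℝ) *
    (Real.log (#N.primeFactors : ℝ)) ^ 2) ^ (1 + 1 / (d : ℝ)) := ⟨_, rfl⟩
  rw [← hy]
  rcases lt_or_ge y 2 with hy2 | hy2
  · -- all prime factors are large
    have h1 : N.primeFactors.filter (fun q : ℕ => y < (q : ℝ)) = N.primeFactors := by
      rw [filter_true_of_mem]
      intro q hq
      have h3 : (2 : ℝ) < q := by exact_mod_cast two_lt ho hq
      linarith
    rw [h1]
    exact mul_le_of_le_one_left (sum_nonneg hterm) hc1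
  -- the main case
  obtain ⟨m, hm⟩ : ∃ m : ℕ, m = ⌊y⌋₊ := ⟨_, rfl⟩
  have hy0 : 0 ≤ y := by linarith
  have hm2 : 2 ≤ m := by rw [hm]; exact Nat.le_floor (by exact_mod_cast hy2)
  have hmy : (m : ℝ) ≤ y := by rw [hm]; exact Nat.floor_le hy0
  have hym : y ≤ m + 1 := by rw [hm]; exact (Nat.lt_floor_add_one y).le
  have hset : N.primeFactors.filter (fun q : ℕ => y < (q : ℝ)) =
      N.primeFactors.filter (fun q : ℕ => m < q) := by
    apply filter_congr
    intro q _
    rw [hm]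
    exact (Nat.floor_lt hy0).symm
  rw [hset]
  obtain ⟨U, hU⟩ : ∃ U : ℝ, ∑ q ∈ N.primeFactors.filter (fun q : ℕ => m < q),
    (N.factorization q : ℝ) * Real.log q = U := ⟨_, rfl⟩
  rw [hU]
  have hU0 : 0 ≤ U := by
    rw [← hU]
    exact sum_nonneg fun q hq => hterm q (mem_filter.1 hq).1
  have hw0 : (0 : ℝ) ≤ (#N.primeFactors : ℝ) := by positivity
  have hyD : y ^ D = c ^ D * ((#N.primeFactors : ℝ) *
      (Real.log (#N.primeFactors : ℝ)) ^ 2) := by
    have hW0 : 0 ≤ (#N.primeFactors : ℝ) * (Real.log (#N.primeFactors : ℝ)) ^ 2 := by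
      positivity
    rw [hy, Real.mul_rpow hc0.le (Real.rpow_nonneg hW0 _), ← Real.rpow_mul hW0, hDd,
      Real.rpow_one]
  have hw1 : (0 : ℝ) < (#N.primeFactors : ℝ) → (1 : ℝ) ≤ (#N.primeFactors : ℝ) := by
    intro h1
    exact_mod_cast h1
  obtain ⟨hwT, hL0, hLy⟩ := Cp_real hT2 hD1 hD2 hc0 hcD hlogc hw0 hw1 hy2 hyD
  have hSM := Cp_sm (N := N) (m := m) (d := d) (e := e) (y := y) hCT (hT N ho hN) h2 hde hm2
    hy2 hmy hym
  rw [← hD, ← hA] at hSM
  have hSM2 := Cp_num hT2 hcD hA0 hC00 hTA hw0 hL0 hy2 hyD hLy hSM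
  obtain ⟨hXXc, hSS⟩ := Cp_XX (N := N) (m := m) (d := d) (e := e) (K := K) (U := U) hm2 hK hU
  have hDE := h N m ho hN hm2
  rw [← hC0] at hDE
  have hwL := Cp_w (N := N) (m := m) (d := d) (e := e) (K := K) (U := U) hC00 hm2 hXXc hSS hDE
    hSM2 (hTK.trans hwT)
  have hlow := Cp_low (N := N) (m := m) (d := d) (e := e) (K := K) hde hK
  rw [hU] at hlow
  have hfin : ∑ q ∈ N.primeFactors, (N.factorization q : ℝ) * Real.log q ≤ T * U := by
    calc ∑ q ∈ N.primeFactors, (N.factorization q : ℝ) * Real.log q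
        ≤ ((e : ℝ) + K) * ((#N.primeFactors : ℝ) * Real.log m) + U := hlow
      _ ≤ ((e : ℝ) + K) * (4 * (2 * C0 + 1) * U) + U := by
          have h1 : ((e : ℝ) + K) * ((#N.primeFactors : ℝ) * Real.log m) ≤
              ((e : ℝ) + K) * (4 * (2 * C0 + 1) * U) :=
            mul_le_mul_of_nonneg_left hwL (by positivity)
          linarith
      _ = (4 * (2 * C0 + 1) * ((e : ℝ) + K) + 1) * U := by ring
      _ ≤ T * U := mul_le_mul_of_nonneg_right hTM hU0
  calc c * ∑ q ∈ N.primeFactors, (N.factorization q : ℝ) * Real.log q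
      ≤ c * (T * U) := mul_le_mul_of_nonneg_left hfin hc0.le
    _ = (c * T) * U := by ring
    _ ≤ 1 * U := mul_le_mul_of_nonneg_right hcT hU0
    _ = U := one_mul _

end Pool.Agent.BE
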