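import Pool.Agent.Lib.MP_f02ea4_nt.BE.Defs

/-!
# Consequences of the inequality for two exponents
TASK Ct2 (the exponent of one prime `p` is arbitrary). An older version, with all exponents bounded
and another constant in `TwoIneq`, is /team-store/MP_f02ea4_BE_CorTwo.lean: most of it can be
copied. The sets and statements are in Defs.lean (DE, XX, SM, SS, TwoIneq, Thin, EulerExp).
* `cor_two`: let `α = v_p`. All other exponents are `≤ B := e + K`, so `EulerExp` gives
  `α ≤ C √P log P`. Apply `TwoIneq` with `y = P ≥ 3`. Let `x = (P + 1) ^ (d / (d + 1))` (`x ≥ 2`).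
  Every `q ∈ SM N P d e` has `q ≤ x` and exponent `≤ e` (`d ≤ e`), so `Thin` with `E = e` gives
  `#SM ≤ C' P ^ (d/(d+1)) / (log P)²`. `XX N P d e` is the set of the `q` with exponent `≠ d, e`
  (all `q ≤ P`), so `SS ≤ 2 ∑ v_q ≤ 2 (K + α)`. So
  `#DE ≤ C log P (C' P^(d/(d+1)) / (log P)² + 2 K + 2 C √P log P) ≤ C'' P ^ (d/(d+1)) / log P`
  (`d/(d+1) ≥ 2/3`, `(log P)³ ≤ C P^(1/6)`), and `#N.primeFactors ≤ #DE + K + 1`. Then
  `log N = ∑ v_q log q ≤ (e #DE + K + α) log P ≤ C''' P^(d/(d+1))`; raise to the power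
  `(d + 1) / d = 1 + 1 / d`. (If `p ∉ N.primeFactors` then `α = 0`: no problem, treat it separately
  or note that `EulerExp` is applied only if `p ∈ N.primeFactors`.)
-/

set_option autoImplicit false

namespace Pool.Agent.BE

open Finset Nat

private theorem Ct_sm {N P d e : ℕ} {CT : ℝ} (hCT : 0 < CT)
    (hT : ∀ x : ℝ, 2 ≤ x → ∀ E : ℕ, 1 ≤ E →
      ((N.primeFactors.filter
        (fun p : ℕ => (p : ℝ) ≤ x ∧ N.factorization p ≤ E)).card : ℝ) ≤
        CT * E * (2 : ℝ) ^ E * x / (Real.log x) ^ 2)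
    (h2 : 2 ≤ d) (hde : d ≤ e) (hP : 3 ≤ P) :
    (#(SM N P d e) : ℝ) ≤
      CT * e * (2 : ℝ) ^ e * 5 * (P : ℝ) ^ ((d : ℝ) / (d + 1)) / (Real.log P) ^ 2 := by
  have hd0 : (2 : ℝ) ≤ d := by exact_mod_cast h2
  have hP3 : (3 : ℝ) ≤ P := by exact_mod_cast hP
  set D : ℝ := (d : ℝ) / (d + 1) with hD
  have hD1 : D ≤ 1 := by
    rw [hD, div_le_one (by linarith)]; linarith
  have hD2 : 2 / 3 ≤ D := by
    rw [hD, div_le_div_iff₀ (by norm_num) (by linarith)]; linarith
  set X : ℝ := ((P : ℝ) + 1) ^ D with hX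
  have hlogP : 1 < Real.log P := by
    have h1 : Real.log 3 ≤ Real.log P := Real.log_le_log (by norm_num) hP3
    have h3 : Real.exp 1 < 3 := Real.exp_one_lt_d9.trans (by norm_num)
    have h4 : 1 < Real.log 3 := by
      rw [Real.lt_log_iff_exp_lt (by norm_num)]; exact h3
    linarith
  have hlogX : (2 / 3) * Real.log P ≤ Real.log X := by
    rw [hX, Real.log_rpow (by linarith)]
    have h1 : Real.log P ≤ Real.log ((P : ℝ) + 1) :=
      Real.log_le_log (by linarith) (by linarith)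
    have h5 : 0 ≤ Real.log P := by linarith
    calc (2 / 3) * Real.log P ≤ D * Real.log P := mul_le_mul_of_nonneg_right hD2 h5
      _ ≤ D * Real.log ((P : ℝ) + 1) := mul_le_mul_of_nonneg_left h1 (by linarith)
  have hX2 : 2 ≤ X := by
    have h1 : (4 : ℝ) ^ (2 / 3 : ℝ) ≤ X := by
      calc (4 : ℝ) ^ (2 / 3 : ℝ) ≤ (4 : ℝ) ^ D :=
            Real.rpow_le_rpow_of_exponent_le (by norm_num) hD2
        _ ≤ ((P : ℝ) + 1) ^ D :=
            Real.rpow_le_rpow (by norm_num) (by linarith) (by linarith)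
    have h3 : (2 : ℝ) ≤ (4 : ℝ) ^ (2 / 3 : ℝ) := by
      have h4 : (4 : ℝ) ^ (1 / 2 : ℝ) = 2 := by
        rw [show (4 : ℝ) = 2 ^ (2 : ℝ) by norm_num, ← Real.rpow_mul (by norm_num)]
        norm_num
      rw [← h4]
      exact Real.rpow_le_rpow_of_exponent_le (by norm_num) (by norm_num)
    linarith
  have hXP : X ≤ 2 * (P : ℝ) ^ D := by
    calc X ≤ (2 * (P : ℝ)) ^ D := Real.rpow_le_rpow (by linarith) (by linarith) (by linarith)
      _ = 2 ^ D * (P : ℝ) ^ D := Real.mul_rpow (by norm_num) (by linarith)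
      _ ≤ 2 * (P : ℝ) ^ D := by
          refine mul_le_mul_of_nonneg_right ?_ (Real.rpow_nonneg (by linarith) _)
          calc (2 : ℝ) ^ D ≤ (2 : ℝ) ^ (1 : ℝ) :=
                Real.rpow_le_rpow_of_exponent_le (by norm_num) hD1
            _ = 2 := Real.rpow_one _
  have hsub : SM N P d e ⊆ N.primeFactors.filter
      (fun p : ℕ => (p : ℝ) ≤ X ∧ N.factorization p ≤ e) := by
    intro q hq
    rw [SM, mem_filter] at hq
    rw [mem_filter]
    refine ⟨hq.1, ?_, ?_⟩
    · have h1 : ((q : ℝ)) ^ (d + 1) ≤ ((P : ℝ) + 1) ^ d := by exact_mod_cast hq.2.2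
      have h3 : (((q : ℝ)) ^ (d + 1)) ^ ((1 : ℝ) / (d + 1)) ≤
          (((P : ℝ) + 1) ^ d) ^ ((1 : ℝ) / (d + 1)) :=
        Real.rpow_le_rpow (by positivity) h1 (by positivity)
      rw [← Real.rpow_natCast, ← Real.rpow_natCast, ← Real.rpow_mul (by positivity),
        ← Real.rpow_mul (by positivity)] at h3
      have h4 : (((d + 1 : ℕ) : ℝ)) * (1 / ((d : ℝ) + 1)) = 1 := by
        push_cast
        field_simp
      rw [h4, Real.rpow_one] at h3
      rw [hX, hD]
      rw [mul_one_div] at h3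
      exact h3
    · rcases hq.2.1 with h | h <;> omega
  have he1 : 1 ≤ e := by omega
  have h1 := hT X hX2 e he1
  have hc : (#(SM N P d e) : ℝ) ≤ ((N.primeFactors.filter
      (fun p : ℕ => (p : ℝ) ≤ X ∧ N.factorization p ≤ e)).card : ℝ) := by
    exact_mod_cast card_le_card hsub
  refine hc.trans (h1.trans ?_)
  have hPD : 0 ≤ (P : ℝ) ^ D := Real.rpow_nonneg (by linarith) _
  have hA : 0 ≤ CT * e * (2 : ℝ) ^ e := by positivity
  have hL2 : (4 / 9) * (Real.log P) ^ 2 ≤ (Real.log X) ^ 2 := by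
    have h5 : 0 ≤ (2 / 3) * Real.log P := by linarith
    nlinarith
  have hL0 : 0 < (Real.log P) ^ 2 := by positivity
  have hLX : 0 < (Real.log X) ^ 2 := by nlinarith
  rw [div_le_div_iff₀ hLX hL0]
  have h6 : CT * e * (2 : ℝ) ^ e * X ≤ CT * e * (2 : ℝ) ^ e * (2 * (P : ℝ) ^ D) :=
    mul_le_mul_of_nonneg_left hXP hA
  calc CT * e * (2 : ℝ) ^ e * X * (Real.log P) ^ 2
      ≤ CT * e * (2 : ℝ) ^ e * (2 * (P : ℝ) ^ D) * (Real.log P) ^ 2 :=
        mul_le_mul_of_nonneg_right h6 hL0.le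
    _ = CT * e * (2 : ℝ) ^ e * (P : ℝ) ^ D * (9 / 2) * ((4 / 9) * (Real.log P) ^ 2) := by ring
    _ ≤ CT * e * (2 : ℝ) ^ e * (P : ℝ) ^ D * (9 / 2) * ((Real.log X) ^ 2) := by
        refine mul_le_mul_of_nonneg_left hL2 ?_
        positivity
    _ ≤ CT * e * (2 : ℝ) ^ e * 5 * (P : ℝ) ^ D * (Real.log X) ^ 2 := by
        have h7 : 0 ≤ CT * e * (2 : ℝ) ^ e * (P : ℝ) ^ D * (Real.log X) ^ 2 := by positivity
        nlinarith

private theorem Ct_logN {N P : ℕ} (hN : N ≠ 0) (hP : ∀ q ∈ N.primeFactors, q ≤ P) :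
    Real.log N ≤ (∑ q ∈ N.primeFactors, (N.factorization q : ℝ)) * Real.log P := by
  have h1 : (N : ℝ) = ∏ q ∈ N.primeFactors, (q : ℝ) ^ N.factorization q := by
    conv_lhs => rw [← Nat.prod_factorization_pow_eq_self hN]
    rw [Finsupp.prod, Nat.support_factorization]
    push_cast
    rfl
  rw [h1, Real.log_prod (fun q hq => by
    have := (Nat.prime_of_mem_primeFactors hq).pos
    positivity), sum_mul]
  refine sum_le_sum fun q hq => ?_
  have hq0 : 0 < q := (Nat.prime_of_mem_primeFactors hq).pos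
  rw [Real.log_pow]
  exact mul_le_mul_of_nonneg_left
    (Real.log_le_log (by exact_mod_cast hq0) (by exact_mod_cast hP q hq)) (by positivity)

theorem cor_two (hT : Thin) (hEu : EulerExp) {d e : ℕ} (h2 : 2 ≤ d) (hde : d ^ 2 ≤ e)
    (h : TwoIneq d e) (K : ℕ) :
    ∃ c : ℝ, 0 < c ∧ ∀ N P p : ℕ, Odd N → N.Perfect → P ∈ N.primeFactors →
      (∀ q ∈ N.primeFactors, q ≤ P) →
      (∑ q ∈ N.primeFactors.filter
        (fun q => q ≠ p ∧ N.factorization q ≠ d ∧ N.factorization q ≠ e),
          N.factorization q) ≤ K →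
      c * (Real.log N) ^ (1 + 1 / (d : ℝ)) ≤ P ∧
      c * (#N.primeFactors : ℝ) * Real.log P ≤ (P : ℝ) ^ ((d : ℝ) / (d + 1)) := by
  obtain ⟨CT, hCT, hT⟩ := hT
  obtain ⟨CE, hCE, hEu⟩ := hEu (e + K)
  have hde' : d ≤ e := by nlinarith
  have hd0 : (2 : ℝ) ≤ d := by exact_mod_cast h2
  have he0 : (2 : ℝ) ≤ e := by exact_mod_cast (h2.trans hde')
  set D : ℝ := (d : ℝ) / (d + 1) with hD
  have hD1 : D ≤ 1 := by
    rw [hD, div_le_one (by linarith)]; linarith
  have hD2 : 2 / 3 ≤ D := by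
    rw [hD, div_le_div_iff₀ (by norm_num) (by linarith)]; linarith
  set A : ℝ := CT * e * (2 : ℝ) ^ e * 5 with hA
  have hA0 : 0 ≤ A := by positivity
  set C0 : ℝ := 40 * (e : ℝ) ^ 4 with hC0
  have hC00 : 0 ≤ C0 := by positivity
  set C3 : ℝ := C0 * (A + 18 * K + 11664 * CE) + 9 * (K + 1) with hC3
  have hC30 : 0 < C3 := by positivity
  set C5 : ℝ := e * C3 + 9 * K + 5832 * CE with hC5
  have hC50 : 0 < C5 := by positivity
  set C4 : ℝ := C5 ^ (1 + 1 / (d : ℝ)) with hC4
  have hC40 : 0 < C4 := Real.rpow_pos_of_pos hC50 _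
  refine ⟨min C3⁻¹ C4⁻¹, lt_min (by positivity) (by positivity), ?_⟩
  intro N P p ho hN hP hmax hK
  have hP3 : 3 ≤ P := two_lt ho hP
  have hP3' : (3 : ℝ) ≤ P := by exact_mod_cast hP3
  have hlogP : 1 < Real.log P := by
    have h1 : Real.log 3 ≤ Real.log P := Real.log_le_log (by norm_num) hP3'
    have h3 : Real.exp 1 < 3 := Real.exp_one_lt_d9.trans (by norm_num)
    have h4 : 1 < Real.log 3 := by
      rw [Real.lt_log_iff_exp_lt (by norm_num)]; exact h3
    linarith
  have hlog0 : 0 < Real.log P := by linarith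
  have hPD : 0 < (P : ℝ) ^ D := Real.rpow_pos_of_pos (by linarith) _
  have hP23 : (P : ℝ) ^ (2 / 3 : ℝ) ≤ (P : ℝ) ^ D :=
    Real.rpow_le_rpow_of_exponent_le (by linarith) hD2
  -- log squared
  have hlog2 : (Real.log P) ^ 2 ≤ 9 * (P : ℝ) ^ D := by
    have h1 : Real.log P ≤ (P : ℝ) ^ (1 / 3 : ℝ) / (1 / 3) :=
      Real.log_le_rpow_div (by linarith) (by norm_num)
    have h3 : (Real.log P) ^ 2 ≤ ((P : ℝ) ^ (1 / 3 : ℝ) / (1 / 3)) ^ 2 :=
      pow_le_pow_left₀ hlog0.le h1 2
    have h4 : ((P : ℝ) ^ (1 / 3 : ℝ)) ^ 2 = (P : ℝ) ^ (2 / 3 : ℝ) := by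
      rw [← Real.rpow_natCast, ← Real.rpow_mul (by linarith)]
      norm_num
    calc (Real.log P) ^ 2 ≤ ((P : ℝ) ^ (1 / 3 : ℝ) / (1 / 3)) ^ 2 := h3
      _ = 9 * ((P : ℝ) ^ (1 / 3 : ℝ)) ^ 2 := by ring
      _ = 9 * (P : ℝ) ^ (2 / 3 : ℝ) := by rw [h4]
      _ ≤ 9 * (P : ℝ) ^ D := by linarith
  have hlog3 : Real.sqrt P * (Real.log P) ^ 3 ≤ 5832 * (P : ℝ) ^ D := by
    have h1 : Real.log P ≤ (P : ℝ) ^ (1 / 18 : ℝ) / (1 / 18) :=
      Real.log_le_rpow_div (by linarith) (by norm_num)
    have h3 : (Real.log P) ^ 3 ≤ ((P : ℝ) ^ (1 / 18 : ℝ) / (1 / 18)) ^ 3 :=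
      pow_le_pow_left₀ hlog0.le h1 3
    have h4 : ((P : ℝ) ^ (1 / 18 : ℝ)) ^ 3 = (P : ℝ) ^ (1 / 6 : ℝ) := by
      rw [← Real.rpow_natCast, ← Real.rpow_mul (by linarith)]
      norm_num
    have h5 : Real.sqrt P * (P : ℝ) ^ (1 / 6 : ℝ) = (P : ℝ) ^ (2 / 3 : ℝ) := by
      rw [Real.sqrt_eq_rpow, ← Real.rpow_add (by linarith)]
      norm_num
    calc Real.sqrt P * (Real.log P) ^ 3
        ≤ Real.sqrt P * ((P : ℝ) ^ (1 / 18 : ℝ) / (1 / 18)) ^ 3 :=
          mul_le_mul_of_nonneg_left h3 (Real.sqrt_nonneg _)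
      _ = 5832 * (Real.sqrt P * ((P : ℝ) ^ (1 / 18 : ℝ)) ^ 3) := by ring
      _ = 5832 * (P : ℝ) ^ (2 / 3 : ℝ) := by rw [h4, h5]
      _ ≤ 5832 * (P : ℝ) ^ D := by linarith
  set R : ℝ := (P : ℝ) ^ D / Real.log P with hR
  have hR0 : 0 < R := by positivity
  have hlogR : Real.log P ≤ 9 * R := by
    rw [hR, ← mul_div_assoc, le_div_iff₀ hlog0]
    nlinarith
  have hR1 : 1 ≤ 9 * R := by linarith
  have hRP : R ≤ (P : ℝ) ^ D := by
    rw [hR, div_le_iff₀ hlog0]
    nlinarith
  -- the exceptional set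
  set F : Finset ℕ := N.primeFactors.filter
    (fun q => q ≠ p ∧ N.factorization q ≠ d ∧ N.factorization q ≠ e) with hF
  have hXX : XX N P d e ⊆ insert p F := by
    intro q hq
    rw [XX, mem_filter] at hq
    have h1 := hmax q hq.1
    have h3 : ¬ (N.factorization q = d ∨ N.factorization q = e) := fun h4 => hq.2 ⟨h1, h4⟩
    rw [mem_insert]
    by_cases hqp : q = p
    · exact Or.inl hqp
    · right
      rw [hF, mem_filter]
      exact ⟨hq.1, hqp, fun h4 => h3 (Or.inl h4), fun h4 => h3 (Or.inr h4)⟩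
  have hFs : (∑ q ∈ F, (N.factorization q : ℝ)) ≤ K := by exact_mod_cast hK
  have hFc : (#F : ℝ) ≤ K := by
    refine le_trans ?_ hFs
    rw [card_eq_sum_ones]
    push_cast
    apply sum_le_sum
    intro q hq
    have h1 : q ∈ N.primeFactors := (mem_filter.1 hq).1
    exact_mod_cast fac_pos h1
  have hpF : p ∉ F := by
    intro h1
    exact (mem_filter.1 h1).2.1 rfl
  have hXXs : (∑ q ∈ XX N P d e, (N.factorization q : ℝ)) ≤ K + N.factorization p := by
    calc (∑ q ∈ XX N P d e, (N.factorization q : ℝ))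
        ≤ ∑ q ∈ insert p F, (N.factorization q : ℝ) :=
          sum_le_sum_of_subset_of_nonneg hXX fun _ _ _ => by positivity
      _ = N.factorization p + ∑ q ∈ F, (N.factorization q : ℝ) := sum_insert hpF
      _ ≤ K + N.factorization p := by linarith
  have hXXc : (#(XX N P d e) : ℝ) ≤ K + 1 := by
    have h1 : #(XX N P d e) ≤ #F + 1 := by
      rw [← card_insert_of_notMem hpF]
      exact card_le_card hXX
    have h3 : (#(XX N P d e) : ℝ) ≤ #F + 1 := by exact_mod_cast h1
    linarith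
  have hα : (N.factorization p : ℝ) ≤ CE * Real.sqrt P * Real.log P := by
    by_cases hp : p ∈ N.primeFactors
    · refine hEu N P p ho hN hp hmax fun q hq hqp => ?_
      by_cases hq' : N.factorization q = d ∨ N.factorization q = e
      · rcases hq' with h1 | h1 <;> omega
      · have hqF : q ∈ F := by
          rw [hF, mem_filter]
          exact ⟨hq, hqp, fun h4 => hq' (Or.inl h4), fun h4 => hq' (Or.inr h4)⟩
        have h1 : N.factorization q ≤ ∑ q ∈ F, N.factorization q :=
          single_le_sum (f := fun q => N.factorization q) (fun _ _ => Nat.zero_le _) hqF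
        omega
    · have h1 : N.factorization p = 0 := by
        rw [← Nat.support_factorization] at hp
        exact Finsupp.notMem_support_iff.1 hp
      rw [h1]
      have : 0 ≤ CE * Real.sqrt P * Real.log P := by positivity
      simpa using this
  have hαL : (N.factorization p : ℝ) * Real.log P ≤ 5832 * CE * R := by
    rw [hR, ← mul_div_assoc, le_div_iff₀ hlog0]
    calc (N.factorization p : ℝ) * Real.log P * Real.log P
        ≤ CE * Real.sqrt P * Real.log P * Real.log P * Real.log P := by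
          have h1 := mul_le_mul_of_nonneg_right hα hlog0.le
          exact mul_le_mul_of_nonneg_right h1 hlog0.le
      _ = CE * (Real.sqrt P * (Real.log P) ^ 3) := by ring
      _ ≤ CE * (5832 * (P : ℝ) ^ D) := mul_le_mul_of_nonneg_left hlog3 hCE.le
      _ = 5832 * CE * (P : ℝ) ^ D := by ring
  have hSS : SS N P d e ≤ 2 * (K + N.factorization p) := by
    unfold SS
    calc ∑ q ∈ XX N P d e, (N.factorization q : ℝ) * (1 + Real.log q / Real.log P)
        ≤ ∑ q ∈ XX N P d e, (N.factorization q : ℝ) * 2 := by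
          apply sum_le_sum
          intro q hq
          have h1 : q ∈ N.primeFactors := (mem_filter.1 hq).1
          have hq0 : 0 < q := (Nat.prime_of_mem_primeFactors h1).pos
          have h3 : Real.log q ≤ Real.log P :=
            Real.log_le_log (by exact_mod_cast hq0) (by exact_mod_cast hmax q h1)
          have h4 : Real.log q / Real.log P ≤ 1 := by
            rw [div_le_one hlog0]; exact h3
          refine mul_le_mul_of_nonneg_left (by linarith) (by positivity)
      _ = (∑ q ∈ XX N P d e, (N.factorization q : ℝ)) * 2 := by rw [sum_mul]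
      _ ≤ 2 * (K + N.factorization p) := by linarith
  have hSM := Ct_sm (N := N) (P := P) (d := d) (e := e) hCT (hT N ho hN) h2 hde' hP3
  have hDE := h N P ho hN (by omega)
  have hDE' : (#(DE N P d e) : ℝ) ≤ C0 * (A + 18 * K + 11664 * CE) * R := by
    refine hDE.trans ?_
    have h1 : (#(SM N P d e) : ℝ) * Real.log P ≤ A * R := by
      have h5 : A * R / Real.log P * Real.log P = A * R := by field_simp
      rw [← h5]
      refine mul_le_mul_of_nonneg_right (hSM.trans (le_of_eq ?_)) hlog0.le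
      rw [hR, hA, hD]
      field_simp
    have h6 : SS N P d e * Real.log P ≤ 18 * K * R + 11664 * CE * R := by
      calc SS N P d e * Real.log P ≤ 2 * (K + N.factorization p) * Real.log P :=
            mul_le_mul_of_nonneg_right hSS hlog0.le
        _ = 2 * K * Real.log P + 2 * ((N.factorization p : ℝ) * Real.log P) := by ring
        _ ≤ 2 * K * (9 * R) + 2 * (5832 * CE * R) := by
            have h7 : 2 * (K : ℝ) * Real.log P ≤ 2 * K * (9 * R) :=
              mul_le_mul_of_nonneg_left hlogR (by positivity)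
            linarith
        _ = 18 * K * R + 11664 * CE * R := by ring
    calc 40 * (e : ℝ) ^ 4 * Real.log P * (#(SM N P d e) + SS N P d e)
        = C0 * ((#(SM N P d e) : ℝ) * Real.log P + SS N P d e * Real.log P) := by
          rw [hC0]; ring
      _ ≤ C0 * (A * R + (18 * K * R + 11664 * CE * R)) :=
          mul_le_mul_of_nonneg_left (by linarith) hC00
      _ = C0 * (A + 18 * K + 11664 * CE) * R := by ring
  have hsplit : #N.primeFactors = #(DE N P d e) + #(XX N P d e) := by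
    unfold DE XX
    rw [← card_filter_add_card_filter_not
      (p := fun q => q ≤ P ∧ (N.factorization q = d ∨ N.factorization q = e))]
  have hom : (#N.primeFactors : ℝ) ≤ C3 * R := by
    have h3 : (#N.primeFactors : ℝ) = #(DE N P d e) + #(XX N P d e) := by exact_mod_cast hsplit
    rw [h3]
    have h4 : (K : ℝ) + 1 ≤ (K + 1) * (9 * R) := le_mul_of_one_le_right (by positivity) hR1
    calc (#(DE N P d e) : ℝ) + #(XX N P d e)
        ≤ C0 * (A + 18 * K + 11664 * CE) * R + (K + 1) * (9 * R) := by linarith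
      _ = C3 * R := by rw [hC3]; ring
  have homL : (#N.primeFactors : ℝ) * Real.log P ≤ C3 * (P : ℝ) ^ D := by
    calc (#N.primeFactors : ℝ) * Real.log P ≤ C3 * R * Real.log P :=
          mul_le_mul_of_nonneg_right hom hlog0.le
      _ = C3 * (P : ℝ) ^ D := by
          rw [hR]; field_simp
  constructor
  · have hlogN0 : 0 ≤ Real.log N := Real.log_natCast_nonneg N
    have h1 := Ct_logN (N := N) (P := P) hN.2.ne' hmax
    have hsum : (∑ q ∈ N.primeFactors, (N.factorization q : ℝ)) ≤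
        e * (#N.primeFactors : ℝ) + (K + N.factorization p) := by
      have h3 : (∑ q ∈ N.primeFactors, (N.factorization q : ℝ)) =
          ∑ q ∈ DE N P d e, (N.factorization q : ℝ) + ∑ q ∈ XX N P d e, (N.factorization q : ℝ) := by
        unfold DE XX
        rw [← sum_filter_add_sum_filter_not (s := N.primeFactors)
          (p := fun q => q ≤ P ∧ (N.factorization q = d ∨ N.factorization q = e))]
      rw [h3]
      have h4 : ∑ q ∈ DE N P d e, (N.factorization q : ℝ) ≤ ∑ _q ∈ DE N P d e, (e : ℝ) := by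
        refine sum_le_sum fun q hq => ?_
        have h5 := (mem_filter.1 hq).2.2
        have h6 : N.factorization q ≤ e := by
          rcases h5 with h5 | h5 <;> omega
        exact_mod_cast h6
      rw [sum_const, nsmul_eq_mul] at h4
      have h7 : (#(DE N P d e) : ℝ) ≤ #N.primeFactors := by
        exact_mod_cast card_le_card (filter_subset _ _)
      have h8 : (#(DE N P d e) : ℝ) * e ≤ e * (#N.primeFactors : ℝ) := by
        rw [mul_comm]
        exact mul_le_mul_of_nonneg_left h7 (by positivity)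
      linarith
    have h3 : Real.log N ≤ C5 * (P : ℝ) ^ D := by
      calc Real.log N ≤ (∑ q ∈ N.primeFactors, (N.factorization q : ℝ)) * Real.log P := h1
        _ ≤ (e * (#N.primeFactors : ℝ) + (K + N.factorization p)) * Real.log P :=
            mul_le_mul_of_nonneg_right hsum hlog0.le
        _ = e * ((#N.primeFactors : ℝ) * Real.log P) + K * Real.log P +
              (N.factorization p : ℝ) * Real.log P := by ring
        _ ≤ e * (C3 * (P : ℝ) ^ D) + K * (9 * (P : ℝ) ^ D) + 5832 * CE * (P : ℝ) ^ D := by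
            have h4 : (e : ℝ) * ((#N.primeFactors : ℝ) * Real.log P) ≤ e * (C3 * (P : ℝ) ^ D) :=
              mul_le_mul_of_nonneg_left homL (by positivity)
            have h5 : (K : ℝ) * Real.log P ≤ K * (9 * (P : ℝ) ^ D) :=
              mul_le_mul_of_nonneg_left (by linarith) (by positivity)
            have h6 : 5832 * CE * R ≤ 5832 * CE * (P : ℝ) ^ D :=
              mul_le_mul_of_nonneg_left hRP (by positivity)
            linarith
        _ = C5 * (P : ℝ) ^ D := by rw [hC5]; ring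
    have h4 : (Real.log N) ^ (1 + 1 / (d : ℝ)) ≤ C4 * P := by
      have h5 : (Real.log N) ^ (1 + 1 / (d : ℝ)) ≤
          (C5 * (P : ℝ) ^ D) ^ (1 + 1 / (d : ℝ)) :=
        Real.rpow_le_rpow hlogN0 h3 (by positivity)
      rw [Real.mul_rpow hC50.le hPD.le, ← Real.rpow_mul (by linarith)] at h5
      have h6 : D * (1 + 1 / (d : ℝ)) = 1 := by
        rw [hD]; field_simp
      rw [h6, Real.rpow_one] at h5
      exact h5
    have h7 : 0 ≤ (Real.log N) ^ (1 + 1 / (d : ℝ)) := Real.rpow_nonneg hlogN0 _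
    calc min C3⁻¹ C4⁻¹ * (Real.log N) ^ (1 + 1 / (d : ℝ))
        ≤ C4⁻¹ * (Real.log N) ^ (1 + 1 / (d : ℝ)) :=
          mul_le_mul_of_nonneg_right (min_le_right _ _) h7
      _ ≤ C4⁻¹ * (C4 * P) := mul_le_mul_of_nonneg_left h4 (by positivity)
      _ = P := by field_simp
  · calc min C3⁻¹ C4⁻¹ * (#N.primeFactors : ℝ) * Real.log P
        = min C3⁻¹ C4⁻¹ * ((#N.primeFactors : ℝ) * Real.log P) := by ring
      _ ≤ C3⁻¹ * ((#N.primeFactors : ℝ) * Real.log P) :=
          mul_le_mul_of_nonneg_right (min_le_left _ _) (by positivity)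
      _ ≤ C3⁻¹ * (C3 * (P : ℝ) ^ D) := mul_le_mul_of_nonneg_left homL (by positivity)
      _ = (P : ℝ) ^ D := by field_simp

end Pool.Agent.BE
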