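import Pool.Agent.Lib.MP_f02ea4_nt.BE.Base

/-!
# The sets and the statements
-/

set_option autoImplicit false

namespace Pool.Agent.BE

open Finset Nat

/-- the set of prime factors `q ≤ y` of `N` with exponent `d` or `e` -/
def DE (N y d e : ℕ) : Finset ℕ :=
  {q ∈ N.primeFactors | q ≤ y ∧ (N.factorization q = d ∨ N.factorization q = e)}

/-- the other prime factors -/
def XX (N y d e : ℕ) : Finset ℕ :=
  {q ∈ N.primeFactors | ¬ (q ≤ y ∧ (N.factorization q = d ∨ N.factorization q = e))}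

/-- the small prime factors with exponent `d` or `e` -/
def SM (N y d e : ℕ) : Finset ℕ :=
  {q ∈ N.primeFactors | (N.factorization q = d ∨ N.factorization q = e) ∧
    q ^ (d + 1) ≤ (y + 1) ^ d}

/-- the weighted number of the other prime factors -/
noncomputable def SS (N y d e : ℕ) : ℝ :=
  ∑ q ∈ XX N y d e, (N.factorization q : ℝ) * (1 + Real.log q / Real.log y)

/-- the inequality for two exponents -/
def TwoIneq (d e : ℕ) : Prop := ∀ N y : ℕ, Odd N → N.Perfect → 2 ≤ y →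
  (#(DE N y d e) : ℝ) ≤ 40 * (e : ℝ) ^ 4 * Real.log y * (#(SM N y d e) + SS N y d e)

/-- the inequality for two exponents without the logarithm -/
def TwoIneq' (d e : ℕ) : Prop := ∀ N y : ℕ, Odd N → N.Perfect → 2 ≤ y →
  (#(DE N y d e) : ℝ) ≤ 40 * (e : ℝ) ^ 4 * (#(SM N y d e) + SS N y d e)

/-- the prime factors `q ≤ y` with exponent at most `B` -/
noncomputable def LO (N B : ℕ) (y : ℝ) : Finset ℕ :=
  N.primeFactors.filter (fun q : ℕ => (q : ℝ) ≤ y ∧ N.factorization q ≤ B)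

/-- the other prime factors -/
noncomputable def LOc (N B : ℕ) (y : ℝ) : Finset ℕ :=
  N.primeFactors.filter (fun q : ℕ => ¬ ((q : ℝ) ≤ y ∧ N.factorization q ≤ B))

/-- the prime factors `q ≤ y ^ (1 - 1 / v)` with exponent `v ≤ B` -/
noncomputable def ZZ (N B : ℕ) (y : ℝ) : Finset ℕ :=
  N.primeFactors.filter (fun q : ℕ => N.factorization q ≤ B ∧
    (q : ℝ) ^ N.factorization q ≤ y ^ (N.factorization q - 1))

/-- the general inequality -/
def GenIneq : Prop := ∀ N B : ℕ, ∀ y : ℝ, Odd N → N.Perfect → 1 ≤ B → 2 ≤ y →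
  (#(LO N B y) : ℝ) ^ 3 ≤ 9261 * (B : ℝ) ^ 6 * y ^ 2 *
    ((∑ q ∈ LOc N B y, (N.factorization q : ℝ)) + #(ZZ N B y) + 1)

/-- the bound for the number of prime factors with small exponent proved in `TE/K6`, `TE/K7` -/
def Thin : Prop := ∃ C : ℝ, 0 < C ∧ ∀ N : ℕ, Odd N → N.Perfect → ∀ x : ℝ, 2 ≤ x →
  ∀ E : ℕ, 1 ≤ E →
    ((N.primeFactors.filter
      (fun p : ℕ => (p : ℝ) ≤ x ∧ N.factorization p ≤ E)).card : ℝ) ≤
      C * E * (2 : ℝ) ^ E * x / (Real.log x) ^ 2

/-- if all prime factors but `p` have exponent at most `B` then the exponent of `p` is small -/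
def EulerExp : Prop := ∀ B : ℕ, ∃ C : ℝ, 0 < C ∧ ∀ N P p : ℕ, Odd N → N.Perfect →
  p ∈ N.primeFactors → (∀ q ∈ N.primeFactors, q ≤ P) →
  (∀ q ∈ N.primeFactors, q ≠ p → N.factorization q ≤ B) →
  (N.factorization p : ℝ) ≤ C * Real.sqrt P * Real.log P

end Pool.Agent.BE
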