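import Pool.Agent.Lib.MP_f02ea4_nt.BE.Defs

/-!
# The exponent of a prime when all the other exponents are bounded
TASK Eu. Write `n = v_p + 1`; `s N p = G n p = 1 + p + ... + p ^ (n - 1)` (Base.lean).
* `prod_one_sub`: for a finite set `S` of naturals `≥ 2`: `∏ (1 - 1/p) ≥ 1 / (#S + 1)`. Induction on
  `#S`, removing the maximum `m ≥ #S + 1`: `1 - 1/m ≥ #S / (#S + 1)`.
* `totient_lower`: `φ(n) = n ∏ (1 - 1/p)` (`Nat.totient_eq_mul_prod_factors`), `ω(n) ≤ log₂ n`
  (`2 ^ ω ≤ ∏ p ≤ n`).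
* `euler_exp`: for `n = 2` trivial (`v_p = 1`), so let `n ≥ 3`. `Φ_n(p) ≥ (p - 1) ^ φ(n) ≥ 2 ^ φ(n)`
  (Mathlib: `Polynomial.sub_one_pow_totient_lt_cyclotomic_eval` or a sibling in
  `Mathlib/RingTheory/Polynomial/Cyclotomic/Eval.lean`), `Φ_n(p) ∣ G n p`
  (`∏_{d ∣ n, d ≠ 1} Φ_d = 1 + X + ... + X ^ (n-1)`,
  `Polynomial.prod_cyclotomic_eq_geom_sum`). Let `r` be a prime divisor of `Φ_n(p)`. If `r ∤ n` then
  `r ≡ 1 mod n` (`ZMod.isRoot_cyclotomic_iff` / `orderOf_root_cyclotomic_dvd` or: the order of `p`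
  mod `r` is `n`). `r ≠ p` (`not_dvd_s`), and either `r = 2`, `v_2(s_p) ≤ 1`, or `r ∈ N.primeFactors`
  (`head_mem`) and `v_r(s_p) ≤ v_r(N) ≤ B` (`sum_fac_odd`), `r ≤ P`. So
  `Φ_n(p) ≤ ∏_{r ∣ n} r ^ (B + 1) * ∏_{r ≤ P, r ≡ 1 (n)} P ^ (B + 1) ≤ n ^ (B+1) * P ^ ((B+1) P / n)`
  (there are at most `P / n` integers `2 ≤ r ≤ P`, `r ≡ 1 mod n`). Hence
  `φ(n) log 2 ≤ (B + 1) log n + (B + 1) (P / n) log P`, and if `n > P` the last term is absent.
  With `totient_lower`: if `n > P` then `n` is bounded in terms of `B`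
  (`n log 2 ≤ (B+1) log n (1 + log n / log 2)`, `log n ≤ 8 n ^ (1/8)`-like bounds); if `n ≤ P` then
  `log n ≤ log P`, `1 + log n / log 2 ≤ 3 log P` and
  `n² log 2 ≤ 3 (B + 1) (log P)² (n + P)`, so `n ≤ C_B √P log P` (`n² ≤ a n + a P` gives
  `n ≤ a + √(a P)`, `a = C (log P)²`, `(log P)² ≤ 16 √P`, so `a ≤ 4 √a P^(1/4)...`:
  `a ≤ C' √P log P` since `log P ≤ 2 √P`).
-/

set_option autoImplicit false

namespace Pool.Agent.BE

open Finset Nat

theorem prod_one_sub (S : Finset ℕ) (hS : ∀ p ∈ S, 2 ≤ p) :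
    1 / ((#S : ℝ) + 1) ≤ ∏ p ∈ S, (1 - 1 / (p : ℝ)) := by
  induction S using Finset.induction_on_max with
  | empty => simp
  | insert a s hmax ih =>
    have hna : a ∉ s := fun h => lt_irrefl _ (hmax a h)
    have hcard : #s + 2 ≤ a := by
      have hsub : s ⊆ Finset.Ico 2 a := by
        intro x hx
        rw [Finset.mem_Ico]
        exact ⟨hS x (Finset.mem_insert_of_mem hx), hmax x hx⟩
      have h1 := Finset.card_le_card hsub
      rw [Nat.card_Ico] at h1
      have h2 := hS a (Finset.mem_insert_self a s)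
      omega
    have ih' := ih (fun p hp => hS p (Finset.mem_insert_of_mem hp))
    rw [Finset.prod_insert hna, Finset.card_insert_of_notMem hna]
    have hc : ((#s : ℝ) + 2) ≤ (a : ℝ) := by exact_mod_cast hcard
    have hs0 : (0 : ℝ) ≤ (#s : ℝ) := Nat.cast_nonneg _
    have h3 : ((#s : ℝ) + 1) / ((#s : ℝ) + 2) ≤ 1 - 1 / (a : ℝ) := by
      have h4 : 1 / (a : ℝ) ≤ 1 / ((#s : ℝ) + 2) :=
        one_div_le_one_div_of_le (by linarith) hc
      have h5 : ((#s : ℝ) + 1) / ((#s : ℝ) + 2) = 1 - 1 / ((#s : ℝ) + 2) := by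
        field_simp
        ring
      rw [h5]
      linarith
    have h6 : (0 : ℝ) ≤ 1 / ((#s : ℝ) + 1) := by positivity
    have h7 : (0 : ℝ) ≤ ((#s : ℝ) + 1) / ((#s : ℝ) + 2) := by positivity
    calc 1 / (((#s + 1 : ℕ) : ℝ) + 1)
        = ((#s : ℝ) + 1) / ((#s : ℝ) + 2) * (1 / ((#s : ℝ) + 1)) := by
          push_cast
          field_simp
          ring
      _ ≤ (1 - 1 / (a : ℝ)) * ∏ p ∈ s, (1 - 1 / (p : ℝ)) := mul_le_mul h3 ih' h6 (h7.trans h3)

theorem totient_lower {n : ℕ} (hn : 1 ≤ n) :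
    (n : ℝ) ≤ (1 + Real.log n / Real.log 2) * (Nat.totient n : ℝ) := by
  have hn0 : n ≠ 0 := by omega
  have h1 : (Nat.totient n : ℝ) = n * ∏ p ∈ n.primeFactors, (1 - 1 / (p : ℝ)) := by
    have h := Nat.totient_eq_mul_prod_factors n
    have h' : ((Nat.totient n : ℚ) : ℝ) =
        ((n * ∏ p ∈ n.primeFactors, (1 - (p : ℚ)⁻¹) : ℚ) : ℝ) := by rw [h]
    push_cast at h'
    rw [h']
    simp only [one_div]
  have h2 := prod_one_sub n.primeFactors (fun p hp => (Nat.prime_of_mem_primeFactors hp).two_le)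
  have hlog2 : 0 < Real.log 2 := Real.log_pos (by norm_num)
  have h3 : (#n.primeFactors : ℝ) ≤ Real.log n / Real.log 2 := by
    rw [le_div_iff₀ hlog2]
    have h4 : (2 : ℕ) ^ #n.primeFactors ≤ n := by
      calc (2 : ℕ) ^ #n.primeFactors ≤ ∏ p ∈ n.primeFactors, p :=
            Finset.pow_card_le_prod _ _ _
              (fun p hp => (Nat.prime_of_mem_primeFactors hp).two_le)
        _ ≤ n := Nat.le_of_dvd (by omega) (Nat.prod_primeFactors_dvd n)
    have h5 : (2 : ℝ) ^ #n.primeFactors ≤ (n : ℝ) := by exact_mod_cast h4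
    have h6 := Real.log_le_log (by positivity) h5
    rwa [Real.log_pow] at h6
  have hφ : (0 : ℝ) ≤ (Nat.totient n : ℝ) := Nat.cast_nonneg _
  have hcp : (0 : ℝ) < (#n.primeFactors : ℝ) + 1 := by positivity
  have h7 : (n : ℝ) ≤ ((#n.primeFactors : ℝ) + 1) * (Nat.totient n : ℝ) := by
    rw [h1]
    have hnn : (0 : ℝ) ≤ (n : ℝ) := Nat.cast_nonneg _
    have h8 : 1 ≤ ((#n.primeFactors : ℝ) + 1) * ∏ p ∈ n.primeFactors, (1 - 1 / (p : ℝ)) := by
      rw [div_le_iff₀ hcp] at h2
      linarith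
    nlinarith
  calc (n : ℝ) ≤ ((#n.primeFactors : ℝ) + 1) * (Nat.totient n : ℝ) := h7
    _ ≤ (1 + Real.log n / Real.log 2) * (Nat.totient n : ℝ) := by
        apply mul_le_mul_of_nonneg_right _ hφ
        linarith

/-- the number of integers `2 ≤ r ≤ P`, `r ≡ 1 mod n` -/
theorem card_mod_one (T : Finset ℕ) {n P : ℕ} (hn : 1 ≤ n)
    (hT : ∀ r ∈ T, 2 ≤ r ∧ r ≤ P ∧ n ∣ r - 1) : #T ≤ P / n := by
  have h1 : #T ≤ #(Finset.Icc 1 (P / n)) := by
    apply Finset.card_le_card_of_injOn (fun r => (r - 1) / n)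
    · intro r hr
      obtain ⟨h2, h3, k, hk⟩ := hT r hr
      have hn' : 0 < n := hn
      have hk' : (r - 1) / n = k := by
        rw [hk]
        exact Nat.mul_div_cancel_left k hn'
      simp only [Finset.coe_Icc, Set.mem_Icc, hk']
      constructor
      · rcases Nat.eq_zero_or_pos k with h | h
        · subst h
          omega
        · exact h
      · rw [Nat.le_div_iff_mul_le hn']
        rw [mul_comm] at hk
        omega
    · intro r hr r' hr' h
      obtain ⟨h2, h3, k, hk⟩ := hT r hr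
      obtain ⟨h2', h3', k', hk'⟩ := hT r' hr'
      have hn' : 0 < n := hn
      simp only [hk, hk', Nat.mul_div_cancel_left _ hn'] at h
      subst h
      omega
  rwa [Nat.card_Icc, Nat.add_sub_cancel] at h1

open Polynomial in
/-- a prime divisor of `Φ_n(p)` divides `n` or is `1` modulo `n` -/
theorem prime_dvd_cyc {n p r : ℕ} (hn : 1 ≤ n) (hr : r.Prime)
    (h : r ∣ ((cyclotomic n ℤ).eval (p : ℤ)).natAbs) : r ∣ n ∨ n ∣ r - 1 := by
  by_cases hrn : r ∣ n
  · exact Or.inl hrn
  right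
  have hprime : Fact r.Prime := ⟨hr⟩
  have hroot : IsRoot (cyclotomic n (ZMod r)) (castRingHom (ZMod r) p) := by
    have : ((p : ℤ) : ZMod r) = ↑(Int.castRingHom (ZMod r) p) := by simp
    rw [IsRoot.def, ← map_cyclotomic_int n (ZMod r), eval_map, coe_castRingHom,
      ← Int.cast_natCast, this, eval₂_hom, Int.coe_castRingHom, ZMod.intCast_zmod_eq_zero_iff_dvd]
    apply Int.dvd_natAbs.1
    exact mod_cast h
  have hpb : ¬ r ∣ p :=
    hprime.1.coprime_iff_not_dvd.1 (coprime_of_root_cyclotomic hn hroot).symm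
  have hdiv : orderOf (p : ZMod r) ∣ r - 1 :=
    ZMod.orderOf_dvd_card_sub_one (mt (CharP.cast_eq_zero_iff _ _ _).1 hpb)
  have : NeZero (n : ZMod r) := NeZero.of_not_dvd (ZMod r) hrn
  have : n = orderOf (p : ZMod r) := (isRoot_cyclotomic_iff.mp hroot).eq_orderOf
  rwa [← this] at hdiv

open Polynomial in
theorem cyc_dvd_G {n p : ℕ} (hn : 2 ≤ n) :
    ((cyclotomic n ℤ).eval (p : ℤ)).natAbs ∣ G n p := by
  have h1 : cyclotomic n ℤ ∣ ∑ i ∈ Finset.range n, (X : ℤ[X]) ^ i :=
    cyclotomic_dvd_geom_sum_of_dvd ℤ (dvd_refl n) (by omega)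
  have h2 := eval_dvd (x := (p : ℤ)) h1
  have h3 : (∑ i ∈ Finset.range n, (X : ℤ[X]) ^ i).eval (p : ℤ) = ((G n p : ℕ) : ℤ) := by
    rw [eval_finsetSum, G]
    push_cast
    exact Finset.sum_congr rfl fun i _ => by simp
  rw [h3] at h2
  have h4 := Int.natAbs_dvd_natAbs.2 h2
  rwa [Int.natAbs_natCast] at h4

/-- the bound for `Φ_n(p)` -/
theorem phi_bound {N P p B : ℕ} (ho : Odd N) (hN : N.Perfect) (hp : p ∈ N.primeFactors)
    (hP : ∀ q ∈ N.primeFactors, q ≤ P)
    (hB : ∀ q ∈ N.primeFactors, q ≠ p → N.factorization q ≤ B) :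
    (Nat.totient (N.factorization p + 1) : ℝ) * Real.log 2 ≤
      ((B : ℝ) + 1) * Real.log ((N.factorization p + 1 : ℕ) : ℝ) +
        ((B : ℝ) + 1) * ((P / (N.factorization p + 1) : ℕ) : ℝ) * Real.log P := by
  set n := N.factorization p + 1 with hn
  have hn2 : 2 ≤ n := by
    have := fac_pos hp
    omega
  have hp3 : 3 ≤ p := two_lt ho hp
  have hP3 : 3 ≤ P := hp3.trans (hP p hp)
  set M := ((Polynomial.cyclotomic n ℤ).eval (p : ℤ)).natAbs with hM
  have hMlow : 2 ^ Nat.totient n ≤ M := by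
    have h1 := Polynomial.sub_one_pow_totient_lt_natAbs_cyclotomic_eval (n := n) (q := p)
      (by omega) (by omega)
    have h2 : 2 ^ Nat.totient n ≤ (p - 1) ^ Nat.totient n := Nat.pow_le_pow_left (by omega) _
    exact h2.trans h1.le
  have hMpos : 0 < M := lt_of_lt_of_le (by positivity) hMlow
  have hMd : M ∣ s N p := by
    rw [s, ← hn]
    exact cyc_dvd_G hn2
  have hfac : ∀ r ∈ M.primeFactors, M.factorization r ≤ B + 1 ∧ r ≤ P ∧ 2 ≤ r ∧
      (r ∣ n ∨ n ∣ r - 1) := by
    intro r hr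
    have hrp := Nat.prime_of_mem_primeFactors hr
    have hrM := Nat.dvd_of_mem_primeFactors hr
    have hle : M.factorization r ≤ (s N p).factorization r :=
      (Nat.factorization_le_iff_dvd hMpos.ne' (s_pos N p).ne').2 hMd r
    refine ⟨?_, ?_, hrp.two_le, prime_dvd_cyc (by omega) hrp hrM⟩
    · by_cases hr2 : r = 2
      · have h1 : (s N p).factorization r ≤ ∑ q ∈ N.primeFactors, (s N q).factorization r :=
          Finset.single_le_sum (f := fun q => (s N q).factorization r)
            (fun _ _ => Nat.zero_le _) hp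
        have h2 := sum_fac_two ho hN
        rw [hr2] at h1 hle ⊢
        omega
      · have hrN : r ∈ N.primeFactors := head_mem hN hp hrp (hrM.trans hMd) hr2
        have hrp' : r ≠ p := by
          rintro rfl
          exact not_dvd_s (N := N) hrp (hrM.trans hMd)
        have h1 : (s N p).factorization r ≤ ∑ q ∈ N.primeFactors, (s N q).factorization r :=
          Finset.single_le_sum (f := fun q => (s N q).factorization r)
            (fun _ _ => Nat.zero_le _) hp
        rw [sum_fac_odd ho hN hr2] at h1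
        have h2 := hB r hrN hrp'
        omega
    · by_cases hr2 : r = 2
      · omega
      · exact hP r (head_mem hN hp hrp (hrM.trans hMd) hr2)
  -- the upper bound for `M`
  have hMup : M ≤ n ^ (B + 1) * (P ^ (P / n)) ^ (B + 1) := by
    have h1 : M = ∏ r ∈ M.primeFactors, r ^ M.factorization r := by
      conv_lhs => rw [← Nat.prod_factorization_pow_eq_self hMpos.ne']
      rfl
    have h2 : M ≤ ∏ r ∈ M.primeFactors, r ^ (B + 1) := by
      conv_lhs => rw [h1]
      apply Finset.prod_le_prod'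
      intro r hr
      have h := hfac r hr
      exact Nat.pow_le_pow_right (by omega) h.1
    have h3 : ∏ r ∈ M.primeFactors, r ≤ n * P ^ (P / n) := by
      classical
      rw [← Finset.prod_filter_mul_prod_filter_not M.primeFactors (fun r => r ∣ n)]
      apply Nat.mul_le_mul
      · have h4 : M.primeFactors.filter (fun r => r ∣ n) ⊆ n.primeFactors := by
          intro r hr
          rw [Finset.mem_filter] at hr
          exact Nat.mem_primeFactors.2 ⟨Nat.prime_of_mem_primeFactors hr.1, hr.2, by omega⟩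
        calc ∏ r ∈ M.primeFactors.filter (fun r => r ∣ n), r
            ≤ ∏ r ∈ n.primeFactors, r := by
              apply Finset.prod_le_prod_of_subset_of_one_le' h4
              intro r hr _
              exact (Nat.prime_of_mem_primeFactors hr).one_lt.le
          _ ≤ n := Nat.le_of_dvd (by omega) (Nat.prod_primeFactors_dvd n)
      · have h5 : #(M.primeFactors.filter (fun r => ¬ r ∣ n)) ≤ P / n := by
          apply card_mod_one _ (by omega)
          intro r hr
          rw [Finset.mem_filter] at hr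
          have h := hfac r hr.1
          exact ⟨h.2.2.1, h.2.1, h.2.2.2.resolve_left hr.2⟩
        calc ∏ r ∈ M.primeFactors.filter (fun r => ¬ r ∣ n), r
            ≤ P ^ #(M.primeFactors.filter (fun r => ¬ r ∣ n)) := by
              apply Finset.prod_le_pow_card
              intro r hr
              rw [Finset.mem_filter] at hr
              exact (hfac r hr.1).2.1
          _ ≤ P ^ (P / n) := Nat.pow_le_pow_right (by omega) h5
    calc M ≤ ∏ r ∈ M.primeFactors, r ^ (B + 1) := h2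
      _ = (∏ r ∈ M.primeFactors, r) ^ (B + 1) := Finset.prod_pow _ _ _
      _ ≤ (n * P ^ (P / n)) ^ (B + 1) := Nat.pow_le_pow_left h3 _
      _ = n ^ (B + 1) * (P ^ (P / n)) ^ (B + 1) := by rw [mul_pow]
  have hfin : (2 : ℝ) ^ Nat.totient n ≤ (n : ℝ) ^ (B + 1) * ((P : ℝ) ^ (P / n)) ^ (B + 1) := by
    exact_mod_cast hMlow.trans hMup
  have hnpos : (0 : ℝ) < (n : ℝ) := by positivity
  have hPpos : (0 : ℝ) < (P : ℝ) := by
    have : 0 < P := by omega
    exact_mod_cast this
  have hlog := Real.log_le_log (by positivity) hfin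
  rw [Real.log_mul (by positivity) (by positivity), Real.log_pow, Real.log_pow, Real.log_pow,
    Real.log_pow] at hlog
  push_cast at hlog ⊢
  linarith

theorem euler_exp : EulerExp := by
  intro B
  refine ⟨9216 * ((B : ℝ) + 1) ^ 2, by positivity, ?_⟩
  intro N P p ho hN hp hP hB
  have hmain := phi_bound ho hN hp hP hB
  set n := N.factorization p + 1 with hn
  have hn2 : 2 ≤ n := by
    have := fac_pos hp
    omega
  have hp3 : 3 ≤ p := two_lt ho hp
  have hP3 : 3 ≤ P := hp3.trans (hP p hp)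
  have hP3' : (3 : ℝ) ≤ (P : ℝ) := by exact_mod_cast hP3
  have hB1 : (1 : ℝ) ≤ (B : ℝ) + 1 := by
    have : (0 : ℝ) ≤ (B : ℝ) := Nat.cast_nonneg _
    linarith
  have hlog3 : (1 : ℝ) ≤ Real.log 3 := by
    rw [Real.le_log_iff_exp_le (by norm_num)]
    exact Real.exp_one_lt_d9.le.trans (by norm_num)
  have hlogP : (1 : ℝ) ≤ Real.log P :=
    hlog3.trans (Real.log_le_log (by norm_num) hP3')
  have hsqP : (1 : ℝ) ≤ Real.sqrt P := by
    rw [Real.one_le_sqrt]
    linarith
  have hnr : (N.factorization p : ℝ) = (n : ℝ) - 1 := by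
    rw [hn]
    push_cast
    ring
  have hprod1 : 1 ≤ Real.sqrt P * Real.log P := one_le_mul_of_one_le_of_one_le hsqP hlogP
  have hBsq : (1 : ℝ) ≤ ((B : ℝ) + 1) ^ 2 := one_le_pow₀ hB1
  rcases Nat.lt_or_ge n 3 with hlt | hn3
  · -- `n = 2`
    have hn2' : n = 2 := by omega
    rw [hnr, hn2']
    have : (1 : ℝ) ≤ 9216 * ((B : ℝ) + 1) ^ 2 * Real.sqrt P * Real.log P := by
      rw [mul_assoc]
      apply one_le_mul_of_one_le_of_one_le _ hprod1
      linarith
    push_cast
    linarith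
  · have hn3' : (3 : ℝ) ≤ (n : ℝ) := by exact_mod_cast hn3
    have hlogn : (1 : ℝ) ≤ Real.log n := hlog3.trans (Real.log_le_log (by norm_num) hn3')
    have htot := totient_lower (n := n) (by omega)
    have hlog2 : (1 / 2 : ℝ) ≤ Real.log 2 := by
      have := Real.log_two_gt_d9
      linarith
    have hlog2pos : 0 < Real.log 2 := by linarith
    have hA : 1 + Real.log n / Real.log 2 ≤ 3 * Real.log n := by
      have : Real.log n / Real.log 2 ≤ 2 * Real.log n := by
        rw [div_le_iff₀ hlog2pos]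
        nlinarith
      linarith
    have hφ : (0 : ℝ) ≤ (Nat.totient n : ℝ) := Nat.cast_nonneg _
    have hkey : (n : ℝ) ≤ 6 * ((B : ℝ) + 1) * Real.log n *
        (Real.log n + ((P / n : ℕ) : ℝ) * Real.log P) := by
      have h1 : (n : ℝ) ≤ 3 * Real.log n * (Nat.totient n : ℝ) :=
        htot.trans (mul_le_mul_of_nonneg_right hA hφ)
      have h2 : (Nat.totient n : ℝ) ≤ 2 * ((Nat.totient n : ℝ) * Real.log 2) := by
        nlinarith
      have h3 : (0 : ℝ) ≤ 3 * Real.log n := by linarith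
      calc (n : ℝ) ≤ 3 * Real.log n * (Nat.totient n : ℝ) := h1
        _ ≤ 3 * Real.log n * (2 * ((Nat.totient n : ℝ) * Real.log 2)) :=
            mul_le_mul_of_nonneg_left h2 h3
        _ ≤ 3 * Real.log n * (2 * (((B : ℝ) + 1) * Real.log n +
              ((B : ℝ) + 1) * ((P / n : ℕ) : ℝ) * Real.log P)) := by
            apply mul_le_mul_of_nonneg_left _ h3
            linarith
        _ = _ := by ring
    rcases Nat.lt_or_ge P n with hPn | hnP
    · -- `n > P`
      have hdiv : P / n = 0 := Nat.div_eq_of_lt hPn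
      rw [hdiv] at hkey
      have hlog4 : Real.log n ≤ 4 * Real.sqrt (Real.sqrt n) := by
        have h1 : Real.log (Real.sqrt (Real.sqrt n)) = Real.log n / 4 := by
          rw [Real.log_sqrt (Real.sqrt_nonneg _), Real.log_sqrt (by linarith)]
          ring
        have hpos : 0 < Real.sqrt (Real.sqrt n) :=
          Real.sqrt_pos.2 (Real.sqrt_pos.2 (by linarith))
        have h2 := Real.log_le_sub_one_of_pos hpos
        rw [h1] at h2
        linarith
      have hsq : (Real.sqrt (Real.sqrt n)) ^ 2 = Real.sqrt n := Real.sq_sqrt (Real.sqrt_nonneg _)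
      have hsq2 : (Real.sqrt n) ^ 2 = n := Real.sq_sqrt (by linarith)
      have hlog5 : Real.log n * Real.log n ≤ 16 * Real.sqrt n := by
        calc Real.log n * Real.log n
            ≤ (4 * Real.sqrt (Real.sqrt n)) * (4 * Real.sqrt (Real.sqrt n)) :=
              mul_le_mul hlog4 hlog4 (by linarith) (by positivity)
          _ = 16 * (Real.sqrt (Real.sqrt n)) ^ 2 := by ring
          _ = 16 * Real.sqrt n := by rw [hsq]
      have h6 : (n : ℝ) ≤ 96 * ((B : ℝ) + 1) * Real.sqrt n := by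
        calc (n : ℝ) ≤ 6 * ((B : ℝ) + 1) * (Real.log n * Real.log n) := by
              have := hkey
              push_cast at this
              linarith
          _ ≤ 6 * ((B : ℝ) + 1) * (16 * Real.sqrt n) :=
              mul_le_mul_of_nonneg_left hlog5 (by positivity)
          _ = _ := by ring
      have hspos : 0 < Real.sqrt n := Real.sqrt_pos.2 (by linarith)
      have h7 : Real.sqrt n ≤ 96 * ((B : ℝ) + 1) := by
        have h8 : Real.sqrt n * Real.sqrt n ≤ 96 * ((B : ℝ) + 1) * Real.sqrt n := by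
          rw [← pow_two, hsq2]
          exact h6
        exact le_of_mul_le_mul_right h8 hspos
      have h9 : (n : ℝ) ≤ 9216 * ((B : ℝ) + 1) ^ 2 := by
        calc (n : ℝ) = (Real.sqrt n) ^ 2 := hsq2.symm
          _ ≤ (96 * ((B : ℝ) + 1)) ^ 2 := pow_le_pow_left₀ hspos.le h7 2
          _ = _ := by ring
      rw [hnr]
      calc (n : ℝ) - 1 ≤ 9216 * ((B : ℝ) + 1) ^ 2 := by linarith
        _ = 9216 * ((B : ℝ) + 1) ^ 2 * 1 := by ring
        _ ≤ 9216 * ((B : ℝ) + 1) ^ 2 * (Real.sqrt P * Real.log P) :=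
            mul_le_mul_of_nonneg_left hprod1 (by positivity)
        _ = _ := by ring
    · -- `n ≤ P`
      have hnP' : (n : ℝ) ≤ (P : ℝ) := by exact_mod_cast hnP
      have hnpos : (0 : ℝ) < (n : ℝ) := by linarith
      have hlognP : Real.log n ≤ Real.log P := Real.log_le_log hnpos hnP'
      have hdivle : ((P / n : ℕ) : ℝ) ≤ (P : ℝ) / n := Nat.cast_div_le
      have h1 : (n : ℝ) ≤ 6 * ((B : ℝ) + 1) * Real.log P *
          (Real.log P + (P : ℝ) / n * Real.log P) := by
        refine hkey.trans ?_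
        have ha : (0 : ℝ) ≤ ((P / n : ℕ) : ℝ) := Nat.cast_nonneg _
        apply mul_le_mul
        · exact mul_le_mul_of_nonneg_left hlognP (by positivity)
        · have := mul_le_mul_of_nonneg_right hdivle (by linarith : (0 : ℝ) ≤ Real.log P)
          linarith
        · have := mul_nonneg ha (by linarith : (0 : ℝ) ≤ Real.log P)
          linarith
        · positivity
      have h2 : (n : ℝ) ^ 2 ≤ 12 * ((B : ℝ) + 1) * P * (Real.log P) ^ 2 := by
        have h3 := mul_le_mul_of_nonneg_right h1 hnpos.le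
        have h4 : 6 * ((B : ℝ) + 1) * Real.log P * (Real.log P + (P : ℝ) / n * Real.log P) * n =
            6 * ((B : ℝ) + 1) * (Real.log P) ^ 2 * (n + P) := by
          field_simp
        rw [h4] at h3
        have h5 : 6 * ((B : ℝ) + 1) * (Real.log P) ^ 2 * (n + P) ≤
            6 * ((B : ℝ) + 1) * (Real.log P) ^ 2 * (P + P) :=
          mul_le_mul_of_nonneg_left (by linarith) (by positivity)
        calc (n : ℝ) ^ 2 = n * n := by ring
          _ ≤ _ := h3
          _ ≤ _ := h5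
          _ = _ := by ring
      have hsqPP : (Real.sqrt P) ^ 2 = P := Real.sq_sqrt (by linarith)
      have h6 : (n : ℝ) ^ 2 ≤ (9216 * ((B : ℝ) + 1) ^ 2 * Real.sqrt P * Real.log P) ^ 2 := by
        have h7 : (9216 * ((B : ℝ) + 1) ^ 2 * Real.sqrt P * Real.log P) ^ 2 =
            (9216 * ((B : ℝ) + 1) ^ 2) ^ 2 * (P * (Real.log P) ^ 2) := by
          rw [mul_pow, mul_pow (9216 * ((B : ℝ) + 1) ^ 2) (Real.sqrt P), hsqPP]
          ring
        rw [h7]
        have h8 : 12 * ((B : ℝ) + 1) ≤ (9216 * ((B : ℝ) + 1) ^ 2) ^ 2 := by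
          have ha : (B : ℝ) + 1 ≤ ((B : ℝ) + 1) ^ 2 := by nlinarith
          have hb : (1 : ℝ) ≤ 9216 * ((B : ℝ) + 1) ^ 2 := by linarith
          nlinarith
        have h9 : (0 : ℝ) ≤ P * (Real.log P) ^ 2 := by positivity
        calc (n : ℝ) ^ 2 ≤ 12 * ((B : ℝ) + 1) * P * (Real.log P) ^ 2 := h2
          _ = 12 * ((B : ℝ) + 1) * (P * (Real.log P) ^ 2) := by ring
          _ ≤ _ := mul_le_mul_of_nonneg_right h8 h9
      have h10 : (n : ℝ) ≤ 9216 * ((B : ℝ) + 1) ^ 2 * Real.sqrt P * Real.log P := by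
        apply le_of_sq_le_sq h6
        positivity
      rw [hnr]
      linarith

end Pool.Agent.BE
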