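import Pool.Agent.Lib.MP_f02ea4_nt.BE.Base

/-!
# Counting the short edges
-/

set_option autoImplicit false

namespace Pool.Agent.BE

open Finset Nat

/-- geometric sum at an integer -/
def Gz (n : ℕ) (z : ℤ) : ℤ := ∑ i ∈ range n, z ^ i

theorem Gz_pos {n : ℕ} (hn : Odd n) (z : ℤ) : 0 < Gz n z := by
  unfold Gz
  rcases le_or_gt 0 z with h | h
  · have hn0 : 0 ∈ range n := by
      rw [mem_range]
      exact hn.pos
    have h1 : z ^ 0 ≤ ∑ i ∈ range n, z ^ i :=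
      single_le_sum (f := fun i => z ^ i) (fun i _ => pow_nonneg h i) hn0
    have h2 : z ^ 0 = 1 := pow_zero z
    omega
  · have h1 := mul_geom_sum z n
    have h2 : z ^ n < 0 := hn.pow_neg h
    by_contra hcon
    push Not at hcon
    have h3 : 0 ≤ (z - 1) * ∑ i ∈ range n, z ^ i :=
      mul_nonneg_of_nonpos_of_nonpos (by omega) hcon
    omega

theorem Gz_abs_le (v : ℕ) (z : ℤ) : |Gz (v + 1) z| ≤ (|z| + 1) ^ v := by
  induction v with
  | zero => simp [Gz]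
  | succ v ih =>
    have h1 : Gz (v + 1 + 1) z = Gz (v + 1) z + z ^ (v + 1) := by
      unfold Gz; rw [sum_range_succ]
    have h2 : |z| ^ v ≤ (|z| + 1) ^ v := pow_le_pow_left₀ (abs_nonneg z) (by linarith) v
    have h3 : |Gz (v + 1) z + z ^ (v + 1)| ≤ |Gz (v + 1) z| + |z| ^ (v + 1) := by
      rw [← abs_pow]
      exact abs_add_le _ _
    rw [h1]
    have h4 : |z| ^ (v + 1) ≤ (|z| + 1) ^ v * |z| := by
      rw [pow_succ]
      exact mul_le_mul_of_nonneg_right h2 (abs_nonneg z)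
    calc |Gz (v + 1) z + z ^ (v + 1)| ≤ |Gz (v + 1) z| + |z| ^ (v + 1) := h3
      _ ≤ (|z| + 1) ^ v + (|z| + 1) ^ v * |z| := add_le_add ih h4
      _ = (|z| + 1) ^ (v + 1) := by ring

/-- if `r ∣ G n q` and `q = r - h` then `r ∣ Gz n (-h)` -/
theorem dvd_Gz {n q r : ℕ} {h : ℤ} (hd : r ∣ G n q) (hh : (q : ℤ) = r - h) :
    (r : ℤ) ∣ Gz n (-h) := by
  have h1 : (r : ℤ) ∣ Gz n (q : ℤ) := by
    have : Gz n (q : ℤ) = ((G n q : ℕ) : ℤ) := by
      unfold Gz G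
      push_cast
      rfl
    rw [this]
    exact_mod_cast hd
  have h2 : (r : ℤ) ∣ Gz n (q : ℤ) - Gz n (-h) := by
    unfold Gz
    rw [← sum_sub_distrib]
    refine dvd_sum fun i _ => ?_
    have h3 : (r : ℤ) = (q : ℤ) - (-h) := by rw [hh]; ring
    rw [h3]
    exact sub_dvd_pow_sub_pow _ _ _
  exact (dvd_sub_right h1).1 h2

private theorem Near_card_primes {B k : ℕ} {y w : ℝ} {h : ℤ} (hy : 2 ≤ y) (hw : 1 < w)
    (hwy : w ^ 2 = y) (hk : 2 * k ≤ B) (hh : |(h : ℝ)| ≤ y) (R : Finset ℕ)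
    (hR : ∀ r ∈ R, r.Prime ∧ (r : ℤ) ∣ Gz (2 * k + 1) (-h) ∧ w < r) : #R ≤ 4 * B := by
  set M : ℕ := (Gz (2 * k + 1) (-h)).natAbs with hM
  have hpos := Gz_pos (n := 2 * k + 1) ⟨k, rfl⟩ (-h)
  have hM0 : M ≠ 0 := by
    rw [hM]
    omega
  have hsub : R ⊆ M.primeFactors := by
    intro r hr
    obtain ⟨h1, h2, _⟩ := hR r hr
    refine Nat.mem_primeFactors.2 ⟨h1, ?_, hM0⟩
    exact Int.natCast_dvd.1 h2
  have hdvd : ∏ r ∈ R, r ∣ M :=
    (prod_dvd_prod_of_subset _ _ (fun r => r) hsub).trans (Nat.prod_primeFactors_dvd M)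
  have hle : ∏ r ∈ R, r ≤ M := Nat.le_of_dvd (Nat.pos_of_ne_zero hM0) hdvd
  have hle2 : w ^ #R ≤ ∏ r ∈ R, (r : ℝ) := by
    rw [← prod_const]
    exact prod_le_prod (fun _ _ => by linarith) fun r hr => (hR r hr).2.2.le
  have hMle : (M : ℝ) ≤ (|(h : ℝ)| + 1) ^ (2 * k) := by
    have h1 := Gz_abs_le (2 * k) (-h)
    rw [abs_neg] at h1
    have h2 : ((|Gz (2 * k + 1) (-h)| : ℤ) : ℝ) ≤ (((|h| + 1) ^ (2 * k) : ℤ) : ℝ) := by
      exact_mod_cast h1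
    have h3 : (M : ℝ) = ((|Gz (2 * k + 1) (-h)| : ℤ) : ℝ) := by
      rw [hM, Nat.cast_natAbs]
    rw [h3]
    push_cast at h2 ⊢
    exact h2
  have h4 : (|(h : ℝ)| + 1) ^ (2 * k) ≤ (y + 1) ^ B := by
    calc (|(h : ℝ)| + 1) ^ (2 * k) ≤ (y + 1) ^ (2 * k) :=
          pow_le_pow_left₀ (by positivity) (by linarith) _
      _ ≤ (y + 1) ^ B := pow_le_pow_right₀ (by linarith) hk
  have h5 : (y + 1) ^ B ≤ w ^ (4 * B) := by
    have h6 : w ^ (4 * B) = (y ^ 2) ^ B := by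
      rw [← hwy, ← pow_mul, ← pow_mul]
      congr 1
      ring
    rw [h6]
    exact pow_le_pow_left₀ (by linarith) (by nlinarith) B
  have h7 : w ^ #R ≤ w ^ (4 * B) := by
    have h8 : ((∏ r ∈ R, r : ℕ) : ℝ) ≤ (M : ℝ) := by exact_mod_cast hle
    push_cast at h8
    linarith
  exact (pow_le_pow_iff_right₀ hw).1 h7

/-- the number of `q > √y` with a prime `r ∣ 1 + q + ... + q ^ e`, `q < r < q + H` -/
theorem near_card {B : ℕ} {y H : ℝ} (hy : 2 ≤ y) (hH : 0 ≤ H) (hHy : H ≤ y)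
    (Q : Finset ℕ) (hQ : ∀ q ∈ Q, Real.sqrt y < q ∧
      ∃ e r : ℕ, Even e ∧ 2 ≤ e ∧ e ≤ B ∧ r.Prime ∧ r ∣ G (e + 1) q ∧ q < r ∧
        (r : ℝ) < q + H) :
    (#Q : ℝ) ≤ 2 * (B : ℝ) ^ 2 * H := by
  classical
  set w : ℝ := Real.sqrt y with hwdef
  have hy0 : 0 ≤ y := by linarith
  have hw2 : w ^ 2 = y := Real.sq_sqrt hy0
  have hw1 : 1 < w := by
    rw [hwdef]
    exact Real.lt_sqrt_of_sq_lt (by linarith)
  have hex : ∀ q : ℕ, ∃ er : ℕ × ℕ, q ∈ Q → Even er.1 ∧ 2 ≤ er.1 ∧ er.1 ≤ B ∧ er.2.Prime ∧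
      er.2 ∣ G (er.1 + 1) q ∧ q < er.2 ∧ (er.2 : ℝ) < q + H := by
    intro q
    by_cases hq : q ∈ Q
    · obtain ⟨_, e, r, h1, h2, h3, h4, h5, h6, h7⟩ := hQ q hq
      exact ⟨(e, r), fun _ => ⟨h1, h2, h3, h4, h5, h6, h7⟩⟩
    · exact ⟨(0, 0), fun h => absurd h hq⟩
  choose er her using hex
  set K : ℕ := ⌊H⌋₊ with hK
  have hKle : (K : ℝ) ≤ H := Nat.floor_le hH
  set T : Finset (ℕ × ℕ) := Icc 1 (B / 2) ×ˢ Icc 1 K with hT
  have hmaps : ∀ q ∈ Q, ((er q).1 / 2, (er q).2 - q) ∈ T := by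
    intro q hq
    obtain ⟨h1, h2, h3, h4, h5, h6, h7⟩ := her q hq
    rw [hT, mem_product, mem_Icc, mem_Icc]
    refine ⟨⟨?_, ?_⟩, ?_, ?_⟩
    · simp only
      omega
    · simp only
      exact Nat.div_le_div_right h3
    · simp only
      omega
    · simp only
      apply Nat.le_floor
      rw [Nat.cast_sub h6.le]
      linarith
  have hfib : ∀ b ∈ T, #{q ∈ Q | ((er q).1 / 2, (er q).2 - q) = b} ≤ 4 * B := by
    rintro ⟨k, h⟩ hb
    rw [hT, mem_product, mem_Icc, mem_Icc] at hb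
    simp only at hb
    have hk : 2 * k ≤ B := by omega
    have hhy : |(((h : ℤ)) : ℝ)| ≤ y := by
      have h1 : (h : ℝ) ≤ K := by exact_mod_cast hb.2.2
      have h2 : (0 : ℝ) ≤ h := Nat.cast_nonneg h
      push_cast
      rw [abs_of_nonneg h2]
      linarith
    set S : Finset ℕ := {q ∈ Q | ((er q).1 / 2, (er q).2 - q) = (k, h)} with hS
    have hinj : Set.InjOn (fun q => (er q).2) (S : Set ℕ) := by
      intro q1 hq1 q2 hq2 heq
      simp only [hS, coe_filter, Set.mem_ofPred_eq, Prod.mk.injEq] at hq1 hq2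
      simp only at heq
      have h1 := hq1.2.2
      have h2 := hq2.2.2
      have h3 := (her q1 hq1.1).2.2.2.2.2.1
      have h4 := (her q2 hq2.1).2.2.2.2.2.1
      omega
    rw [← Finset.card_image_of_injOn hinj]
    refine Near_card_primes (k := k) (h := (h : ℤ)) hy hw1 hw2 hk hhy _ ?_
    intro r hr
    rw [mem_image] at hr
    obtain ⟨q, hq, rfl⟩ := hr
    rw [hS, mem_filter, Prod.mk.injEq] at hq
    obtain ⟨hqQ, hk2, hh2⟩ := hq
    obtain ⟨h1, h2, h3, h4, h5, h6, h7⟩ := her q hqQ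
    refine ⟨h4, ?_, ?_⟩
    · have h8 : (er q).1 = 2 * k := by
        obtain ⟨m, hm⟩ := h1
        omega
      rw [h8] at h5
      exact dvd_Gz h5 (by omega)
    · have h8 : (q : ℝ) < ((er q).2 : ℝ) := by exact_mod_cast h6
      exact (hQ q hqQ).1.trans h8
  have hcard := card_le_mul_card_image_of_maps_to hmaps (4 * B) hfib
  have hTcard : #T = (B / 2) * K := by
    rw [hT, card_product, Nat.card_Icc, Nat.card_Icc]
    congr 1
  rw [hTcard] at hcard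
  have h1 : (#Q : ℝ) ≤ ((4 * B * ((B / 2) * K) : ℕ) : ℝ) := by exact_mod_cast hcard
  have h2 : (((B / 2 : ℕ)) : ℝ) ≤ (B : ℝ) / 2 := Nat.cast_div_le
  have hB0 : (0 : ℝ) ≤ B := Nat.cast_nonneg B
  have hK0 : (0 : ℝ) ≤ K := Nat.cast_nonneg K
  calc (#Q : ℝ) ≤ ((4 * B * ((B / 2) * K) : ℕ) : ℝ) := h1
    _ = 4 * B * (((B / 2 : ℕ) : ℝ) * K) := by push_cast; ring
    _ ≤ 4 * B * ((B : ℝ) / 2 * K) := by
        apply mul_le_mul_of_nonneg_left _ (by positivity)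
        exact mul_le_mul_of_nonneg_right h2 hK0
    _ = 2 * (B : ℝ) ^ 2 * K := by ring
    _ ≤ 2 * (B : ℝ) ^ 2 * H := mul_le_mul_of_nonneg_left hKle (by positivity)

end Pool.Agent.BE
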