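import Pool.Agent.Lib.MP_f02ea4_nt.BE.Base

/-!
# The gain of the linear potential
-/

set_option autoImplicit false

namespace Pool.Agent.BE

open Finset Nat

/-- `ρ - 1 - log ρ ≥ (ρ - 1) ^ 2 / (2 ρ)` for `ρ ≥ 1` -/
theorem gain_one {ρ : ℝ} (hρ : 1 ≤ ρ) : (ρ - 1) ^ 2 / (2 * ρ) ≤ ρ - 1 - Real.log ρ := by
  have key : Real.log ρ ≤ (ρ - 1 / ρ) / 2 := by
    have hlog : ∀ t : ℝ, 1 ≤ t → Real.log t ≤ (t - 1 / t) / 2 := by
      intro t ht
      have hmono : MonotoneOn (fun t : ℝ => (t - 1 / t) / 2 - Real.log t) (Set.Ici 1) := by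
        apply monotoneOn_of_deriv_nonneg (convex_Ici 1)
        · apply ContinuousOn.sub
          · apply ContinuousOn.div_const
            apply ContinuousOn.sub continuousOn_id
            apply ContinuousOn.div continuousOn_const continuousOn_id
            intro x hx
            have : (1 : ℝ) ≤ x := hx
            simp only [id]
            positivity
          · apply Real.continuousOn_log.mono
            intro x hx
            have : (1 : ℝ) ≤ x := hx
            simp only [Set.mem_compl_iff, Set.mem_singleton_iff]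
            positivity
        · intro x hx
          rw [interior_Ici] at hx
          have hx1 : (1 : ℝ) < x := hx
          have hx0 : x ≠ 0 := by positivity
          apply DifferentiableAt.differentiableWithinAt
          apply DifferentiableAt.sub
          · apply DifferentiableAt.div_const
            apply DifferentiableAt.sub differentiableAt_id
            exact (differentiableAt_const 1).div differentiableAt_id hx0
          · exact Real.differentiableAt_log hx0
        · intro x hx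
          rw [interior_Ici] at hx
          have hx1 : (1 : ℝ) < x := hx
          have hx0 : x ≠ 0 := by positivity
          have h1 : HasDerivAt (fun t : ℝ => (t - 1 / t) / 2 - Real.log t)
              ((1 - (-(1 : ℝ) / x ^ 2)) / 2 - x⁻¹) x := by
            have h2 : HasDerivAt (fun t : ℝ => 1 / t) (-(1 : ℝ) / x ^ 2) x := by
              have := hasDerivAt_inv hx0
              simpa [one_div, neg_div] using this
            exact (((hasDerivAt_id x).sub h2).div_const 2).sub (Real.hasDerivAt_log hx0)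
          rw [h1.deriv]
          have : (1 - (-(1 : ℝ) / x ^ 2)) / 2 - x⁻¹ = (x - 1) ^ 2 / (2 * x ^ 2) := by
            field_simp
            ring
          rw [this]
          positivity
      have h := hmono (Set.mem_Ici.2 le_rfl) (Set.mem_Ici.2 ht) ht
      simp only [Real.log_one] at h
      norm_num at h
      have e1 : (t - 1 / t) / 2 = (t - t⁻¹) / 2 := by rw [one_div]
      rw [e1]
      linarith
    exact hlog ρ hρ
  have hρ0 : 0 < ρ := by linarith
  have h2 : (ρ - 1) ^ 2 / (2 * ρ) = ρ - 1 - (ρ - 1 / ρ) / 2 := by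
    field_simp
    ring
  rw [h2]
  linarith

/-- the gain of a tail whose heads have product at least `q ^ e` -/
theorem gain_sum {T : Finset ℕ} {v : ℕ → ℕ} {e q j : ℕ} (hq : 1 ≤ q) (hT : ∀ r ∈ T, 1 ≤ r)
    (hk : ∑ r ∈ T, v r = e)
    (hs : (e : ℝ) * Real.log q ≤ ∑ r ∈ T, (v r : ℝ) * Real.log r)
    (hj : j ∈ T) (hvj : 1 ≤ v j) (hqj : q ≤ j) :
    ((j : ℝ) - q) ^ 2 / (2 * j) ≤ ∑ r ∈ T, (v r : ℝ) * r - e * q := by
  have hq0 : (0 : ℝ) < q := by exact_mod_cast hq
  have hj0 : (0 : ℝ) < j := by exact_mod_cast (hT j hj)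
  have hqj' : (q : ℝ) ≤ j := by exact_mod_cast hqj
  have hterm : ∀ r ∈ T, 0 ≤ (v r : ℝ) * ((r : ℝ) / q - 1 - Real.log ((r : ℝ) / q)) := by
    intro r hr
    have hr0 : (0 : ℝ) < r := by exact_mod_cast (hT r hr)
    have h1 := Real.log_le_sub_one_of_pos (show 0 < (r : ℝ) / q by positivity)
    have h2 : 0 ≤ (r : ℝ) / q - 1 - Real.log ((r : ℝ) / q) := by linarith
    positivity
  have h1 : (v j : ℝ) * ((j : ℝ) / q - 1 - Real.log ((j : ℝ) / q)) ≤
      ∑ r ∈ T, (v r : ℝ) * ((r : ℝ) / q - 1 - Real.log ((r : ℝ) / q)) :=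
    single_le_sum (f := fun r : ℕ => (v r : ℝ) * ((r : ℝ) / q - 1 - Real.log ((r : ℝ) / q)))
      hterm hj
  have h2 : (j : ℝ) / q - 1 - Real.log ((j : ℝ) / q) ≤
      (v j : ℝ) * ((j : ℝ) / q - 1 - Real.log ((j : ℝ) / q)) := by
    have h3 : (1 : ℝ) ≤ v j := by exact_mod_cast hvj
    have h4 := Real.log_le_sub_one_of_pos (show 0 < (j : ℝ) / q by positivity)
    nlinarith
  have h3 : ((j : ℝ) / q - 1) ^ 2 / (2 * ((j : ℝ) / q)) ≤
      (j : ℝ) / q - 1 - Real.log ((j : ℝ) / q) :=
    gain_one (by rw [le_div_iff₀ hq0]; linarith)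
  have h4 : ∑ r ∈ T, (v r : ℝ) * ((r : ℝ) / q - 1 - Real.log ((r : ℝ) / q)) =
      (∑ r ∈ T, (v r : ℝ) * r) / q - e -
        (∑ r ∈ T, (v r : ℝ) * Real.log r - e * Real.log q) := by
    have h5 : ∀ r ∈ T, (v r : ℝ) * ((r : ℝ) / q - 1 - Real.log ((r : ℝ) / q)) =
        (v r : ℝ) * r / q - v r - ((v r : ℝ) * Real.log r - v r * Real.log q) := by
      intro r hr
      have hr0 : (0 : ℝ) < r := by exact_mod_cast (hT r hr)
      rw [Real.log_div hr0.ne' hq0.ne']
      ring
    rw [sum_congr rfl h5, sum_sub_distrib, sum_sub_distrib, sum_sub_distrib, ← sum_div, ← sum_mul]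
    have h6 : ∑ r ∈ T, (v r : ℝ) = e := by exact_mod_cast hk
    rw [h6]
  have h5 : ((j : ℝ) / q - 1) ^ 2 / (2 * ((j : ℝ) / q)) ≤ (∑ r ∈ T, (v r : ℝ) * r) / q - e := by
    linarith
  have h6 : ((j : ℝ) - q) ^ 2 / (2 * j) = q * (((j : ℝ) / q - 1) ^ 2 / (2 * ((j : ℝ) / q))) := by
    field_simp
  rw [h6]
  calc q * (((j : ℝ) / q - 1) ^ 2 / (2 * ((j : ℝ) / q)))
      ≤ q * ((∑ r ∈ T, (v r : ℝ) * r) / q - e) := mul_le_mul_of_nonneg_left h5 hq0.le
    _ = _ := by field_simp

end Pool.Agent.BE
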