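import Pool.Agent.Lib.MP_f02ea4_nt.BE.Defs
import Pool.Agent.Lib.MP_f02ea4_nt.BE.Pot
import Pool.Agent.Lib.MP_f02ea4_nt.BE.Near

/-!
# The general inequality
-/

set_option autoImplicit false

namespace Pool.Agent.BE

open Finset Nat

variable {N B : ℕ} {y : ℝ}

/-- the potential -/
noncomputable def ff (B : ℕ) (y : ℝ) (r : ℕ) : ℝ := (B + 1) + min (r : ℝ) y / y

/-- the term of `q` in the weighted identity -/
noncomputable def tt (N B : ℕ) (y : ℝ) (q : ℕ) : ℝ :=
  ∑ r ∈ (s N q).primeFactors, ((s N q).factorization r : ℝ) * ff B y r -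
    (N.factorization q : ℝ) * ff B y q

theorem ff_le (hy : 2 ≤ y) (r : ℕ) : ff B y r ≤ B + 2 := by
  unfold ff
  have h1 : min (r : ℝ) y / y ≤ 1 := by
    rw [div_le_one (by linarith)]
    exact min_le_right _ _
  linarith

theorem ff_nonneg (hy : 2 ≤ y) (r : ℕ) : 0 ≤ ff B y r := by
  unfold ff
  have h1 : 0 ≤ min (r : ℝ) y / y := by
    apply div_nonneg (le_min (Nat.cast_nonneg _) (by linarith)) (by linarith)
  positivity

theorem ff_eq {r : ℕ} (hry : (r : ℝ) ≤ y) : ff B y r = (B + 1) + (r : ℝ) / y := by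
  unfold ff
  rw [min_eq_left hry]

theorem sum_tt (ho : Odd N) (hN : N.Perfect) (hy : 2 ≤ y) :
    ∑ q ∈ N.primeFactors, tt N B y q ≤ B + 2 := by
  unfold tt
  rw [sum_sub_distrib, sum_pot ho hN]
  have := ff_le (B := B) hy 2
  linarith

theorem tt_ge (hy : 2 ≤ y) (q : ℕ) : -(((B : ℝ) + 2) * (N.factorization q : ℝ)) ≤ tt N B y q := by
  unfold tt
  have h1 : 0 ≤ ∑ r ∈ (s N q).primeFactors, ((s N q).factorization r : ℝ) * ff B y r :=
    sum_nonneg fun r _ => mul_nonneg (Nat.cast_nonneg _) (ff_nonneg hy r)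
  have h2 := ff_le (B := B) hy q
  have h3 : (0 : ℝ) ≤ N.factorization q := Nat.cast_nonneg _
  nlinarith

/-- the good tails -/
noncomputable def AA (N B : ℕ) (y : ℝ) : Finset ℕ :=
  N.primeFactors.filter (fun q : ℕ => (q : ℝ) ≤ y ∧ N.factorization q ≤ B ∧
    Even (N.factorization q) ∧ ∀ r ∈ (s N q).primeFactors, (r : ℝ) ≤ y)

/-- the large prime factors -/
noncomputable def TT (N : ℕ) (y : ℝ) : Finset ℕ :=
  N.primeFactors.filter (fun q : ℕ => y < (q : ℝ))

/-- the sum of the exceptional exponents -/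
noncomputable def MM (N B : ℕ) (y : ℝ) : ℕ := ∑ q ∈ LOc N B y, N.factorization q

theorem not_AA {q : ℕ} (hN : N.Perfect) (hy : 2 ≤ y) (hq : q ∈ N.primeFactors)
    (hA : q ∉ AA N B y) : q ∈ LOc N B y ∨ (N.factorization q ≤ B ∧
      ((q ∈ N.primeFactors.filter (fun q => Odd (N.factorization q))) ∨
        q ∈ N.primeFactors.filter (fun q => ∃ r ∈ TT N y, r ∣ s N q))) := by
  classical
  by_cases h1 : (q : ℝ) ≤ y ∧ N.factorization q ≤ B
  · right
    refine ⟨h1.2, ?_⟩
    by_cases h2 : Odd (N.factorization q)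
    · left
      rw [mem_filter]
      exact ⟨hq, h2⟩
    · right
      unfold AA at hA
      rw [mem_filter] at hA
      push Not at hA
      obtain ⟨r, hr, hry⟩ := hA hq h1.1 h1.2 (Nat.not_odd_iff_even.1 h2)
      rw [mem_filter]
      refine ⟨hq, r, ?_, Nat.dvd_of_mem_primeFactors hr⟩
      unfold TT
      rw [mem_filter]
      refine ⟨head_mem hN hq (Nat.prime_of_mem_primeFactors hr)
        (Nat.dvd_of_mem_primeFactors hr) ?_, hry⟩
      rintro rfl
      norm_num at hry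
      linarith
  · left
    unfold LOc
    rw [mem_filter]
    exact ⟨hq, h1⟩

theorem card_TT_tails (ho : Odd N) (hN : N.Perfect) :
    #(N.primeFactors.filter (fun q => ∃ r ∈ TT N y, r ∣ s N q)) ≤ MM N B y := by
  classical
  have hT : ∀ r ∈ TT N y, r ∈ N.primeFactors := fun r hr => by
    unfold TT at hr
    exact (mem_filter.1 hr).1
  refine (card_head_le ho hN (TT N y) fun r hr => ⟨Nat.prime_of_mem_primeFactors (hT r hr), ?_⟩).trans
    ?_
  · have := two_lt ho (hT r hr)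
    omega
  · unfold MM
    refine sum_le_sum_of_subset_of_nonneg ?_ fun _ _ _ => Nat.zero_le _
    intro r hr
    unfold LOc
    rw [mem_filter]
    refine ⟨hT r hr, ?_⟩
    unfold TT at hr
    rw [mem_filter] at hr
    rintro ⟨h, -⟩
    linarith [hr.2]

theorem sum_not_AA (ho : Odd N) (hN : N.Perfect) (hy : 2 ≤ y) :
    ∑ q ∈ N.primeFactors \ AA N B y, N.factorization q ≤ MM N B y + B * (1 + MM N B y) := by
  classical
  set O := N.primeFactors.filter (fun q => Odd (N.factorization q)) with hO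
  set Hd := N.primeFactors.filter (fun q => ∃ r ∈ TT N y, r ∣ s N q) with hHd
  have h1 : ∀ q ∈ N.primeFactors \ AA N B y, N.factorization q ≤
      (if q ∈ LOc N B y then N.factorization q else 0) + ((if q ∈ O then B else 0) +
        (if q ∈ Hd then B else 0)) := by
    intro q hq
    rw [mem_sdiff] at hq
    rcases not_AA hN hy hq.1 hq.2 with h | ⟨hB, h | h⟩
    · rw [if_pos h]; omega
    · rw [if_pos (show q ∈ O from h)]
      omega
    · rw [if_pos (show q ∈ Hd from h)]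
      omega
  refine (sum_le_sum h1).trans ?_
  rw [sum_add_distrib, sum_add_distrib, ← sum_filter, ← sum_filter, ← sum_filter]
  have h2 : ∑ q ∈ (N.primeFactors \ AA N B y).filter (· ∈ LOc N B y), N.factorization q ≤
      MM N B y := by
    unfold MM
    exact sum_le_sum_of_subset_of_nonneg (fun q hq => (mem_filter.1 hq).2)
      fun _ _ _ => Nat.zero_le _
  have h3 : ∑ q ∈ (N.primeFactors \ AA N B y).filter (· ∈ O), B ≤ B * 1 := by
    rw [sum_const, smul_eq_mul, mul_comm]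
    refine Nat.mul_le_mul_left _ ?_
    exact (card_le_card (fun q hq => (mem_filter.1 hq).2)).trans (card_odd_le ho hN)
  have h4 : ∑ q ∈ (N.primeFactors \ AA N B y).filter (· ∈ Hd), B ≤ B * MM N B y := by
    rw [sum_const, smul_eq_mul, mul_comm]
    refine Nat.mul_le_mul_left _ ?_
    exact (card_le_card (fun q hq => (mem_filter.1 hq).2)).trans (card_TT_tails ho hN)
  rw [mul_add]
  omega

theorem card_LO_sdiff (ho : Odd N) (hN : N.Perfect) (hy : 2 ≤ y) :
    #(LO N B y \ AA N B y) ≤ 1 + MM N B y := by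
  classical
  set O := N.primeFactors.filter (fun q => Odd (N.factorization q)) with hO
  set Hd := N.primeFactors.filter (fun q => ∃ r ∈ TT N y, r ∣ s N q) with hHd
  have h1 : LO N B y \ AA N B y ⊆ O ∪ Hd := by
    intro q hq
    rw [mem_sdiff] at hq
    obtain ⟨hq1, hq2⟩ := hq
    unfold LO at hq1
    rw [mem_filter] at hq1
    rw [mem_union]
    rcases not_AA hN hy hq1.1 hq2 with h | ⟨-, h⟩
    · unfold LOc at h
      rw [mem_filter] at h
      exact absurd hq1.2 h.2
    · exact h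
  have h2 := card_le_card h1
  have h3 := card_union_le O Hd
  have h4 : #O ≤ 1 := card_odd_le ho hN
  have h5 : #Hd ≤ MM N B y := card_TT_tails ho hN
  omega

/-- number of prime factors of `s_q` with multiplicity -/
def kk (N q : ℕ) : ℕ := ∑ r ∈ (s N q).primeFactors, (s N q).factorization r

theorem AA_sub : AA N B y ⊆ LO N B y := by
  intro q hq
  unfold AA at hq
  unfold LO
  rw [mem_filter] at hq ⊢
  exact ⟨hq.1, hq.2.1, hq.2.2.1⟩

theorem log_s_eq' (N q : ℕ) : Real.log (s N q) =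
    ∑ r ∈ (s N q).primeFactors, ((s N q).factorization r : ℝ) * Real.log r := by
  have h := Nat.prod_factorization_pow_eq_self (s_pos N q).ne'
  conv_lhs => rw [← h]
  rw [Finsupp.prod, Nat.support_factorization]
  push_cast
  rw [Real.log_prod]
  · refine sum_congr rfl fun r _ => ?_
    rw [Real.log_pow]
  · intro r hr
    have := (Nat.prime_of_mem_primeFactors hr).pos
    positivity

theorem lt_log_s' {N q : ℕ} (hq : q ∈ N.primeFactors) :
    (N.factorization q : ℝ) * Real.log q < Real.log (s N q) := by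
  have h1 : ((q : ℝ)) ^ N.factorization q < ((s N q : ℕ) : ℝ) := by
    exact_mod_cast lt_s hq
  have h2 : (0 : ℝ) < (q : ℝ) := by exact_mod_cast (Nat.prime_of_mem_primeFactors hq).pos
  rw [← Real.log_pow]
  exact Real.log_lt_log (by positivity) h1

/-- a good tail with few heads is small -/
theorem mem_ZZ {q : ℕ} (hy : 2 ≤ y) (hq : q ∈ AA N B y)
    (hk : kk N q < N.factorization q) : q ∈ ZZ N B y := by
  unfold AA at hq
  rw [mem_filter] at hq
  obtain ⟨hqN, hqy, hqB, -, hr⟩ := hq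
  unfold ZZ
  rw [mem_filter]
  refine ⟨hqN, hqB, ?_⟩
  have hq0 : (1 : ℝ) ≤ q := by exact_mod_cast (Nat.prime_of_mem_primeFactors hqN).one_le
  have hly : 0 < Real.log y := Real.log_pos (by linarith)
  have h1 := lt_log_s' hqN
  rw [log_s_eq'] at h1
  have h2 : ∑ r ∈ (s N q).primeFactors, ((s N q).factorization r : ℝ) * Real.log r ≤
      (kk N q : ℝ) * Real.log y := by
    unfold kk
    push_cast
    rw [sum_mul]
    refine sum_le_sum fun r hr' => ?_
    refine mul_le_mul_of_nonneg_left ?_ (Nat.cast_nonneg _)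
    apply Real.log_le_log _ (hr r hr')
    exact_mod_cast (Nat.prime_of_mem_primeFactors hr').pos
  have h3 : (kk N q : ℝ) ≤ ((N.factorization q - 1 : ℕ) : ℝ) := by
    have : kk N q ≤ N.factorization q - 1 := by omega
    exact_mod_cast this
  have h5 : Real.log ((q : ℝ) ^ N.factorization q) ≤ Real.log (y ^ (N.factorization q - 1)) := by
    rw [Real.log_pow, Real.log_pow]
    nlinarith
  exact (Real.log_le_log_iff (by positivity) (by positivity)).1 h5

section good

variable {q : ℕ}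

theorem tt_eq_of_mem (hq : q ∈ AA N B y) :
    tt N B y q = ((B : ℝ) + 1) * ((kk N q : ℝ) - N.factorization q) +
      (∑ r ∈ (s N q).primeFactors, ((s N q).factorization r : ℝ) * r -
        (N.factorization q : ℝ) * q) / y := by
  unfold AA at hq
  rw [mem_filter] at hq
  obtain ⟨hqN, hqy, -, -, hr⟩ := hq
  unfold tt
  rw [ff_eq hqy]
  have h1 : ∑ r ∈ (s N q).primeFactors, ((s N q).factorization r : ℝ) * ff B y r =
      ((B : ℝ) + 1) * (kk N q : ℝ) +
        (∑ r ∈ (s N q).primeFactors, ((s N q).factorization r : ℝ) * r) / y := by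
    have h2 : ∀ r ∈ (s N q).primeFactors, ((s N q).factorization r : ℝ) * ff B y r =
        ((B : ℝ) + 1) * ((s N q).factorization r : ℝ) +
          ((s N q).factorization r : ℝ) * r / y := by
      intro r hr'
      rw [ff_eq (hr r hr')]
      ring
    rw [sum_congr rfl h2, sum_add_distrib, ← mul_sum, ← sum_div]
    unfold kk
    push_cast
    rfl
  rw [h1]
  ring

/-- the term of a source -/
theorem tt_gt (hy : 2 ≤ y) (hq : q ∈ AA N B y) (hk : N.factorization q < kk N q) :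
    1 ≤ tt N B y q := by
  rw [tt_eq_of_mem hq]
  unfold AA at hq
  rw [mem_filter] at hq
  obtain ⟨hqN, hqy, hqB, -, -⟩ := hq
  have hB0 : (0 : ℝ) ≤ B := Nat.cast_nonneg _
  have h1 : (N.factorization q : ℝ) + 1 ≤ kk N q := by exact_mod_cast hk
  have h2 : (0 : ℝ) ≤ ∑ r ∈ (s N q).primeFactors, ((s N q).factorization r : ℝ) * r :=
    sum_nonneg fun r _ => by positivity
  have hv : (N.factorization q : ℝ) ≤ B := by exact_mod_cast hqB
  have hq0 : (0 : ℝ) ≤ q := Nat.cast_nonneg _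
  have h3 : -(B : ℝ) ≤ (∑ r ∈ (s N q).primeFactors, ((s N q).factorization r : ℝ) * r -
        (N.factorization q : ℝ) * q) / y := by
    rw [le_div_iff₀ (by linarith)]
    have : (N.factorization q : ℝ) * q ≤ B * y := mul_le_mul hv hqy hq0 hB0
    linarith
  nlinarith

/-- there is a larger head -/
theorem exists_up (hq : q ∈ N.primeFactors) (hk : kk N q ≤ N.factorization q) :
    ∃ j ∈ (s N q).primeFactors, q < j := by
  by_contra hcon
  push Not at hcon
  have h1 := lt_log_s' hq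
  rw [log_s_eq'] at h1
  have hlq : 0 ≤ Real.log (q : ℝ) := Real.log_natCast_nonneg q
  have h2 : ∑ r ∈ (s N q).primeFactors, ((s N q).factorization r : ℝ) * Real.log r ≤
      (kk N q : ℝ) * Real.log q := by
    unfold kk
    push_cast
    rw [sum_mul]
    refine sum_le_sum fun r hr' => ?_
    refine mul_le_mul_of_nonneg_left ?_ (Nat.cast_nonneg _)
    apply Real.log_le_log
    · exact_mod_cast (Nat.prime_of_mem_primeFactors hr').pos
    · exact_mod_cast hcon r hr'
  have h3 : (kk N q : ℝ) ≤ N.factorization q := by exact_mod_cast hk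
  nlinarith

/-- the term of a tail with the right number of heads -/
theorem tt_up (hy : 2 ≤ y) (hq : q ∈ AA N B y) (hk : kk N q = N.factorization q) {j : ℕ}
    (hj : j ∈ (s N q).primeFactors) (hqj : q < j) :
    ((j : ℝ) - q) ^ 2 / (2 * y ^ 2) ≤ tt N B y q := by
  rw [tt_eq_of_mem hq]
  unfold AA at hq
  rw [mem_filter] at hq
  obtain ⟨hqN, hqy, hqB, -, hr⟩ := hq
  have h1 : (N.factorization q : ℝ) * Real.log q ≤
      ∑ r ∈ (s N q).primeFactors, ((s N q).factorization r : ℝ) * Real.log r := by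
    rw [← log_s_eq']
    exact (lt_log_s' hqN).le
  have h2 := gain_sum (Nat.prime_of_mem_primeFactors hqN).one_le
    (fun r hr => (Nat.prime_of_mem_primeFactors hr).one_le) hk h1 hj (fac_pos hj) hqj.le
  rw [hk, sub_self, mul_zero, zero_add, le_div_iff₀ (by linarith)]
  refine le_trans ?_ h2
  have hj0 : (0 : ℝ) < j := by exact_mod_cast (Nat.prime_of_mem_primeFactors hj).pos
  have hjy := hr j hj
  have h3 : ((j : ℝ) - q) ^ 2 / (2 * y ^ 2) * y = ((j : ℝ) - q) ^ 2 / (2 * y) := by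
    field_simp
  rw [h3]
  apply div_le_div_of_nonneg_left (sq_nonneg _) (by linarith)
  linarith

end good

/-- the good tails that are not small -/
noncomputable def A1 (N B : ℕ) (y : ℝ) : Finset ℕ := AA N B y \ ZZ N B y

theorem A1_kk {q : ℕ} (hy : 2 ≤ y) (hq : q ∈ A1 N B y) :
    q ∈ AA N B y ∧ N.factorization q ≤ kk N q := by
  unfold A1 at hq
  rw [mem_sdiff] at hq
  refine ⟨hq.1, ?_⟩
  by_contra hlt
  push Not at hlt
  exact hq.2 (mem_ZZ hy hq.1 hlt)

theorem AA_mem {q : ℕ} (hq : q ∈ AA N B y) : q ∈ N.primeFactors := by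
  unfold AA at hq
  exact (mem_filter.1 hq).1

theorem tt_nonneg {q : ℕ} (hy : 2 ≤ y) (hq : q ∈ A1 N B y) : 0 ≤ tt N B y q := by
  obtain ⟨h1, h2⟩ := A1_kk hy hq
  rcases h2.lt_or_eq with h3 | h3
  · have := tt_gt hy h1 h3
    linarith
  · obtain ⟨j, hj, hqj⟩ := exists_up (AA_mem h1) h3.ge
    refine le_trans ?_ (tt_up hy h1 h3.symm hj hqj)
    positivity

theorem sum_A1_le (ho : Odd N) (hN : N.Perfect) (hB : 1 ≤ B) (hy : 2 ≤ y) :
    ∑ q ∈ A1 N B y, tt N B y q ≤ 6 * (B : ℝ) ^ 2 * (MM N B y + #(ZZ N B y) + 1) := by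
  classical
  have h1 := sum_tt (B := B) ho hN hy
  have hsub : A1 N B y ⊆ N.primeFactors := by
    intro q hq
    unfold A1 at hq
    rw [mem_sdiff] at hq
    exact AA_mem hq.1
  have h2 : ∑ q ∈ A1 N B y, tt N B y q + ∑ q ∈ N.primeFactors \ A1 N B y, tt N B y q =
      ∑ q ∈ N.primeFactors, tt N B y q := by
    rw [add_comm]
    exact sum_sdiff hsub
  have h3 : -(((B : ℝ) + 2) * (∑ q ∈ N.primeFactors \ A1 N B y, (N.factorization q : ℝ))) ≤
      ∑ q ∈ N.primeFactors \ A1 N B y, tt N B y q := by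
    rw [mul_sum, ← sum_neg_distrib]
    exact sum_le_sum fun q _ => tt_ge hy q
  have h4 : ∑ q ∈ N.primeFactors \ A1 N B y, (N.factorization q : ℝ) ≤
      (MM N B y + B * (1 + MM N B y) : ℕ) + B * #(ZZ N B y) := by
    have h5 : ∑ q ∈ N.primeFactors \ A1 N B y, N.factorization q ≤
        ∑ q ∈ N.primeFactors \ AA N B y, N.factorization q +
          ∑ q ∈ ZZ N B y, N.factorization q := by
      have h6 : N.primeFactors \ A1 N B y ⊆ (N.primeFactors \ AA N B y) ∪ ZZ N B y := by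
        intro q hq
        unfold A1 at hq
        simp only [mem_sdiff, mem_union] at hq ⊢
        tauto
      calc ∑ q ∈ N.primeFactors \ A1 N B y, N.factorization q
          ≤ ∑ q ∈ (N.primeFactors \ AA N B y) ∪ ZZ N B y, N.factorization q :=
            sum_le_sum_of_subset_of_nonneg h6 fun _ _ _ => Nat.zero_le _
        _ ≤ _ := by
            rw [← sum_union_inter]
            exact Nat.le_add_right _ _
    have h7 : ∑ q ∈ ZZ N B y, N.factorization q ≤ B * #(ZZ N B y) := by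
      calc ∑ q ∈ ZZ N B y, N.factorization q ≤ ∑ q ∈ ZZ N B y, B := by
            refine sum_le_sum fun q hq => ?_
            unfold ZZ at hq
            exact (mem_filter.1 hq).2.1
        _ = _ := by rw [sum_const, smul_eq_mul, mul_comm]
    have h8 := sum_not_AA (B := B) ho hN hy
    have h9 : ∑ q ∈ N.primeFactors \ A1 N B y, N.factorization q ≤
        (MM N B y + B * (1 + MM N B y)) + B * #(ZZ N B y) := by omega
    exact_mod_cast h9
  have hB' : (1 : ℝ) ≤ B := by exact_mod_cast hB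
  have hM : (0 : ℝ) ≤ MM N B y := Nat.cast_nonneg _
  have hZ : (0 : ℝ) ≤ #(ZZ N B y) := Nat.cast_nonneg _
  push_cast at h4
  have h10 : ∑ q ∈ N.primeFactors \ A1 N B y, (N.factorization q : ℝ) + 1 ≤
      2 * B * (MM N B y + #(ZZ N B y) + 1) := by
    nlinarith [mul_nonneg (by linarith : (0 : ℝ) ≤ (B : ℝ) - 1) hM,
      mul_nonneg (by linarith : (0 : ℝ) ≤ (B : ℝ)) hZ]
  have h11 : ∑ q ∈ A1 N B y, tt N B y q ≤
      ((B : ℝ) + 2) * (2 * B * (MM N B y + #(ZZ N B y) + 1)) := by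
    have h12 : ((B : ℝ) + 2) * (∑ q ∈ N.primeFactors \ A1 N B y, (N.factorization q : ℝ) + 1) ≤
        ((B : ℝ) + 2) * (2 * B * (MM N B y + #(ZZ N B y) + 1)) :=
      mul_le_mul_of_nonneg_left h10 (by linarith)
    linarith
  refine h11.trans ?_
  have h13 : ((B : ℝ) + 2) * (2 * B) ≤ 6 * (B : ℝ) ^ 2 := by nlinarith
  have hQ : (0 : ℝ) ≤ MM N B y + #(ZZ N B y) + 1 := by linarith
  nlinarith

theorem sqrt_lt_of_not_ZZ {q : ℕ} (hy : 2 ≤ y) (hq : q ∈ A1 N B y) :
    Real.sqrt y < q := by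
  unfold A1 AA at hq
  rw [mem_sdiff, mem_filter] at hq
  obtain ⟨⟨hqN, hqy, hqB, hqe, -⟩, hZ⟩ := hq
  by_contra hle
  push Not at hle
  apply hZ
  unfold ZZ
  rw [mem_filter]
  refine ⟨hqN, hqB, ?_⟩
  have hv2 : 2 ≤ N.factorization q := by
    have := fac_pos hqN
    rcases hqe with ⟨m, hm⟩
    omega
  have hs1 : 1 ≤ Real.sqrt y := by
    rw [Real.one_le_sqrt]
    linarith
  calc (q : ℝ) ^ N.factorization q ≤ (Real.sqrt y) ^ N.factorization q :=
        pow_le_pow_left₀ (Nat.cast_nonneg _) hle _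
    _ ≤ (Real.sqrt y) ^ (2 * (N.factorization q - 1)) := pow_le_pow_right₀ hs1 (by omega)
    _ = y ^ (N.factorization q - 1) := by rw [pow_mul, Real.sq_sqrt (by linarith)]

theorem card_A1_le {H : ℝ} (ho : Odd N) (hN : N.Perfect) (hB : 1 ≤ B) (hy : 2 ≤ y)
    (hH : 0 < H) (hHy : H ≤ y) :
    (#(A1 N B y) : ℝ) ≤ 6 * (B : ℝ) ^ 2 * (MM N B y + #(ZZ N B y) + 1) +
      12 * (B : ℝ) ^ 2 * (MM N B y + #(ZZ N B y) + 1) * y ^ 2 / H ^ 2 +
        2 * (B : ℝ) ^ 2 * H := by
  classical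
  have hR := sum_A1_le (B := B) ho hN hB hy
  set R : ℝ := 6 * (B : ℝ) ^ 2 * (MM N B y + #(ZZ N B y) + 1) with hRdef
  have hR0 : 0 ≤ R := by rw [hRdef]; positivity
  set P1 := (A1 N B y).filter (fun q => N.factorization q < kk N q)
  set P2 := (A1 N B y).filter (fun q => kk N q = N.factorization q ∧
    ∃ r ∈ (s N q).primeFactors, (q : ℝ) + H ≤ r)
  set P3 := (A1 N B y).filter (fun q => kk N q = N.factorization q ∧
    ¬ ∃ r ∈ (s N q).primeFactors, (q : ℝ) + H ≤ r)
  have hcov : A1 N B y ⊆ P1 ∪ (P2 ∪ P3) := by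
    intro q hq
    have h1 := (A1_kk hy hq).2
    simp only [P1, P2, P3, mem_union, mem_filter]
    by_cases h2 : N.factorization q < kk N q
    · left; exact ⟨hq, h2⟩
    · right
      have h3 : kk N q = N.factorization q := by omega
      by_cases h4 : ∃ r ∈ (s N q).primeFactors, (q : ℝ) + H ≤ r
      · left; exact ⟨hq, h3, h4⟩
      · right; exact ⟨hq, h3, h4⟩
  have hc1 : (#(A1 N B y) : ℝ) ≤ #P1 + (#P2 + #P3) := by
    have h1 := card_le_card hcov
    have h2 := card_union_le P1 (P2 ∪ P3)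
    have h3 := card_union_le P2 P3
    have h4 : #(A1 N B y) ≤ #P1 + (#P2 + #P3) := by omega
    exact_mod_cast h4
  have hP1 : (#P1 : ℝ) ≤ R := by
    have h1 : ∑ q ∈ P1, (1 : ℝ) ≤ ∑ q ∈ A1 N B y, tt N B y q := by
      calc ∑ q ∈ P1, (1 : ℝ) ≤ ∑ q ∈ P1, tt N B y q := by
            refine sum_le_sum fun q hq => ?_
            have hq' := mem_filter.1 hq
            exact tt_gt hy (A1_kk hy hq'.1).1 hq'.2
        _ ≤ _ := sum_le_sum_of_subset_of_nonneg (filter_subset _ _)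
            fun q hq _ => tt_nonneg hy hq
    rw [sum_const, nsmul_eq_mul, mul_one] at h1
    exact h1.trans hR
  have hP2 : (#P2 : ℝ) ≤ R * (2 * y ^ 2) / H ^ 2 := by
    have h1 : ∑ q ∈ P2, H ^ 2 / (2 * y ^ 2) ≤ ∑ q ∈ A1 N B y, tt N B y q := by
      calc ∑ q ∈ P2, H ^ 2 / (2 * y ^ 2) ≤ ∑ q ∈ P2, tt N B y q := by
            refine sum_le_sum fun q hq => ?_
            have hq' := mem_filter.1 hq
            obtain ⟨j, hj, hqj⟩ := hq'.2.2
            have hlt : q < j := by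
              have : (q : ℝ) < j := by linarith
              exact_mod_cast this
            refine le_trans ?_ (tt_up hy (A1_kk hy hq'.1).1 hq'.2.1 hj hlt)
            apply div_le_div_of_nonneg_right _ (by positivity)
            exact pow_le_pow_left₀ hH.le (by linarith) 2
        _ ≤ _ := sum_le_sum_of_subset_of_nonneg (filter_subset _ _)
            fun q hq _ => tt_nonneg hy hq
    rw [sum_const, nsmul_eq_mul] at h1
    have h2 : (#P2 : ℝ) * (H ^ 2 / (2 * y ^ 2)) ≤ R := h1.trans hR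
    rw [le_div_iff₀ (by positivity)]
    have h3 : (#P2 : ℝ) * H ^ 2 = (#P2 : ℝ) * (H ^ 2 / (2 * y ^ 2)) * (2 * y ^ 2) := by
      field_simp
    rw [h3]
    exact mul_le_mul_of_nonneg_right h2 (by positivity)
  have hP3 : (#P3 : ℝ) ≤ 2 * (B : ℝ) ^ 2 * H := by
    refine near_card hy hH.le hHy P3 fun q hq => ?_
    have hq' := mem_filter.1 hq
    have hA := (A1_kk hy hq'.1).1
    have hqN := AA_mem hA
    have hA' := hA
    unfold AA at hA'
    rw [mem_filter] at hA'
    obtain ⟨-, hqy, hqB, hqe, hr⟩ := hA'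
    have hv1 := fac_pos hqN
    have hv2 : 2 ≤ N.factorization q := by
      rcases hqe with ⟨m, hm⟩
      omega
    obtain ⟨j, hj, hqj⟩ := exists_up hqN hq'.2.1.le
    refine ⟨sqrt_lt_of_not_ZZ hy hq'.1, N.factorization q, j, hqe, hv2, hqB,
      Nat.prime_of_mem_primeFactors hj, Nat.dvd_of_mem_primeFactors hj, hqj, ?_⟩
    by_contra hfar
    push Not at hfar
    exact hq'.2.2 ⟨j, hj, hfar⟩
  have h6 : R * (2 * y ^ 2) / H ^ 2 =
      12 * (B : ℝ) ^ 2 * (MM N B y + #(ZZ N B y) + 1) * y ^ 2 / H ^ 2 := by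
    rw [hRdef]; ring
  linarith

theorem card_LO_le_y (hy : 0 ≤ y) : (#(LO N B y) : ℝ) ≤ y := by
  have h1 : LO N B y ⊆ Icc 1 ⌊y⌋₊ := by
    intro q hq
    unfold LO at hq
    rw [mem_filter] at hq
    rw [mem_Icc]
    exact ⟨(Nat.prime_of_mem_primeFactors hq.1).one_le, Nat.le_floor hq.2.1⟩
  have h2 := card_le_card h1
  rw [Nat.card_Icc] at h2
  calc (#(LO N B y) : ℝ) ≤ (⌊y⌋₊ : ℝ) := by
        have : #(LO N B y) ≤ ⌊y⌋₊ := by omega
        exact_mod_cast this
    _ ≤ y := Nat.floor_le hy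

theorem MM_eq : ((MM N B y : ℕ) : ℝ) = ∑ q ∈ LOc N B y, (N.factorization q : ℝ) := by
  unfold MM
  push_cast
  rfl

/-- the general inequality -/
theorem gen_ineq : GenIneq := by
  classical
  intro N B y ho hN hB hy
  rw [← MM_eq]
  have hW0 : (0 : ℝ) ≤ #(LO N B y) := Nat.cast_nonneg _
  have hWy : (#(LO N B y) : ℝ) ≤ y := card_LO_le_y (by linarith)
  have hM : (0 : ℝ) ≤ MM N B y := Nat.cast_nonneg _
  have hZ : (0 : ℝ) ≤ #(ZZ N B y) := Nat.cast_nonneg _
  have hB' : (1 : ℝ) ≤ B := by exact_mod_cast hB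
  set Q : ℝ := (MM N B y : ℝ) + #(ZZ N B y) + 1 with hQ
  have hQ1 : 1 ≤ Q := by rw [hQ]; linarith
  have hB6 : (1 : ℝ) ≤ (B : ℝ) ^ 6 := one_le_pow₀ hB'
  rcases lt_or_ge y Q with hQy | hQy
  · have h1 : (#(LO N B y) : ℝ) ^ 3 ≤ y ^ 3 := pow_le_pow_left₀ hW0 hWy 3
    have h2 : y ^ 3 ≤ y ^ 2 * Q := by nlinarith [sq_nonneg y]
    have h3 : 0 ≤ y ^ 2 * Q := by positivity
    nlinarith
  set H : ℝ := (Q * y ^ 2) ^ (1 / 3 : ℝ) with hHdef
  have hQy0 : 0 < Q * y ^ 2 := by positivity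
  have hH0 : 0 < H := Real.rpow_pos_of_pos hQy0 _
  have hH3 : H ^ 3 = Q * y ^ 2 := by
    rw [hHdef, ← Real.rpow_natCast, ← Real.rpow_mul hQy0.le]
    norm_num
  have hHy : H ≤ y := by
    have h1 : H ^ 3 ≤ y ^ 3 := by
      rw [hH3]
      nlinarith [sq_nonneg y]
    exact le_of_pow_le_pow_left₀ (by norm_num) (by linarith) h1
  have hQH : Q ≤ H := by
    have h1 : Q ^ 3 ≤ H ^ 3 := by
      rw [hH3]
      have : Q ^ 2 ≤ y ^ 2 := pow_le_pow_left₀ (by linarith) hQy 2
      nlinarith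
    exact le_of_pow_le_pow_left₀ (by norm_num) hH0.le h1
  have h1 := card_A1_le (B := B) ho hN hB hy hH0 hHy
  rw [← hQ] at h1
  have h2 : (#(LO N B y) : ℝ) ≤ Q + #(A1 N B y) := by
    have h3 : LO N B y ⊆ (LO N B y \ AA N B y) ∪ (ZZ N B y ∪ A1 N B y) := by
      intro q hq
      unfold A1
      simp only [mem_union, mem_sdiff]
      tauto
    have h4 := card_le_card h3
    have h5 := card_union_le (LO N B y \ AA N B y) (ZZ N B y ∪ A1 N B y)
    have h6 := card_union_le (ZZ N B y) (A1 N B y)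
    have h7 := card_LO_sdiff (B := B) ho hN hy
    have h8 : #(LO N B y) ≤ (1 + MM N B y) + #(ZZ N B y) + #(A1 N B y) := by omega
    have h9 : (#(LO N B y) : ℝ) ≤ (1 + MM N B y) + #(ZZ N B y) + #(A1 N B y) := by
      exact_mod_cast h8
    rw [hQ]
    linarith
  have h3 : 12 * (B : ℝ) ^ 2 * Q * y ^ 2 / H ^ 2 = 12 * (B : ℝ) ^ 2 * H := by
    rw [mul_assoc (12 * (B : ℝ) ^ 2), ← hH3]
    field_simp
  rw [h3] at h1
  have hB2 : (1 : ℝ) ≤ (B : ℝ) ^ 2 := one_le_pow₀ hB'
  have h4 : (#(LO N B y) : ℝ) ≤ 21 * (B : ℝ) ^ 2 * H := by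
    have h5 : Q ≤ (B : ℝ) ^ 2 * H := by nlinarith
    have h6 : 6 * (B : ℝ) ^ 2 * Q ≤ 6 * (B : ℝ) ^ 2 * H := by gcongr
    linarith
  calc (#(LO N B y) : ℝ) ^ 3 ≤ (21 * (B : ℝ) ^ 2 * H) ^ 3 := pow_le_pow_left₀ hW0 h4 3
    _ = 9261 * (B : ℝ) ^ 6 * H ^ 3 := by ring
    _ = _ := by rw [hH3]; ring

end Pool.Agent.BE
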