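import Pool.Agent.Lib.MP_f02ea4_nt.BE.Base

/-!
# Primes dividing `1 + q + ... + q ^ (n - 1)`
TASK Or. `G n q = ∑ i ∈ range n, q ^ i` (Base.lean).
Proof of `head_order`: in `ZMod r` we have `(q - 1) * G n q = q ^ n - 1` (`mul_geom_sum` /
`geom_sum_mul`), so `q ^ n = 1`. If `q = 1` in `ZMod r` then `G n q = n` there, so `r ∣ n`.
Otherwise the order `o` of `q` in `ZMod r` is `≠ 1`, divides `n` (`orderOf_dvd_of_pow_eq_one`) and
`r - 1` (`ZMod.orderOf_dvd_card_sub_one`, `q ≠ 0` because `q ^ n = 1` and `n ≠ 0`); take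
`l = o.minFac`.
Proof of `dvd_G_of_one`: `q ≡ 1 [MOD l]`, so `q ^ i ≡ 1` and `G n q ≡ n ≡ 0`.
-/

set_option autoImplicit false

namespace Pool.Agent.BE

open Finset Nat

/-- a prime `r` dividing `1 + q + ... + q ^ (n - 1)` divides `n` or is `1` modulo a prime divisor
of `n` -/
theorem head_order {n q r : ℕ} (hn : 0 < n) (hr : r.Prime) (h : r ∣ G n q) :
    r ∣ n ∨ ∃ l, l.Prime ∧ l ∣ n ∧ l ∣ r - 1 := by
  haveI : Fact r.Prime := ⟨hr⟩
  have h0 : (∑ i ∈ range n, (q : ZMod r) ^ i) = 0 := by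
    have := (ZMod.natCast_eq_zero_iff (G n q) r).2 h
    simpa [G] using this
  have h1 : (q : ZMod r) ^ n = 1 := by
    have h2 := geom_sum_mul (q : ZMod r) n
    rw [h0, zero_mul] at h2
    exact (sub_eq_zero.1 h2.symm)
  by_cases hq : (q : ZMod r) = 1
  · left
    rw [hq] at h0
    have h3 : (n : ZMod r) = 0 := by simpa using h0
    exact (ZMod.natCast_eq_zero_iff n r).1 h3
  · right
    have ho : orderOf (q : ZMod r) ≠ 1 := by
      intro h4
      exact hq (orderOf_eq_one_iff.1 h4)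
    have hq0 : (q : ZMod r) ≠ 0 := by
      intro h5
      rw [h5, zero_pow hn.ne'] at h1
      exact zero_ne_one h1
    refine ⟨(orderOf (q : ZMod r)).minFac, Nat.minFac_prime ho, ?_, ?_⟩
    · exact (Nat.minFac_dvd _).trans (orderOf_dvd_of_pow_eq_one h1)
    · exact (Nat.minFac_dvd _).trans (ZMod.orderOf_dvd_card_sub_one hq0)

/-- if `q` is `1` modulo `l` and `l ∣ n` then `l ∣ 1 + q + ... + q ^ (n - 1)` -/
theorem dvd_G_of_one {n q l : ℕ} (hq : 1 ≤ q) (hl : l ∣ q - 1) (hn : l ∣ n) : l ∣ G n q := by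
  have h1 : q ≡ 1 [MOD l] := ((Nat.modEq_iff_dvd' hq).2 hl).symm
  have h2 : ∀ m : ℕ, (∑ i ∈ range m, q ^ i) ≡ m [MOD l] := by
    intro m
    induction m with
    | zero => simp [Nat.ModEq]
    | succ m ih =>
      rw [Finset.sum_range_succ]
      have h3 := h1.pow m
      rw [one_pow] at h3
      exact ih.add h3
  have h4 : G n q ≡ n [MOD l] := by simpa [G] using h2 n
  exact (Nat.modEq_zero_iff_dvd).1 (h4.trans ((Nat.modEq_zero_iff_dvd).2 hn))

end Pool.Agent.BE
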