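import Pool.Agent.Lib.MP_f02ea4_nt.BE.Base

/-!
# The roots of `1 + x + ... + x ^ d` modulo a prime
TASK Ro. `G n q = ∑ i ∈ range n, q ^ i` (Base.lean). Let `p = ∑ i ∈ range (d + 1), X ^ i` in
`(ZMod r)[X]`: monic of degree `d` (`Polynomial.geom_sum_X_monic`-like lemmas exist, or write
`X ^ d + lower`). The map `Rt d r → p.roots`, `x ↦ (x : ZMod r)`, is injective (`x < r`).
* `card_Rt_le`: number of distinct roots `≤ degree = d`.
* `sum_Rt_dvd` (Vieta): if `#(Rt d r) = d` then `p.roots` has card `d` (all distinct and equal to the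
  image of `Rt d r`), so `p` splits and the sum of the roots is minus the coefficient of
  `X ^ (d - 1)`, which is `1` (`Polynomial.sum_roots_eq_nextCoeff_of_monic_of_split` or
  `Polynomial.nextCoeff_multiset_prod...`; or compare the coefficients of
  `p = ∏ (X - x)`). So `∑ x = -1` in `ZMod r`, i.e. `r ∣ ∑ x + 1`.
  (the statement `∑ x ∈ Rt d r, x + 1` parses as `∑ x ∈ Rt d r, (x + 1)`! I write the parentheses
  explicitly: `(∑ x ∈ Rt d r, x) + 1`.)
* `sum_Rt_le`: put `Σ = ∑ x ∈ Rt d r, x`. `Σ ≤ d (r - 1)`, `Σ + 1 = m r`, `m r ≤ d r - d + 1 < d r`,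
  so `m ≤ d - 1`, `Σ + d = m r + d - 1 ≤ (d - 1) (r + 1)`.
* `le_of_card_Rt`: `0` is not a root (`G (d+1) 0 = 1`), `1` is not a root (`G (d+1) 1 = d + 1`), so
  `Rt d r ⊆ Ico 2 r`, `d ≤ r - 2`; (for `d = 0` use that `r ∤ 1` gives nothing: `r ≥ 2` is enough).
* `sum_log_full`: `z0 = (d - 1) (r + 1) / d`; `log z ≤ log z0 + z / z0 - 1` for `z > 0`
  (`Real.log_le_sub_one_of_pos` at `z / z0`), sum over the `d` roots:
  `∑ log (x + 1) ≤ d log z0 + (∑ (x + 1)) / z0 - d ≤ d log z0`. And `d ^ 2 (log r - log z0) ≥ 1`: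
  `r / z0 = d r / ((d - 1) (r + 1)) ≥ (d² + 2 d) / (d² + 2 d - 3)` for `r ≥ d + 2`, and
  `log t ≥ 1 - 1 / t` (`Real.one_sub_inv_le_log_of_pos`) gives
  `log (r / z0) ≥ 3 / (d² + 2 d)`, `d² * 3 / (d² + 2 d) = 3 d / (d + 2) ≥ 3 / 2`.
  (directly: `1 - z0 / r = 1 - (d - 1) (r + 1) / (d r) ≥ 3 / (d² + 2 d)` for `r ≥ d + 2`.)
* `sum_log_roots`: each `x + 1 ≤ r`, so `∑ x ∈ A, log (x + 1) ≤ #A log r ≤ d log r`; if `#A = d` then
  `A = Rt d r` (`Finset.eq_of_subset_of_card_le`) and `sum_log_full` applies.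
-/

set_option autoImplicit false

namespace Pool.Agent.BE

open Finset Nat

/-- the roots of `1 + x + ... + x ^ d` modulo `r` in `[0, r)` -/
def Rt (d r : ℕ) : Finset ℕ := {x ∈ range r | r ∣ G (d + 1) x}

/-- the polynomial `1 + X + ... + X ^ d` -/
private noncomputable def Ro_P (d r : ℕ) : Polynomial (ZMod r) :=
  ∑ i ∈ range (d + 1), Polynomial.X ^ i

private theorem Ro_P_succ (d r : ℕ) (hr : r.Prime) :
    (Ro_P d r).Monic ∧ (Ro_P d r).natDegree = d := by
  have : Fact r.Prime := ⟨hr⟩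
  refine ⟨?_, ?_⟩
  · unfold Ro_P
    exact Polynomial.monic_geom_sum_X (Nat.succ_ne_zero d)
  · apply le_antisymm
    · unfold Ro_P
      refine Polynomial.natDegree_sum_le_of_forall_le _ _ fun i hi => ?_
      rw [Polynomial.natDegree_X_pow]
      have := mem_range.1 hi
      omega
    · apply Polynomial.le_natDegree_of_ne_zero
      unfold Ro_P
      rw [Polynomial.finsetSum_coeff]
      simp only [Polynomial.coeff_X_pow]
      rw [sum_ite_eq, if_pos (by rw [mem_range]; omega)]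
      exact one_ne_zero

private theorem Ro_root {d r : ℕ} (hr : r.Prime) (x : ℕ) (hx : r ∣ G (d + 1) x) :
    (Ro_P d r).IsRoot (x : ZMod r) := by
  have : Fact r.Prime := ⟨hr⟩
  unfold Ro_P
  rw [Polynomial.IsRoot, Polynomial.eval_finsetSum]
  simp only [Polynomial.eval_pow, Polynomial.eval_X]
  have h1 : ((G (d + 1) x : ℕ) : ZMod r) = 0 := (ZMod.natCast_eq_zero_iff _ _).2 hx
  unfold G at h1
  push_cast at h1
  exact h1

private theorem Ro_inj {d r : ℕ} :
    Set.InjOn (fun x : ℕ => (x : ZMod r)) (Rt d r : Set ℕ) := by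
  intro x hx y hy hxy
  simp only [Rt, coe_filter, mem_range, Set.mem_ofPred_eq] at hx hy
  simp only at hxy
  have h1 := (ZMod.natCast_eq_natCast_iff' x y r).1 hxy
  rwa [Nat.mod_eq_of_lt hx.1, Nat.mod_eq_of_lt hy.1] at h1

private theorem Ro_sub {d r : ℕ} [Fact r.Prime] (hr : r.Prime) :
    (Rt d r).image (fun x : ℕ => (x : ZMod r)) ⊆ (Ro_P d r).roots.toFinset := by
  classical
  intro z hz
  rw [mem_image] at hz
  obtain ⟨x, hx, rfl⟩ := hz
  rw [Multiset.mem_toFinset, Polynomial.mem_roots (Ro_P_succ d r hr).1.ne_zero]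
  exact Ro_root hr x (by simpa [Rt] using (mem_filter.1 hx).2)

theorem card_Rt_le {d r : ℕ} (hr : r.Prime) : #(Rt d r) ≤ d := by
  classical
  have : Fact r.Prime := ⟨hr⟩
  rcases Nat.eq_zero_or_pos d with rfl | hd
  · have h0 : Rt 0 r = ∅ := by
      refine filter_eq_empty_iff.2 fun x _ hx => ?_
      have h1 : G (0 + 1) x = 1 := by simp [G]
      rw [h1] at hx
      exact hr.one_lt.ne' (Nat.dvd_one.1 hx)
    rw [h0]
    simp
  · rw [← Finset.card_image_of_injOn (Ro_inj (d := d) (r := r))]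
    calc _ ≤ #(Ro_P d r).roots.toFinset := Finset.card_le_card (Ro_sub hr)
      _ ≤ (Ro_P d r).roots.card := Multiset.toFinset_card_le _
      _ ≤ (Ro_P d r).natDegree := Polynomial.card_roots' _
      _ = d := (Ro_P_succ d r hr).2

/-- Vieta: if there are `d` roots then their sum is `-1` -/
theorem sum_Rt_dvd {d r : ℕ} (hr : r.Prime) (hd : 2 ≤ d) (hc : #(Rt d r) = d) :
    r ∣ (∑ x ∈ Rt d r, x) + 1 := by
  classical
  have : Fact r.Prime := ⟨hr⟩
  obtain ⟨hmon, hdeg⟩ := Ro_P_succ d r hr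
  have hcard : #((Rt d r).image (fun x : ℕ => (x : ZMod r))) = d := by
    rw [Finset.card_image_of_injOn (Ro_inj (d := d) (r := r)), hc]
  have h1 : #(Ro_P d r).roots.toFinset ≤ (Ro_P d r).roots.card := Multiset.toFinset_card_le _
  have h2 : (Ro_P d r).roots.card ≤ d := by
    calc (Ro_P d r).roots.card ≤ (Ro_P d r).natDegree := Polynomial.card_roots' (Ro_P d r)
      _ = d := hdeg
  have h3 : (Rt d r).image (fun x : ℕ => (x : ZMod r)) = (Ro_P d r).roots.toFinset :=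
    Finset.eq_of_subset_of_card_le (Ro_sub hr) (by rw [hcard]; omega)
  have h4 : #(Ro_P d r).roots.toFinset = d := by rw [← h3, hcard]
  have hrc : (Ro_P d r).roots.card = (Ro_P d r).natDegree := by
    rw [hdeg]; omega
  have hnodup : (Ro_P d r).roots.Nodup := by
    rw [← Multiset.toFinset_card_eq_card_iff_nodup]
    omega
  have h5 : (Ro_P d r).roots.sum = ∑ x ∈ Rt d r, (x : ZMod r) := by
    have h6 : (Ro_P d r).roots.sum = ∑ z ∈ (Ro_P d r).roots.toFinset, z := by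
      rw [Finset.sum_eq_multiset_sum, Multiset.toFinset_val, hnodup.dedup, Multiset.map_id']
    rw [h6, ← h3, sum_image fun x hx y hy hxy => Ro_inj hx hy hxy]
  have h7 : (Ro_P d r).nextCoeff = -(Ro_P d r).roots.sum := by
    have h8 := Polynomial.prod_multiset_X_sub_C_of_monic_of_roots_card_eq hmon hrc
    have h9 := Polynomial.multiset_prod_X_sub_C_nextCoeff (Ro_P d r).roots
    rw [h8] at h9
    exact h9
  have h10 : (Ro_P d r).nextCoeff = 1 := by
    rw [Polynomial.nextCoeff_of_natDegree_pos (by omega), hdeg]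
    unfold Ro_P
    rw [Polynomial.finsetSum_coeff]
    simp only [Polynomial.coeff_X_pow]
    rw [sum_ite_eq]
    rw [if_pos (by rw [mem_range]; omega)]
  rw [← ZMod.natCast_eq_zero_iff]
  push_cast
  rw [← h5]
  rw [h10] at h7
  have h11 : (Ro_P d r).roots.sum = -1 := by
    rw [h7, neg_neg]
  rw [h11]
  ring

theorem sum_Rt_le {d r : ℕ} (hr : r.Prime) (hd : 2 ≤ d) (hc : #(Rt d r) = d) :
    ∑ x ∈ Rt d r, (x + 1) ≤ (d - 1) * (r + 1) := by
  obtain ⟨m, hm⟩ := sum_Rt_dvd hr hd hc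
  have h1 : ∑ x ∈ Rt d r, x ≤ ∑ _x ∈ Rt d r, (r - 1) := by
    refine sum_le_sum fun x hx => ?_
    have := mem_range.1 (mem_filter.1 hx).1
    omega
  rw [sum_const, hc, smul_eq_mul] at h1
  have hr2 := hr.two_le
  have h2 : ∑ x ∈ Rt d r, (x + 1) = (∑ x ∈ Rt d r, x) + d := by
    rw [sum_add_distrib, sum_const, hc, smul_eq_mul, mul_one]
  obtain ⟨r', rfl⟩ : ∃ r', r = r' + 1 := ⟨r - 1, by omega⟩
  obtain ⟨d', rfl⟩ : ∃ d', d = d' + 1 := ⟨d - 1, by omega⟩
  simp only [Nat.add_sub_cancel] at h1 ⊢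
  have h3 : m ≤ d' := by
    by_contra hcon
    push Not at hcon
    have h4 : (r' + 1) * (d' + 1) ≤ (r' + 1) * m := Nat.mul_le_mul_left _ hcon
    nlinarith
  have h5 : (r' + 1) * m ≤ (r' + 1) * d' := Nat.mul_le_mul_left _ h3
  rw [h2]
  nlinarith

theorem le_of_card_Rt {d r : ℕ} (hr : r.Prime) (hrd : ¬ r ∣ d + 1) (hc : #(Rt d r) = d) :
    d + 2 ≤ r := by
  have hr2 := hr.two_le
  rcases Nat.eq_zero_or_pos d with rfl | hd
  · omega
  · have hsub : Rt d r ⊆ Ico 2 r := by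
      intro x hx
      obtain ⟨h1, h2⟩ := mem_filter.1 hx
      rw [mem_range] at h1
      rw [mem_Ico]
      refine ⟨?_, h1⟩
      by_contra hcon
      have h3 : x = 0 ∨ x = 1 := by omega
      rcases h3 with rfl | rfl
      · have h4 : G (d + 1) 0 = 1 := by
          unfold G
          rw [sum_range_succ']
          simp
        rw [h4] at h2
        exact hr.one_lt.ne' (Nat.dvd_one.1 h2)
      · have h4 : G (d + 1) 1 = d + 1 := by simp [G]
        rw [h4] at h2
        exact hrd h2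
    have h5 := Finset.card_le_card hsub
    rw [hc, Nat.card_Ico] at h5
    omega

/-- the saving when all `d` roots occur -/
theorem sum_log_full {d r : ℕ} (hr : r.Prime) (hd : 2 ≤ d) (hrd : ¬ r ∣ d + 1)
    (hc : #(Rt d r) = d) :
    (d : ℝ) * ∑ x ∈ Rt d r, Real.log ((x : ℝ) + 1) ≤ (d : ℝ) ^ 2 * Real.log r - 1 := by
  have hdr := le_of_card_Rt hr hrd hc
  have hsum := sum_Rt_le hr hd hc
  have hd0 : (2 : ℝ) ≤ d := by exact_mod_cast hd
  have hr0 : (d : ℝ) + 2 ≤ r := by exact_mod_cast hdr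
  have hsumR : ∑ x ∈ Rt d r, ((x : ℝ) + 1) ≤ ((d : ℝ) - 1) * (r + 1) := by
    have h1 : ((∑ x ∈ Rt d r, (x + 1) : ℕ) : ℝ) ≤ (((d - 1) * (r + 1) : ℕ) : ℝ) := by
      exact_mod_cast hsum
    push_cast [Nat.cast_sub (show 1 ≤ d by omega)] at h1
    exact h1
  set z0 : ℝ := ((d : ℝ) - 1) * (r + 1) / d with hz0
  have hz0pos : 0 < z0 := by
    rw [hz0]
    apply _root_.div_pos (mul_pos (by linarith) (by linarith)) (by linarith)
  have hlog : ∀ x ∈ Rt d r, Real.log ((x : ℝ) + 1) ≤ Real.log z0 + ((x : ℝ) + 1) / z0 - 1 := by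
    intro x _
    have hx : (0 : ℝ) < (x : ℝ) + 1 := by positivity
    have h1 := Real.log_le_sub_one_of_pos (_root_.div_pos hx hz0pos)
    rw [Real.log_div hx.ne' hz0pos.ne'] at h1
    linarith
  have h2 : ∑ x ∈ Rt d r, Real.log ((x : ℝ) + 1) ≤ d * Real.log z0 := by
    calc ∑ x ∈ Rt d r, Real.log ((x : ℝ) + 1)
        ≤ ∑ x ∈ Rt d r, (Real.log z0 + ((x : ℝ) + 1) / z0 - 1) := sum_le_sum hlog
      _ = d * Real.log z0 + (∑ x ∈ Rt d r, ((x : ℝ) + 1)) / z0 - d := by
          rw [sum_sub_distrib, sum_add_distrib, sum_const, sum_const, hc, ← sum_div]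
          simp
      _ ≤ d * Real.log z0 + d - d := by
          have h3 : (∑ x ∈ Rt d r, ((x : ℝ) + 1)) / z0 ≤ d := by
            rw [div_le_iff₀ hz0pos, hz0]
            have h4 : (d : ℝ) * (((d : ℝ) - 1) * (r + 1) / d) = ((d : ℝ) - 1) * (r + 1) := by
              field_simp
            rw [h4]
            exact hsumR
          linarith
      _ = d * Real.log z0 := by ring
  have h5 : (d : ℝ) ^ 2 * Real.log z0 ≤ (d : ℝ) ^ 2 * Real.log r - 1 := by
    have hrpos : (0 : ℝ) < r := by linarith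
    have h6 := Real.log_le_sub_one_of_pos (_root_.div_pos hz0pos hrpos)
    rw [Real.log_div hz0pos.ne' hrpos.ne'] at h6
    have h7 : z0 / r - 1 ≤ -3 / ((d : ℝ) ^ 2 + 2 * d) := by
      have h8 : z0 / r - 1 = -((r : ℝ) + 1 - d) / (d * r) := by
        rw [hz0]
        field_simp
        ring
      rw [h8, neg_div, neg_div, neg_le_neg_iff, div_le_div_iff₀ (by positivity) (by positivity)]
      have h11 : 0 ≤ (d : ℝ) * ((d : ℝ) - 1) * ((r : ℝ) - d - 2) :=
        mul_nonneg (mul_nonneg (by linarith) (by linarith)) (by linarith)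
      nlinarith [h11]
    have h9 : (d : ℝ) ^ 2 * (-3 / ((d : ℝ) ^ 2 + 2 * d)) ≤ -1 := by
      have h10 : (d : ℝ) ^ 2 * (-3 / ((d : ℝ) ^ 2 + 2 * d)) = -(3 * d) / (d + 2) := by
        field_simp
      rw [h10, div_le_iff₀ (by linarith)]
      linarith
    nlinarith [sq_nonneg (d : ℝ)]
  calc (d : ℝ) * ∑ x ∈ Rt d r, Real.log ((x : ℝ) + 1) ≤ d * (d * Real.log z0) :=
        mul_le_mul_of_nonneg_left h2 (by linarith)
    _ = (d : ℝ) ^ 2 * Real.log z0 := by ring
    _ ≤ _ := h5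

/-- `A` is a set of roots in `[0, r)`: trivial bound, with a saving of `1` if `#A = d` -/
theorem sum_log_roots {d r : ℕ} (hr : r.Prime) (hd : 2 ≤ d) (hrd : ¬ r ∣ d + 1)
    (A : Finset ℕ) (hA : A ⊆ Rt d r) :
    (d : ℝ) * ∑ x ∈ A, Real.log ((x : ℝ) + 1) ≤
      (d : ℝ) ^ 2 * Real.log r - (if #A = d then 1 else 0) := by
  split_ifs with h
  · have h1 : A = Rt d r := Finset.eq_of_subset_of_card_le hA (by rw [h]; exact card_Rt_le hr)
    subst h1
    exact sum_log_full hr hd hrd h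
  · have h1 : #A ≤ d := (Finset.card_le_card hA).trans (card_Rt_le hr)
    have hr1 : (1 : ℝ) ≤ r := by exact_mod_cast hr.one_lt.le
    have hlr : 0 ≤ Real.log r := Real.log_nonneg hr1
    have h2 : ∑ x ∈ A, Real.log ((x : ℝ) + 1) ≤ ∑ _x ∈ A, Real.log r := by
      refine sum_le_sum fun x hx => ?_
      have h3 := mem_range.1 (mem_filter.1 (hA hx)).1
      apply Real.log_le_log (by positivity)
      exact_mod_cast h3
    rw [sum_const, nsmul_eq_mul] at h2
    have h4 : (#A : ℝ) ≤ d := by exact_mod_cast h1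
    have h5 : (#A : ℝ) * Real.log r ≤ d * Real.log r := mul_le_mul_of_nonneg_right h4 hlr
    have hd0 : (0 : ℝ) ≤ d := Nat.cast_nonneg d
    have h6 := mul_le_mul_of_nonneg_left (h2.trans h5) hd0
    rw [sub_zero]
    calc _ ≤ _ := h6
      _ = _ := by ring

end Pool.Agent.BE
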