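import Pool.Agent.Lib.MP_f02ea4_nt.BE.Defs
import Pool.Agent.Lib.MP_f02ea4_nt.TE.K6
import Pool.Agent.Lib.MP_f02ea4_nt.TE.K7

/-!
# Primes with small exponent are rare (from `TE`)
-/

set_option autoImplicit false

namespace Pool.Agent.BE

open Finset Nat

theorem thin : Thin := by
  obtain ⟨C, hC, h⟩ := Pool.Agent.TE.thin_uniform 1 one_pos le_rfl
  refine ⟨C, hC, fun N ho hN x hx E hE => ?_⟩
  have h1 := h N ho hN x E hx (by exact_mod_cast hE)
  have hS : ∑ q ∈ Pool.Agent.TE.Ex N 1 x, 1 / (q : ℝ) ≤ Real.log 2 := by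
    refine Pool.Agent.TE.sum_inv_le_log_two hN _ (Finset.filter_subset _ _) fun q hq => ?_
    have h1 := (Finset.mem_filter.mp hq).2.2
    have h2 : (1 : ℝ) ≤ x ^ (1 - 1 : ℝ) := Real.one_le_rpow (by linarith) (by norm_num)
    have h3 : (1 : ℝ) < (N.factorization q : ℝ) := by linarith
    exact_mod_cast h3
  have h2 : Real.exp (E * ∑ q ∈ Pool.Agent.TE.Ex N 1 x, 1 / (q : ℝ)) ≤ (2 : ℝ) ^ E := by
    calc Real.exp (E * ∑ q ∈ Pool.Agent.TE.Ex N 1 x, 1 / (q : ℝ))
        ≤ Real.exp (E * Real.log 2) := by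
          apply Real.exp_le_exp.2
          exact mul_le_mul_of_nonneg_left hS (by positivity)
      _ = (2 : ℝ) ^ E := by
          rw [mul_comm, ← Real.rpow_def_of_pos (by norm_num), Real.rpow_natCast]
  have h3 : ((N.primeFactors.filter
      (fun p : ℕ => (p : ℝ) ≤ x ∧ N.factorization p ≤ E)).card : ℝ) =
      ((N.primeFactors.filter (fun p : ℕ => (p : ℝ) ≤ x ∧
        (N.factorization p : ℝ) ≤ (E : ℝ))).card : ℝ) := by
    congr 2
    apply Finset.filter_congr
    intro p _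
    simp
  rw [h3]
  refine h1.trans ?_
  have hx0 : (0 : ℝ) ≤ x := by linarith
  gcongr

end Pool.Agent.BE
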