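import Pool.Agent.Lib.MP_f02ea4_nt.BE.Defs
import Pool.Agent.Lib.MP_f02ea4_nt.BE.Order
import Pool.Agent.Lib.MP_f02ea4_nt.BE.Roots

/-!
# Two exponents: the structure
-/

set_option autoImplicit false

namespace Pool.Agent.BE

open Finset Nat

variable {N y d e : ℕ}

/-- the prime factors `q ≤ y` with exponent `d` -/
def DD (N y d : ℕ) : Finset ℕ := {q ∈ N.primeFactors | q ≤ y ∧ N.factorization q = d}

/-- the good primes with exponent `e` -/
def E0 (N y d e : ℕ) : Finset ℕ :=
  {r ∈ N.primeFactors | r ≤ y ∧ N.factorization r = e ∧ (y + 1) ^ d < r ^ (d + 1) ∧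
    ¬ r ∣ d + 1 ∧ ¬ r ∣ e + 1 ∧ ∀ l ∈ (e + 1).primeFactors, ¬ l ∣ r - 1}

/-- the good primes with exponent `d` -/
def D0 (N y d : ℕ) : Finset ℕ :=
  {r ∈ N.primeFactors | r ≤ y ∧ N.factorization r = d ∧ (y + 1) ^ d < r ^ (d + 1) ∧
    ¬ r ∣ d + 1 ∧ ∀ l ∈ (d + 1).primeFactors, ¬ l ∣ r - 1}

/-- the remaining prime factors -/
def Bad (N y d e : ℕ) : Finset ℕ := {r ∈ N.primeFactors | r ∉ E0 N y d e ∧ r ∉ D0 N y d}

/-- the smaller tails of `r` with exponent `d` -/
def At (N y d r : ℕ) : Finset ℕ := {q ∈ DD N y d | q < r ∧ r ∣ s N q}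

/-- the weight of a prime factor -/
noncomputable def wt (N y q : ℕ) : ℝ := (N.factorization q : ℝ) * (1 + Real.log q / Real.log y)

theorem no_head {n q r : ℕ} (hn : 0 < n) (hr : r.Prime) (h1 : ¬ r ∣ n)
    (h2 : ∀ l ∈ n.primeFactors, ¬ l ∣ r - 1) : ¬ r ∣ G n q := by
  intro h
  rcases head_order hn hr h with h3 | ⟨l, hl, hln, hlr⟩
  · exact h1 h3
  · exact h2 l (Nat.mem_primeFactors.2 ⟨hl, hln, hn.ne'⟩) hlr

theorem no_head_E0 {q r : ℕ} (hq : N.factorization q = e) (hr : r ∈ E0 N y d e) :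
    ¬ r ∣ s N q := by
  unfold E0 at hr
  rw [mem_filter] at hr
  obtain ⟨h0, -, -, -, -, h5, h6⟩ := hr
  rw [s, hq]
  exact no_head (Nat.succ_pos _) (Nat.prime_of_mem_primeFactors h0) h5 h6

theorem no_head_D0 {q r : ℕ} (hq : N.factorization q = d) (hr : r ∈ D0 N y d) :
    ¬ r ∣ s N q := by
  unfold D0 at hr
  rw [mem_filter] at hr
  obtain ⟨h0, -, -, -, h5, h6⟩ := hr
  rw [s, hq]
  exact no_head (Nat.succ_pos _) (Nat.prime_of_mem_primeFactors h0) h5 h6

theorem log_s_eq (N q : ℕ) : Real.log (s N q) =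
    ∑ r ∈ (s N q).primeFactors, ((s N q).factorization r : ℝ) * Real.log r := by
  have h := Nat.prod_factorization_pow_eq_self (s_pos N q).ne'
  conv_lhs => rw [← h]
  rw [Finsupp.prod, Nat.support_factorization]
  push_cast
  rw [Real.log_prod]
  · refine sum_congr rfl fun r _ => ?_
    rw [Real.log_pow]
  · intro r hr
    have := (Nat.prime_of_mem_primeFactors hr).pos
    positivity

theorem sum_log_le_log_s (N q : ℕ) (T : Finset ℕ) :
    ∑ r ∈ T, ((s N q).factorization r : ℝ) * Real.log r ≤ Real.log (s N q) := by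
  rw [log_s_eq]
  have hnn : ∀ r : ℕ, 0 ≤ ((s N q).factorization r : ℝ) * Real.log r := fun r =>
    mul_nonneg (Nat.cast_nonneg _) (Real.log_natCast_nonneg r)
  calc ∑ r ∈ T, ((s N q).factorization r : ℝ) * Real.log r
      = ∑ r ∈ T.filter (· ∈ (s N q).primeFactors), ((s N q).factorization r : ℝ) * Real.log r := by
        rw [sum_filter]
        refine sum_congr rfl fun r _ => ?_
        split_ifs with h
        · rfl
        · rw [← Nat.support_factorization, Finsupp.notMem_support_iff] at h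
          rw [h]; simp
    _ ≤ _ := by
        refine sum_le_sum_of_subset_of_nonneg (fun r hr => (mem_filter.1 hr).2) fun r _ _ => hnn r

theorem log_s_le {N q : ℕ} : Real.log (s N q) ≤
    (N.factorization q : ℝ) * Real.log ((q : ℝ) + 1) := by
  have h1 : ((s N q : ℕ) : ℝ) ≤ ((q : ℝ) + 1) ^ N.factorization q := by
    exact_mod_cast s_le N q
  have h2 : (0 : ℝ) < (s N q : ℕ) := by exact_mod_cast s_pos N q
  calc Real.log (s N q) ≤ Real.log (((q : ℝ) + 1) ^ N.factorization q) := Real.log_le_log h2 h1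
    _ = _ := by rw [Real.log_pow]

theorem lt_log_s {N q : ℕ} (hq : q ∈ N.primeFactors) :
    (N.factorization q : ℝ) * Real.log q < Real.log (s N q) := by
  have h1 : ((q : ℝ)) ^ N.factorization q < ((s N q : ℕ) : ℝ) := by
    exact_mod_cast lt_s hq
  have h2 : (0 : ℝ) < (q : ℝ) := by exact_mod_cast (Nat.prime_of_mem_primeFactors hq).pos
  rw [← Real.log_pow]
  exact Real.log_lt_log (by positivity) h1

/-- the multiplicity of large heads -/
theorem mass {q : ℕ} (hd : 1 ≤ d) (T : Finset ℕ)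
    (hT : ∀ r ∈ T, r.Prime ∧ (y + 1) ^ d < r ^ (d + 1))
    (hm : 0 < ∑ r ∈ T, (s N q).factorization r) :
    (d : ℝ) * (∑ r ∈ T, (s N q).factorization r : ℕ) * Real.log ((y : ℝ) + 1) <
      ((d : ℝ) + 1) * ((N.factorization q : ℝ) * Real.log ((q : ℝ) + 1)) := by
  have h1 : ∀ r ∈ T, (d : ℝ) * Real.log ((y : ℝ) + 1) < ((d : ℝ) + 1) * Real.log r := by
    intro r hr
    obtain ⟨hp, hlt⟩ := hT r hr
    have h2 : ((y : ℝ) + 1) ^ d < (r : ℝ) ^ (d + 1) := by exact_mod_cast hlt
    have h3 := Real.log_lt_log (by positivity) h2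
    rw [Real.log_pow, Real.log_pow] at h3
    push_cast at h3
    exact h3
  have h2 : (d : ℝ) * (∑ r ∈ T, (s N q).factorization r : ℕ) * Real.log ((y : ℝ) + 1) <
      ((d : ℝ) + 1) * ∑ r ∈ T, ((s N q).factorization r : ℝ) * Real.log r := by
    push_cast
    rw [mul_assoc, sum_mul, mul_sum, mul_sum]
    obtain ⟨r₀, hr₀, hpos⟩ : ∃ r₀ ∈ T, 0 < (s N q).factorization r₀ := by
      by_contra hcon
      push Not at hcon
      have : ∑ r ∈ T, (s N q).factorization r = 0 :=
        sum_eq_zero fun r hr => Nat.le_zero.1 (hcon r hr)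
      omega
    refine sum_lt_sum (fun r hr => ?_) ⟨r₀, hr₀, ?_⟩
    · have := h1 r hr
      have h0 : (0 : ℝ) ≤ (s N q).factorization r := Nat.cast_nonneg _
      nlinarith
    · have := h1 r₀ hr₀
      have h0 : (0 : ℝ) < (s N q).factorization r₀ := by exact_mod_cast hpos
      nlinarith
  refine h2.trans_le ?_
  have h3 := sum_log_le_log_s N q T
  have h4 := log_s_le (N := N) (q := q)
  have : (0 : ℝ) ≤ (d : ℝ) + 1 := by positivity
  exact mul_le_mul_of_nonneg_left (h3.trans h4) this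

theorem mass_le_d {q : ℕ} (hd : 1 ≤ d) (hy : 2 ≤ y) (T : Finset ℕ)
    (hT : ∀ r ∈ T, r.Prime ∧ (y + 1) ^ d < r ^ (d + 1)) (hq : q ∈ DD N y d) :
    ∑ r ∈ T, (s N q).factorization r ≤ d := by
  rcases Nat.eq_zero_or_pos (∑ r ∈ T, (s N q).factorization r) with h0 | h0
  · omega
  have h1 := mass hd T hT h0
  unfold DD at hq
  rw [mem_filter] at hq
  obtain ⟨-, hqy, hqd⟩ := hq
  rw [hqd] at h1
  have h2 : Real.log ((q : ℝ) + 1) ≤ Real.log ((y : ℝ) + 1) := by
    apply Real.log_le_log (by positivity)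
    have : (q : ℝ) ≤ y := by exact_mod_cast hqy
    linarith
  have hL : 0 < Real.log ((y : ℝ) + 1) := by
    apply Real.log_pos
    have : (2 : ℝ) ≤ y := by exact_mod_cast hy
    linarith
  have hd0 : (0 : ℝ) < d := by exact_mod_cast hd
  have h3 : (d : ℝ) * (∑ r ∈ T, (s N q).factorization r : ℕ) * Real.log ((y : ℝ) + 1) <
      (d : ℝ) * ((d : ℝ) + 1) * Real.log ((y : ℝ) + 1) := by
    refine h1.trans_le ?_
    have : ((d : ℝ) + 1) * ((d : ℝ) * Real.log ((q : ℝ) + 1)) ≤
        ((d : ℝ) + 1) * ((d : ℝ) * Real.log ((y : ℝ) + 1)) := by gcongr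
    linarith
  have h4 := lt_of_mul_lt_mul_right h3 hL.le
  have h5 := lt_of_mul_lt_mul_left h4 hd0.le
  have h6 : (∑ r ∈ T, (s N q).factorization r) < d + 1 := by exact_mod_cast h5
  omega

theorem wt_ge {q : ℕ} (hy : 2 ≤ y) (hq : 1 ≤ q) :
    (N.factorization q : ℝ) * Real.log ((q : ℝ) + 1) ≤ wt N y q * Real.log ((y : ℝ) + 1) := by
  have hy' : (2 : ℝ) ≤ y := by exact_mod_cast hy
  have hq' : (1 : ℝ) ≤ q := by exact_mod_cast hq
  have hly : 0 < Real.log y := Real.log_pos (by linarith)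
  have hly1 : Real.log y ≤ Real.log ((y : ℝ) + 1) := Real.log_le_log (by linarith) (by linarith)
  have hlq : 0 ≤ Real.log q := Real.log_nonneg hq'
  unfold wt
  rw [mul_assoc]
  refine mul_le_mul_of_nonneg_left ?_ (Nat.cast_nonneg _)
  have h1 : Real.log ((q : ℝ) + 1) ≤ Real.log ((y : ℝ) + 1) + Real.log q := by
    rw [← Real.log_mul (by positivity) (by positivity)]
    apply Real.log_le_log (by positivity)
    nlinarith
  have h2 : Real.log q ≤ Real.log q / Real.log y * Real.log ((y : ℝ) + 1) := by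
    rw [div_mul_eq_mul_div, le_div_iff₀ hly]
    exact mul_le_mul_of_nonneg_left hly1 hlq
  linarith

theorem wt_nonneg (N y q : ℕ) : 0 ≤ wt N y q := by
  unfold wt
  have h1 := Real.log_natCast_nonneg q
  have h2 := Real.log_natCast_nonneg y
  positivity

theorem fac_le_wt (N y q : ℕ) : (N.factorization q : ℝ) ≤ wt N y q := by
  unfold wt
  have h1 := Real.log_natCast_nonneg q
  have h2 := Real.log_natCast_nonneg y
  have h3 : 0 ≤ Real.log q / Real.log y := by positivity
  have h4 : (0 : ℝ) ≤ N.factorization q := Nat.cast_nonneg _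
  nlinarith

theorem SS_eq (N y d e : ℕ) : SS N y d e = ∑ q ∈ XX N y d e, wt N y q := rfl

theorem mass_le_wt {q : ℕ} (hd : 1 ≤ d) (hy : 2 ≤ y) (hq : 1 ≤ q) (T : Finset ℕ)
    (hT : ∀ r ∈ T, r.Prime ∧ (y + 1) ^ d < r ^ (d + 1)) :
    ((∑ r ∈ T, (s N q).factorization r : ℕ) : ℝ) ≤ 2 * wt N y q := by
  rcases Nat.eq_zero_or_pos (∑ r ∈ T, (s N q).factorization r) with h0 | h0
  · rw [h0]
    have := wt_nonneg N y q
    push_cast
    linarith
  have h1 := mass hd T hT h0
  have h2 := wt_ge (N := N) hy hq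
  have hL : 0 < Real.log ((y : ℝ) + 1) := by
    apply Real.log_pos
    have : (2 : ℝ) ≤ y := by exact_mod_cast hy
    linarith
  have hd0 : (1 : ℝ) ≤ d := by exact_mod_cast hd
  have hw := wt_nonneg N y q
  have h3 : (d : ℝ) * (∑ r ∈ T, (s N q).factorization r : ℕ) * Real.log ((y : ℝ) + 1) ≤
      (d : ℝ) * (2 * wt N y q) * Real.log ((y : ℝ) + 1) := by
    have h4 : ((d : ℝ) + 1) * ((N.factorization q : ℝ) * Real.log ((q : ℝ) + 1)) ≤
        ((d : ℝ) + 1) * (wt N y q * Real.log ((y : ℝ) + 1)) := by gcongr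
    have h5 : 0 ≤ wt N y q * Real.log ((y : ℝ) + 1) := by positivity
    nlinarith
  have h4 := le_of_mul_le_mul_right h3 hL
  exact le_of_mul_le_mul_left h4 (by linarith)

theorem E0_prime {r : ℕ} (hr : r ∈ E0 N y d e) : r.Prime ∧ (y + 1) ^ d < r ^ (d + 1) := by
  unfold E0 at hr
  rw [mem_filter] at hr
  exact ⟨Nat.prime_of_mem_primeFactors hr.1, hr.2.2.2.1⟩

theorem E0_mem {r : ℕ} (hr : r ∈ E0 N y d e) : r ∈ N.primeFactors := by
  unfold E0 at hr
  exact (mem_filter.1 hr).1

theorem E0_fac {r : ℕ} (hr : r ∈ E0 N y d e) : N.factorization r = e := by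
  unfold E0 at hr
  exact (mem_filter.1 hr).2.2.1

/-- the trichotomy of prime factors -/
theorem tri {q : ℕ} (hq : q ∈ N.primeFactors) :
    q ∈ DD N y d ∨ N.factorization q = e ∨ q ∈ XX N y d e := by
  unfold DD XX
  simp only [mem_filter]
  tauto

/-- (i): counting the edges into the good primes with exponent `e` -/
theorem e_card_E0_le (ho : Odd N) (hN : N.Perfect) (hd : 1 ≤ d) (hy : 2 ≤ y) :
    (e : ℝ) * #(E0 N y d e) ≤ (d : ℝ) * #(DD N y d) + 2 * SS N y d e := by
  have h1 : (e : ℝ) * #(E0 N y d e) = ∑ q ∈ N.primeFactors,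
      ((∑ r ∈ E0 N y d e, (s N q).factorization r : ℕ) : ℝ) := by
    rw [← Nat.cast_sum, sum_comm]
    have : ∀ r ∈ E0 N y d e, ∑ q ∈ N.primeFactors, (s N q).factorization r = e := by
      intro r hr
      rw [sum_fac_odd ho hN (by have := two_lt ho (E0_mem hr); omega), E0_fac hr]
    rw [sum_congr rfl this, sum_const, smul_eq_mul]
    push_cast
    ring
  have h2 : ∀ q ∈ N.primeFactors, ((∑ r ∈ E0 N y d e, (s N q).factorization r : ℕ) : ℝ) ≤
      (if q ∈ DD N y d then (d : ℝ) else 0) + (if q ∈ XX N y d e then 2 * wt N y q else 0) := by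
    intro q hq
    have hw := wt_nonneg N y q
    have hd0 : (0 : ℝ) ≤ d := Nat.cast_nonneg _
    have hp := Nat.prime_of_mem_primeFactors hq
    rcases tri (y := y) (d := d) (e := e) hq with h | h | h
    · have h3 := mass_le_d hd hy (E0 N y d e) (fun r hr => E0_prime hr) h
      have h4 : ((∑ r ∈ E0 N y d e, (s N q).factorization r : ℕ) : ℝ) ≤ d := by exact_mod_cast h3
      rw [if_pos h]
      split_ifs <;> linarith
    · have h3 : ∑ r ∈ E0 N y d e, (s N q).factorization r = 0 :=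
        sum_eq_zero fun r hr => Nat.factorization_eq_zero_of_not_dvd (no_head_E0 h hr)
      rw [h3]
      push_cast
      split_ifs <;> linarith
    · have h3 := mass_le_wt (N := N) hd hy hp.one_le (E0 N y d e) (fun r hr => E0_prime hr)
      rw [if_pos h]
      split_ifs <;> linarith
  rw [h1]
  refine (sum_le_sum h2).trans ?_
  rw [sum_add_distrib, ← sum_filter, ← sum_filter]
  have h3 : N.primeFactors.filter (· ∈ DD N y d) = DD N y d := by
    ext q; unfold DD; simp only [mem_filter]; tauto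
  have h4 : N.primeFactors.filter (· ∈ XX N y d e) = XX N y d e := by
    ext q; unfold XX; simp only [mem_filter]; tauto
  rw [h3, h4, sum_const, nsmul_eq_mul, SS_eq, mul_sum]
  linarith [mul_comm (d : ℝ) (#(DD N y d))]

/-- every tail with exponent `d` has a bad head or a larger good head -/
theorem tail_cases (ho : Odd N) (hN : N.Perfect) (hd : 1 ≤ d) (hde : Even d) (hy : 2 ≤ y) {q : ℕ}
    (hq : q ∈ DD N y d) : (∃ r ∈ Bad N y d e, r ∣ s N q) ∨ ∃ r ∈ E0 N y d e, q ∈ At N y d r := by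
  by_contra hcon
  push Not at hcon
  obtain ⟨hc1, hc2⟩ := hcon
  have hq' := hq
  unfold DD at hq'
  rw [mem_filter] at hq'
  obtain ⟨hqN, hqy, hqd⟩ := hq'
  have hqo : Odd q := by
    have := two_lt ho hqN
    exact (Nat.prime_of_mem_primeFactors hqN).odd_of_ne_two (by omega)
  have hso : Odd (s N q) := odd_s hqo (by rw [hqd]; exact hde)
  have hE : ∀ r ∈ (s N q).primeFactors, r ∈ E0 N y d e ∧ r ≤ q := by
    intro r hr
    have hrp := Nat.prime_of_mem_primeFactors hr
    have hrd := Nat.dvd_of_mem_primeFactors hr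
    have hr2 : r ≠ 2 := by
      rintro rfl
      rcases hso with ⟨m, hm⟩
      omega
    have hrN : r ∈ N.primeFactors := head_mem hN hqN hrp hrd hr2
    have hrE : r ∈ E0 N y d e := by
      by_contra hrE
      have hrD : r ∉ D0 N y d := fun h => no_head_D0 hqd h hrd
      exact hc1 r (by unfold Bad; rw [mem_filter]; exact ⟨hrN, hrE, hrD⟩) hrd
    refine ⟨hrE, ?_⟩
    by_contra hlt
    push Not at hlt
    exact hc2 r hrE (by unfold At; rw [mem_filter]; exact ⟨hq, hlt, hrd⟩)
  have h1 := mass_le_d (N := N) hd hy (s N q).primeFactors (fun r hr => E0_prime (hE r hr).1) hq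
  have h2 := lt_log_s hqN
  rw [log_s_eq, hqd] at h2
  have hlq : 0 ≤ Real.log (q : ℝ) := Real.log_natCast_nonneg q
  have h3 : ∑ r ∈ (s N q).primeFactors, ((s N q).factorization r : ℝ) * Real.log r ≤
      (d : ℝ) * Real.log q := by
    calc ∑ r ∈ (s N q).primeFactors, ((s N q).factorization r : ℝ) * Real.log r
        ≤ ∑ r ∈ (s N q).primeFactors, ((s N q).factorization r : ℝ) * Real.log q := by
          refine sum_le_sum fun r hr => ?_
          refine mul_le_mul_of_nonneg_left ?_ (Nat.cast_nonneg _)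
          apply Real.log_le_log
          · exact_mod_cast (Nat.prime_of_mem_primeFactors hr).pos
          · exact_mod_cast (hE r hr).2
      _ = ((∑ r ∈ (s N q).primeFactors, (s N q).factorization r : ℕ) : ℝ) * Real.log q := by
          rw [← sum_mul]; push_cast; rfl
      _ ≤ (d : ℝ) * Real.log q := by
          refine mul_le_mul_of_nonneg_right ?_ hlq
          exact_mod_cast h1
  linarith

theorem Bad_prime (ho : Odd N) {r : ℕ} (hr : r ∈ Bad N y d e) : r.Prime ∧ r ≠ 2 := by
  unfold Bad at hr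
  have h1 := (mem_filter.1 hr).1
  have := two_lt ho h1
  exact ⟨Nat.prime_of_mem_primeFactors h1, by omega⟩

/-- the number of bad edges -/
def n0 (N y d e : ℕ) : ℕ := ∑ r ∈ Bad N y d e, N.factorization r

/-- the tails with a bad head -/
def BT (N y d e : ℕ) : Finset ℕ := {q ∈ DD N y d | ∃ r ∈ Bad N y d e, r ∣ s N q}

theorem card_BT_le (ho : Odd N) (hN : N.Perfect) : #(BT N y d e) ≤ n0 N y d e := by
  refine le_trans (card_le_card ?_) (card_head_le ho hN (Bad N y d e) fun r hr => Bad_prime ho hr)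
  intro q hq
  unfold BT at hq
  rw [mem_filter] at hq ⊢
  exact ⟨(by unfold DD at hq; exact (mem_filter.1 hq.1).1), hq.2⟩

theorem DD_sub (ho : Odd N) (hN : N.Perfect) (hd : 1 ≤ d) (hde : Even d) (hy : 2 ≤ y) :
    DD N y d ⊆ BT N y d e ∪ (E0 N y d e).biUnion (At N y d) := by
  intro q hq
  rw [mem_union, mem_biUnion]
  rcases tail_cases (e := e) ho hN hd hde hy hq with h | h
  · left
    unfold BT
    rw [mem_filter]
    exact ⟨hq, h⟩
  · right
    exact h

/-- (ii) -/
theorem card_DD_le (ho : Odd N) (hN : N.Perfect) (hd : 1 ≤ d) (hde : Even d) (hy : 2 ≤ y) :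
    #(DD N y d) ≤ ∑ r ∈ E0 N y d e, #(At N y d r) + n0 N y d e := by
  have h1 := card_le_card (DD_sub (e := e) ho hN hd hde hy)
  have h2 := card_union_le (BT N y d e) ((E0 N y d e).biUnion (At N y d))
  have h3 : #((E0 N y d e).biUnion (At N y d)) ≤ ∑ r ∈ E0 N y d e, #(At N y d r) := card_biUnion_le
  have h4 := card_BT_le (y := y) (d := d) (e := e) ho hN
  omega

theorem At_sub (r : ℕ) : At N y d r ⊆ Rt d r := by
  intro q hq
  unfold At DD at hq
  rw [mem_filter, mem_filter] at hq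
  obtain ⟨⟨-, -, hqd⟩, hlt, hdv⟩ := hq
  unfold Rt
  rw [mem_filter, mem_range]
  refine ⟨hlt, ?_⟩
  rwa [s, hqd] at hdv

theorem card_At_le {r : ℕ} (hr : r.Prime) : #(At N y d r) ≤ d :=
  (card_le_card (At_sub r)).trans (card_Rt_le hr)

/-- (ii) with logarithms -/
theorem sum_log_DD_le (ho : Odd N) (hN : N.Perfect) (hd : 1 ≤ d) (hde : Even d) (hy : 2 ≤ y) :
    ∑ q ∈ DD N y d, Real.log ((q : ℝ) + 1) ≤
      ∑ r ∈ E0 N y d e, ∑ q ∈ At N y d r, Real.log ((q : ℝ) + 1) +
        n0 N y d e * Real.log ((y : ℝ) + 1) := by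
  have hnn : ∀ q : ℕ, 0 ≤ Real.log ((q : ℝ) + 1) := fun q => by
    apply Real.log_nonneg
    have : (0 : ℝ) ≤ q := Nat.cast_nonneg q
    linarith
  have hL := hnn y
  have h1 : ∑ q ∈ DD N y d, Real.log ((q : ℝ) + 1) ≤
      ∑ q ∈ BT N y d e ∪ (E0 N y d e).biUnion (At N y d), Real.log ((q : ℝ) + 1) :=
    sum_le_sum_of_subset_of_nonneg (DD_sub ho hN hd hde hy) fun q _ _ => hnn q
  have h2 : ∑ q ∈ BT N y d e ∪ (E0 N y d e).biUnion (At N y d), Real.log ((q : ℝ) + 1) ≤
      ∑ q ∈ BT N y d e, Real.log ((q : ℝ) + 1) +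
        ∑ q ∈ (E0 N y d e).biUnion (At N y d), Real.log ((q : ℝ) + 1) := by
    rw [← sum_union_inter]
    have : 0 ≤ ∑ q ∈ BT N y d e ∩ (E0 N y d e).biUnion (At N y d), Real.log ((q : ℝ) + 1) :=
      sum_nonneg fun q _ => hnn q
    linarith
  have h3 : ∑ q ∈ (E0 N y d e).biUnion (At N y d), Real.log ((q : ℝ) + 1) ≤
      ∑ r ∈ E0 N y d e, ∑ q ∈ At N y d r, Real.log ((q : ℝ) + 1) := by
    induction (E0 N y d e) using Finset.induction_on with
    | empty => simp
    | insert a t ha ih =>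
      rw [biUnion_insert, sum_insert ha]
      have : ∑ q ∈ At N y d a ∪ t.biUnion (At N y d), Real.log ((q : ℝ) + 1) ≤
          ∑ q ∈ At N y d a, Real.log ((q : ℝ) + 1) +
            ∑ q ∈ t.biUnion (At N y d), Real.log ((q : ℝ) + 1) := by
        rw [← sum_union_inter]
        have : 0 ≤ ∑ q ∈ At N y d a ∩ t.biUnion (At N y d), Real.log ((q : ℝ) + 1) :=
          sum_nonneg fun q _ => hnn q
        linarith
      linarith
  have h4 : ∑ q ∈ BT N y d e, Real.log ((q : ℝ) + 1) ≤
      n0 N y d e * Real.log ((y : ℝ) + 1) := by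
    calc ∑ q ∈ BT N y d e, Real.log ((q : ℝ) + 1)
        ≤ ∑ q ∈ BT N y d e, Real.log ((y : ℝ) + 1) := by
          refine sum_le_sum fun q hq => ?_
          apply Real.log_le_log (by positivity)
          unfold BT DD at hq
          rw [mem_filter, mem_filter] at hq
          have : (q : ℝ) ≤ y := by exact_mod_cast hq.1.2.1
          linarith
      _ = #(BT N y d e) * Real.log ((y : ℝ) + 1) := by rw [sum_const, nsmul_eq_mul]
      _ ≤ _ := by
          refine mul_le_mul_of_nonneg_right ?_ hL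
          exact_mod_cast card_BT_le ho hN
  linarith

/-- the log-mass inequality -/
theorem log_mass (ho : Odd N) (hN : N.Perfect) (hy : 2 ≤ y) :
    (e : ℝ) * ∑ r ∈ E0 N y d e, Real.log r ≤
      (d : ℝ) * ∑ q ∈ DD N y d, Real.log ((q : ℝ) + 1) +
        SS N y d e * Real.log ((y : ℝ) + 1) := by
  have hL : 0 < Real.log ((y : ℝ) + 1) := by
    apply Real.log_pos
    have : (2 : ℝ) ≤ y := by exact_mod_cast hy
    linarith
  have h1 : (e : ℝ) * ∑ r ∈ E0 N y d e, Real.log r = ∑ q ∈ N.primeFactors,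
      ∑ r ∈ E0 N y d e, ((s N q).factorization r : ℝ) * Real.log r := by
    rw [sum_comm, mul_sum]
    refine sum_congr rfl fun r hr => ?_
    rw [← sum_mul]
    congr 1
    have := sum_fac_odd ho hN (r := r) (by have := two_lt ho (E0_mem hr); omega)
    rw [E0_fac hr] at this
    rw [← this]
    push_cast
    rfl
  have h2 : ∀ q ∈ N.primeFactors, ∑ r ∈ E0 N y d e, ((s N q).factorization r : ℝ) * Real.log r ≤
      (if q ∈ DD N y d then (d : ℝ) * Real.log ((q : ℝ) + 1) else 0) +
      (if q ∈ XX N y d e then wt N y q * Real.log ((y : ℝ) + 1) else 0) := by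
    intro q hq
    have hw := wt_nonneg N y q
    have hp := Nat.prime_of_mem_primeFactors hq
    have hlq : 0 ≤ Real.log ((q : ℝ) + 1) := by
      apply Real.log_nonneg
      have : (0 : ℝ) ≤ q := Nat.cast_nonneg q
      linarith
    have hdq : 0 ≤ (d : ℝ) * Real.log ((q : ℝ) + 1) := by positivity
    have hwL : 0 ≤ wt N y q * Real.log ((y : ℝ) + 1) := by positivity
    have h3 := sum_log_le_log_s N q (E0 N y d e)
    have h4 := log_s_le (N := N) (q := q)
    rcases tri (y := y) (d := d) (e := e) hq with h | h | h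
    · have h5 : N.factorization q = d := by
        unfold DD at h
        exact (mem_filter.1 h).2.2
      rw [h5] at h4
      rw [if_pos h]
      split_ifs <;> linarith
    · have h3 : ∑ r ∈ E0 N y d e, ((s N q).factorization r : ℝ) * Real.log r = 0 :=
        sum_eq_zero fun r hr => by
          rw [Nat.factorization_eq_zero_of_not_dvd (no_head_E0 h hr)]; simp
      rw [h3]
      split_ifs <;> linarith
    · have h5 := wt_ge (N := N) hy hp.one_le
      rw [if_pos h]
      split_ifs <;> linarith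
  rw [h1]
  refine (sum_le_sum h2).trans ?_
  rw [sum_add_distrib, ← sum_filter, ← sum_filter]
  have h3 : N.primeFactors.filter (· ∈ DD N y d) = DD N y d := by
    ext q; unfold DD; simp only [mem_filter]; tauto
  have h4 : N.primeFactors.filter (· ∈ XX N y d e) = XX N y d e := by
    ext q; unfold XX; simp only [mem_filter]; tauto
  rw [h3, h4, SS_eq, mul_sum, sum_mul]

end Pool.Agent.BE
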