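import Pool.Agent.Lib.MP_f02ea4_nt.BE.TwoA

/-!
# Two exponents: the inequality
-/

set_option autoImplicit false

namespace Pool.Agent.BE

open Finset Nat

variable {N y d e : ℕ}

/-- the sum of the exponents of the exceptional primes -/
def S0 (N y d e : ℕ) : ℕ := ∑ q ∈ XX N y d e, N.factorization q

theorem S0_le (N y d e : ℕ) : (S0 N y d e : ℝ) ≤ SS N y d e := by
  unfold S0
  rw [SS_eq]
  push_cast
  exact sum_le_sum fun q _ => fac_le_wt N y q

theorem one_le_SS (ho : Odd N) (hN : N.Perfect) (hd : Even d) (he : Even e) :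
    1 ≤ SS N y d e := by
  obtain ⟨q, hq, hqo⟩ := exists_odd ho hN
  have hqX : q ∈ XX N y d e := by
    unfold XX
    rw [mem_filter]
    refine ⟨hq, ?_⟩
    rintro ⟨-, h | h⟩
    · rw [h] at hqo; exact (Nat.not_odd_iff_even.2 hd) hqo
    · rw [h] at hqo; exact (Nat.not_odd_iff_even.2 he) hqo
  have h1 : 1 ≤ S0 N y d e := by
    unfold S0
    calc 1 ≤ N.factorization q := fac_pos hq
      _ ≤ _ := single_le_sum (f := fun q => N.factorization q) (fun _ _ => Nat.zero_le _) hqX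
  have h2 := S0_le N y d e
  have h3 : (1 : ℝ) ≤ S0 N y d e := by exact_mod_cast h1
  linarith

theorem card_pf_le (n : ℕ) : #n.primeFactors ≤ n := by
  have h : n.primeFactors ⊆ Icc 1 n := by
    intro l hl
    rw [mem_Icc]
    exact ⟨(Nat.prime_of_mem_primeFactors hl).one_le,
      Nat.le_of_mem_primeFactors hl⟩
  have := card_le_card h
  simpa using this

/-- exponents of the primes up to `y` outside of `XX` -/
theorem fac_le_of_not_XX (hde : d ≤ e) {l : ℕ} (hl : l ∉ XX N y d e) : N.factorization l ≤ e := by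
  by_cases h : l ∈ N.primeFactors
  · unfold XX at hl
    rw [mem_filter] at hl
    push Not at hl
    rcases (hl h).2 with h1 | h1 <;> omega
  · rw [← Nat.support_factorization, Finsupp.notMem_support_iff] at h
    omega

theorem sum_fac_pf_le (hde : d ≤ e) (n : ℕ) :
    ∑ l ∈ n.primeFactors, N.factorization l ≤ S0 N y d e + e * n := by
  have h1 : ∀ l ∈ n.primeFactors, N.factorization l ≤
      (if l ∈ XX N y d e then N.factorization l else 0) + e := by
    intro l _
    split_ifs with h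
    · omega
    · have := fac_le_of_not_XX hde h
      omega
  refine (sum_le_sum h1).trans ?_
  rw [sum_add_distrib, ← sum_filter, sum_const, smul_eq_mul]
  have h2 : ∑ l ∈ n.primeFactors.filter (· ∈ XX N y d e), N.factorization l ≤ S0 N y d e := by
    unfold S0
    exact sum_le_sum_of_subset_of_nonneg (fun l hl => (mem_filter.1 hl).2)
      fun _ _ _ => Nat.zero_le _
  have h3 := card_pf_le n
  have h4 : #n.primeFactors * e ≤ e * n := by
    rw [mul_comm]
    exact Nat.mul_le_mul_left e h3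
  omega

/-- the tails `r` such that some prime divisor of `n` divides `s_r` -/
def Tn (N n : ℕ) : Finset ℕ := {r ∈ N.primeFactors | ∃ l ∈ n.primeFactors, l ∣ s N r}

theorem card_Tn_le (ho : Odd N) (hN : N.Perfect) (hde : d ≤ e) {n : ℕ} (hn : Odd n) :
    #(Tn N n) ≤ S0 N y d e + e * n := by
  refine (card_head_le ho hN n.primeFactors fun r hr => ⟨Nat.prime_of_mem_primeFactors hr, ?_⟩).trans
    (sum_fac_pf_le hde n)
  rintro rfl
  have := Nat.dvd_of_mem_primeFactors hr
  rcases hn with ⟨m, hm⟩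
  omega

theorem Bad_sub : Bad N y d e ⊆ XX N y d e ∪ (SM N y d e ∪
    ((d + 1).primeFactors ∪ ((e + 1).primeFactors ∪ (Tn N (d + 1) ∪ Tn N (e + 1))))) := by
  intro r hr
  unfold Bad at hr
  rw [mem_filter] at hr
  obtain ⟨hrN, hrE, hrD⟩ := hr
  have hrp := Nat.prime_of_mem_primeFactors hrN
  by_cases hX : r ∈ XX N y d e
  · exact mem_union_left _ hX
  apply mem_union_right
  by_cases hS : r ∈ SM N y d e
  · exact mem_union_left _ hS
  apply mem_union_right
  by_cases h1 : r ∣ d + 1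
  · exact mem_union_left _ (Nat.mem_primeFactors.2 ⟨hrp, h1, by omega⟩)
  apply mem_union_right
  by_cases h2 : r ∣ e + 1
  · exact mem_union_left _ (Nat.mem_primeFactors.2 ⟨hrp, h2, by omega⟩)
  apply mem_union_right
  unfold XX at hX
  rw [mem_filter] at hX
  push Not at hX
  obtain ⟨hry, hv⟩ := hX hrN
  unfold SM at hS
  rw [mem_filter] at hS
  push Not at hS
  have hbig := hS hrN hv
  rcases hv with hv | hv
  · apply mem_union_left
    unfold D0 at hrD
    rw [mem_filter] at hrD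
    push Not at hrD
    obtain ⟨l, hl, hlr⟩ := hrD hrN hry hv hbig h1
    unfold Tn
    rw [mem_filter]
    refine ⟨hrN, l, hl, ?_⟩
    rw [s, hv]
    exact dvd_G_of_one hrp.one_le hlr (Nat.dvd_of_mem_primeFactors hl)
  · apply mem_union_right
    unfold E0 at hrE
    rw [mem_filter] at hrE
    push Not at hrE
    obtain ⟨l, hl, hlr⟩ := hrE hrN hry hv hbig h1 h2
    unfold Tn
    rw [mem_filter]
    refine ⟨hrN, l, hl, ?_⟩
    rw [s, hv]
    exact dvd_G_of_one hrp.one_le hlr (Nat.dvd_of_mem_primeFactors hl)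

/-- the number of bad primes outside of `XX` -/
theorem card_Bad_sdiff_le (ho : Odd N) (hN : N.Perfect) (hd : Even d) (he : Even e) (hde : d ≤ e) :
    #(Bad N y d e \ XX N y d e) ≤ #(SM N y d e) + (d + 1) + (e + 1) +
      2 * S0 N y d e + e * (d + 1) + e * (e + 1) := by
  have h1 : Bad N y d e \ XX N y d e ⊆ SM N y d e ∪
      ((d + 1).primeFactors ∪ ((e + 1).primeFactors ∪ (Tn N (d + 1) ∪ Tn N (e + 1)))) := by
    intro r hr
    rw [mem_sdiff] at hr
    rcases mem_union.1 (Bad_sub hr.1) with h | h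
    · exact absurd h hr.2
    · exact h
  have h2 := card_le_card h1
  have h3 := card_union_le (SM N y d e)
    ((d + 1).primeFactors ∪ ((e + 1).primeFactors ∪ (Tn N (d + 1) ∪ Tn N (e + 1))))
  have h4 := card_union_le (d + 1).primeFactors
    ((e + 1).primeFactors ∪ (Tn N (d + 1) ∪ Tn N (e + 1)))
  have h5 := card_union_le (e + 1).primeFactors (Tn N (d + 1) ∪ Tn N (e + 1))
  have h6 := card_union_le (Tn N (d + 1)) (Tn N (e + 1))
  have h7 := card_pf_le (d + 1)
  have h8 := card_pf_le (e + 1)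
  have h9 := card_Tn_le (y := y) (d := d) (e := e) ho hN hde hd.add_one
  have h10 := card_Tn_le (y := y) (d := d) (e := e) ho hN hde he.add_one
  omega

theorem n0_le (ho : Odd N) (hN : N.Perfect) (hd : Even d) (he : Even e) (hde : d ≤ e) :
    n0 N y d e ≤ S0 N y d e + e * (#(SM N y d e) + (d + 1) + (e + 1) +
      2 * S0 N y d e + e * (d + 1) + e * (e + 1)) := by
  unfold n0
  have h1 : ∑ r ∈ Bad N y d e, N.factorization r ≤
      ∑ r ∈ XX N y d e, N.factorization r + ∑ r ∈ Bad N y d e \ XX N y d e, N.factorization r := by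
    rw [← sum_union (disjoint_sdiff)]
    refine sum_le_sum_of_subset_of_nonneg ?_ fun _ _ _ => Nat.zero_le _
    intro r hr
    rw [mem_union, mem_sdiff]
    tauto
  have h2 : ∑ r ∈ Bad N y d e \ XX N y d e, N.factorization r ≤
      ∑ r ∈ Bad N y d e \ XX N y d e, e := by
    refine sum_le_sum fun r hr => ?_
    rw [mem_sdiff] at hr
    exact fac_le_of_not_XX hde hr.2
  rw [sum_const, smul_eq_mul] at h2
  have h3 := card_Bad_sdiff_le (y := y) ho hN hd he hde
  have h4 : #(Bad N y d e \ XX N y d e) * e ≤ e * (#(SM N y d e) + (d + 1) + (e + 1) +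
      2 * S0 N y d e + e * (d + 1) + e * (e + 1)) := by
    rw [mul_comm]
    exact Nat.mul_le_mul_left e h3
  have h5 : ∑ r ∈ XX N y d e, N.factorization r = S0 N y d e := rfl
  omega

/-- the constant in the bound for the number of bad edges -/
def K0 (e : ℕ) : ℝ := 1 + 3 * (e : ℝ) + e * (2 * (e + 1) + 2 * (e * (e + 1)))

theorem K0_ge (e : ℕ) : 1 ≤ K0 e := by
  unfold K0
  have : (0 : ℝ) ≤ e := Nat.cast_nonneg e
  have h2 : (0 : ℝ) ≤ e * (2 * (e + 1) + 2 * (e * (e + 1))) := by positivity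
  linarith

theorem n0_le_real (ho : Odd N) (hN : N.Perfect) (hd : Even d) (he : Even e) (hde : d ≤ e) :
    (n0 N y d e : ℝ) ≤ K0 e * (#(SM N y d e) + SS N y d e) := by
  have h1 : (n0 N y d e : ℝ) ≤ S0 N y d e + e * (#(SM N y d e) + (d + 1) + (e + 1) +
      2 * S0 N y d e + e * (d + 1) + e * (e + 1)) := by
    exact_mod_cast n0_le (y := y) ho hN hd he hde
  have h2 := S0_le N y d e
  have h3 := one_le_SS (y := y) ho hN hd he
  have h4 : (0 : ℝ) ≤ #(SM N y d e) := Nat.cast_nonneg _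
  have h5 : (0 : ℝ) ≤ e := Nat.cast_nonneg _
  have h6 : (d : ℝ) ≤ e := by exact_mod_cast hde
  have h7 : (0 : ℝ) ≤ d := Nat.cast_nonneg _
  set S := SS N y d e
  set p : ℝ := ((#(SM N y d e) : ℕ) : ℝ)
  have h8 : (e : ℝ) * (p + (d + 1) + (e + 1) + 2 * S0 N y d e + e * (d + 1) + e * (e + 1)) ≤
      e * (p + (e + 1) + (e + 1) + 2 * S + e * (e + 1) + e * (e + 1)) := by
    refine mul_le_mul_of_nonneg_left ?_ h5
    have : (e : ℝ) * (d + 1) ≤ e * (e + 1) := by gcongr
    linarith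
  have h9 : (n0 N y d e : ℝ) ≤ S + e * (p + 2 * S) + e * (2 * (e + 1) + 2 * (e * (e + 1))) := by
    calc (n0 N y d e : ℝ) ≤ _ := h1
      _ ≤ S + e * (p + (e + 1) + (e + 1) + 2 * S + e * (e + 1) + e * (e + 1)) := by linarith
      _ = _ := by ring
  have h10 : (0 : ℝ) ≤ e * (2 * (e + 1) + 2 * (e * (e + 1))) := by positivity
  have h11 : (e : ℝ) * (2 * (e + 1) + 2 * (e * (e + 1))) ≤
      e * (2 * (e + 1) + 2 * (e * (e + 1))) * (p + S) := by nlinarith
  unfold K0
  nlinarith [mul_nonneg h5 h4, mul_nonneg h5 (by linarith : (0 : ℝ) ≤ S)]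

/-- everything of exponent `d` or `e` up to `y` -/
theorem card_DE_le (hE : 1 ≤ e) :
    #(DE N y d e) ≤ #(DD N y d) + #(E0 N y d e) + n0 N y d e := by
  have h1 : DE N y d e ⊆ DD N y d ∪ (E0 N y d e ∪ (Bad N y d e).filter (fun r => N.factorization r = e)) := by
    intro r hr
    unfold DE at hr
    rw [mem_filter] at hr
    obtain ⟨hrN, hry, hv⟩ := hr
    by_cases hD : r ∈ DD N y d
    · exact mem_union_left _ hD
    apply mem_union_right
    by_cases hE : r ∈ E0 N y d e
    · exact mem_union_left _ hE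
    apply mem_union_right
    have hve : N.factorization r = e := by
      rcases hv with hv | hv
      · exfalso
        apply hD
        unfold DD
        rw [mem_filter]
        exact ⟨hrN, hry, hv⟩
      · exact hv
    have hD0 : r ∉ D0 N y d := by
      intro h
      apply hD
      unfold D0 at h
      unfold DD
      rw [mem_filter] at h ⊢
      exact ⟨h.1, h.2.1, h.2.2.1⟩
    unfold Bad
    rw [mem_filter, mem_filter]
    exact ⟨⟨hrN, hE, hD0⟩, hve⟩
  have h2 := card_le_card h1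
  have h3 := card_union_le (DD N y d)
    (E0 N y d e ∪ (Bad N y d e).filter (fun r => N.factorization r = e))
  have h4 := card_union_le (E0 N y d e) ((Bad N y d e).filter (fun r => N.factorization r = e))
  have h5 : #((Bad N y d e).filter (fun r => N.factorization r = e)) ≤ n0 N y d e := by
    unfold n0
    rw [card_eq_sum_ones]
    calc ∑ r ∈ (Bad N y d e).filter (fun r => N.factorization r = e), 1
        ≤ ∑ r ∈ (Bad N y d e).filter (fun r => N.factorization r = e), N.factorization r := by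
          refine sum_le_sum fun r hr => ?_
          rw [(mem_filter.1 hr).2]
          exact hE
      _ ≤ _ := sum_le_sum_of_subset_of_nonneg (filter_subset _ _) fun _ _ _ => Nat.zero_le _
  omega

/-- the final constant -/
theorem const_le (h2 : 2 ≤ d) (hde : d ^ 2 ≤ e) :
    4 * (((d : ℝ) + 1) * (d * K0 e + 1 + K0 e + 1) + 2 * K0 e) ≤ 40 * (e : ℝ) ^ 4 := by
  have he4 : (4 : ℝ) ≤ e := by
    have : 4 ≤ e := by nlinarith
    exact_mod_cast this
  have hd2 : (2 : ℝ) ≤ d := by exact_mod_cast h2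
  have hde' : (d : ℝ) ^ 2 ≤ e := by exact_mod_cast hde
  have he0 : (0 : ℝ) ≤ e := by linarith
  have hK : K0 e ≤ (10 / 3) * (e : ℝ) ^ 3 := by
    unfold K0
    have h1 : (e : ℝ) + 1 ≤ (5 / 4) * e := by linarith
    have h2 : ((e : ℝ) + 1) ^ 2 ≤ (25 / 16) * (e : ℝ) ^ 2 := by nlinarith
    have h3 : 1 + 3 * (e : ℝ) + e * (2 * (e + 1) + 2 * (e * (e + 1))) =
        1 + 3 * (e : ℝ) + 2 * e * (e + 1) ^ 2 := by ring
    rw [h3]
    have h4 : 2 * (e : ℝ) * (e + 1) ^ 2 ≤ 2 * e * ((25 / 16) * (e : ℝ) ^ 2) := by gcongr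
    have h5 : 1 + 3 * (e : ℝ) ≤ (13 / 64) * (e : ℝ) ^ 3 := by nlinarith [sq_nonneg ((e : ℝ) - 4)]
    nlinarith [pow_nonneg he0 3]
  have hd3 : ((d : ℝ) + 1) ^ 2 ≤ (9 / 4) * e := by nlinarith
  have hd4 : (d : ℝ) + 1 ≤ e := by nlinarith
  have h1 : 4 * (((d : ℝ) + 1) * (d * K0 e + 1 + K0 e + 1) + 2 * K0 e) =
      4 * (K0 e * (((d : ℝ) + 1) ^ 2 + 2) + 2 * (d + 1)) := by ring
  rw [h1]
  have h2 : K0 e * (((d : ℝ) + 1) ^ 2 + 2) ≤ (10 / 3) * (e : ℝ) ^ 3 * ((9 / 4) * e + 2) := by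
    apply mul_le_mul hK (by linarith) (by positivity) (by positivity)
  have h3 : (10 / 3) * (e : ℝ) ^ 3 * ((9 / 4) * e + 2) ≤ (10 / 3) * (e : ℝ) ^ 3 * ((11 / 4) * e) := by
    apply mul_le_mul_of_nonneg_left _ (by positivity)
    linarith
  have h4 : 2 * ((d : ℝ) + 1) ≤ (1 / 32) * (e : ℝ) ^ 4 := by
    have h5 : (64 : ℝ) ≤ (e : ℝ) ^ 3 := by
      have : (4 : ℝ) ^ 3 ≤ (e : ℝ) ^ 3 := pow_le_pow_left₀ (by norm_num) he4 3
      linarith
    nlinarith
  nlinarith [pow_nonneg he0 4]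

/-- no logarithm for `d ^ 2 < e` -/
theorem two_ineq_aux (hd : Even d) (he : Even e) (h2 : 2 ≤ d) (hde : d ^ 2 < e) :
    ∀ N y : ℕ, Odd N → N.Perfect → 2 ≤ y →
      (#(DE N y d e) : ℝ) ≤ 20 * (e : ℝ) ^ 4 * (#(SM N y d e) + SS N y d e) := by
  have hde' : d ≤ e := by nlinarith
  intro N y ho hN hy
  have h1 := e_card_E0_le (N := N) (y := y) (d := d) (e := e) ho hN (by omega) hy
  have h3 : (#(DD N y d) : ℝ) ≤ (d : ℝ) * #(E0 N y d e) + n0 N y d e := by
    have h4 := card_DD_le (e := e) ho hN (by omega) hd hy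
    have h5 : ∑ r ∈ E0 N y d e, #(At N y d r) ≤ ∑ r ∈ E0 N y d e, d :=
      sum_le_sum fun r hr => card_At_le (E0_prime hr).1
    rw [sum_const, smul_eq_mul] at h5
    have h6 : #(DD N y d) ≤ #(E0 N y d e) * d + n0 N y d e := by omega
    have h7 : (#(DD N y d) : ℝ) ≤ (#(E0 N y d e) : ℝ) * d + n0 N y d e := by exact_mod_cast h6
    linarith [mul_comm (d : ℝ) (#(E0 N y d e))]
  have h4 := n0_le_real (y := y) ho hN hd he hde'
  have h5 : (#(DE N y d e) : ℝ) ≤ #(DD N y d) + #(E0 N y d e) + n0 N y d e := by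
    exact_mod_cast card_DE_le (N := N) (y := y) (by nlinarith)
  have h6 := one_le_SS (y := y) ho hN hd he
  have hpi : (0 : ℝ) ≤ #(SM N y d e) := Nat.cast_nonneg _
  have hd0 : (0 : ℝ) ≤ d := Nat.cast_nonneg _
  have hE0 : (0 : ℝ) ≤ #(E0 N y d e) := Nat.cast_nonneg _
  have hgap : (d : ℝ) ^ 2 + 1 ≤ e := by exact_mod_cast hde
  have h7 : (#(E0 N y d e) : ℝ) ≤ d * n0 N y d e + 2 * SS N y d e := by
    have h8 : (e : ℝ) * #(E0 N y d e) ≤ (d : ℝ) * ((d : ℝ) * #(E0 N y d e) + n0 N y d e) +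
        2 * SS N y d e := h1.trans (by gcongr)
    nlinarith
  have hK := K0_ge e
  set S := SS N y d e
  set p : ℝ := ((#(SM N y d e) : ℕ) : ℝ)
  have h8 : (#(E0 N y d e) : ℝ) ≤ (d * K0 e + 2) * (p + S) := by
    have : (d : ℝ) * n0 N y d e ≤ d * (K0 e * (p + S)) := by gcongr
    nlinarith
  have h9 : (#(DE N y d e) : ℝ) ≤ (d + 1) * #(E0 N y d e) + 2 * n0 N y d e := by linarith
  have hpS : 0 ≤ p + S := by linarith
  have hc := const_le h2 hde.le
  calc (#(DE N y d e) : ℝ) ≤ (d + 1) * #(E0 N y d e) + 2 * n0 N y d e := h9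
    _ ≤ (d + 1) * ((d * K0 e + 2) * (p + S)) + 2 * (K0 e * (p + S)) := by gcongr
    _ = ((d + 1) * (d * K0 e + 2) + 2 * K0 e) * (p + S) := by ring
    _ ≤ (2 * (((d : ℝ) + 1) * (d * K0 e + 1 + K0 e + 1) + 2 * K0 e)) * (p + S) := by
        apply mul_le_mul_of_nonneg_right _ hpS
        have h10 : 0 ≤ ((d : ℝ) + 1) * K0 e := by positivity
        have h11 : 0 ≤ ((d : ℝ) + 1) * (d * K0 e) := by positivity
        nlinarith
    _ ≤ 20 * (e : ℝ) ^ 4 * (p + S) := by
        apply mul_le_mul_of_nonneg_right _ hpS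
        linarith

theorem two_ineq' (hd : Even d) (he : Even e) (h2 : 2 ≤ d) (hde : d ^ 2 < e) : TwoIneq' d e := by
  intro N y ho hN hy
  have h1 := two_ineq_aux hd he h2 hde N y ho hN hy
  have h6 := one_le_SS (y := y) ho hN hd he
  have hpi : (0 : ℝ) ≤ #(SM N y d e) := Nat.cast_nonneg _
  have h3 : 0 ≤ (#(SM N y d e) : ℝ) + SS N y d e := by linarith
  have h5 : 0 ≤ 20 * (e : ℝ) ^ 4 * (#(SM N y d e) + SS N y d e) := by positivity
  linarith

/-- the extremal case `e = d ^ 2` -/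
theorem two_ineq_sq (hd : Even d) (h2 : 2 ≤ d) : TwoIneq d (d ^ 2) := by
  obtain ⟨e, hedef⟩ : ∃ e, e = d ^ 2 := ⟨_, rfl⟩
  rw [← hedef]
  have he : Even e := by rw [hedef]; exact hd.pow_of_ne_zero (by norm_num)
  have hde' : d ≤ e := by nlinarith
  intro N y ho hN hy
  have h1 := e_card_E0_le (N := N) (y := y) (d := d) (e := e) ho hN (by omega) hy
  have h3 : (#(DD N y d) : ℝ) ≤ (∑ r ∈ E0 N y d e, #(At N y d r) : ℕ) + n0 N y d e := by
    exact_mod_cast card_DD_le (e := e) ho hN (by omega) hd hy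
  have h4 := n0_le_real (y := y) ho hN hd he hde'
  have h5 : (#(DE N y d e) : ℝ) ≤ #(DD N y d) + #(E0 N y d e) + n0 N y d e := by
    exact_mod_cast card_DE_le (N := N) (y := y) (by nlinarith)
  have h6 := one_le_SS (y := y) ho hN hd he
  have hlm := log_mass (N := N) (y := y) (d := d) (e := e) ho hN hy
  have hld := sum_log_DD_le (e := e) ho hN (by omega : 1 ≤ d) hd hy
  have hpi : (0 : ℝ) ≤ #(SM N y d e) := Nat.cast_nonneg _
  have hd2 : (2 : ℝ) ≤ d := by exact_mod_cast h2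
  have hn0 : (0 : ℝ) ≤ n0 N y d e := Nat.cast_nonneg _
  have hE0 : (0 : ℝ) ≤ #(E0 N y d e) := Nat.cast_nonneg _
  have hyr : (2 : ℝ) ≤ y := by exact_mod_cast hy
  have hly : 0 < Real.log y := Real.log_pos (by linarith)
  have hL : 0 < Real.log ((y : ℝ) + 1) := Real.log_pos (by linarith)
  have hLy : Real.log ((y : ℝ) + 1) ≤ 2 * Real.log y := by
    have : Real.log ((y : ℝ) + 1) ≤ Real.log ((y : ℝ) ^ 2) := by
      apply Real.log_le_log (by linarith)
      nlinarith
    rwa [Real.log_pow] at this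
  have h1y : 1 ≤ 2 * Real.log y := by
    have h10 : Real.log 2 ≤ Real.log y := Real.log_le_log (by norm_num) hyr
    have h11 := Real.log_two_gt_d9
    linarith
  set S := SS N y d e
  set p : ℝ := ((#(SM N y d e) : ℕ) : ℝ)
  set V : ℝ := (#((E0 N y d e).filter (fun r => #(At N y d r) = d)) : ℝ) with hV
  have heR : (e : ℝ) = (d : ℝ) ^ 2 := by rw [hedef]; push_cast; ring
  -- the log-mass
  have h7 : (d : ℝ) * ∑ r ∈ E0 N y d e, ∑ q ∈ At N y d r, Real.log ((q : ℝ) + 1) ≤
      (d : ℝ) ^ 2 * ∑ r ∈ E0 N y d e, Real.log r - V := by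
    have h8 : ∀ r ∈ E0 N y d e, (d : ℝ) * ∑ q ∈ At N y d r, Real.log ((q : ℝ) + 1) ≤
        (d : ℝ) ^ 2 * Real.log r - (if #(At N y d r) = d then 1 else 0) := by
      intro r hr
      have hr1 : ¬ r ∣ d + 1 := by
        unfold E0 at hr
        exact (mem_filter.1 hr).2.2.2.2.1
      exact sum_log_roots (E0_prime hr).1 h2 hr1 _ (At_sub r)
    have h9 := sum_le_sum h8
    rw [← mul_sum, sum_sub_distrib, ← mul_sum, ← sum_filter] at h9
    rw [hV, card_eq_sum_ones]
    push_cast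
    exact h9
  have hVle : V ≤ (d * n0 N y d e + S) * Real.log ((y : ℝ) + 1) := by
    rw [heR] at hlm
    have h10 : (d : ℝ) * ∑ q ∈ DD N y d, Real.log ((q : ℝ) + 1) ≤
        (d : ℝ) * (∑ r ∈ E0 N y d e, ∑ q ∈ At N y d r, Real.log ((q : ℝ) + 1) +
        n0 N y d e * Real.log ((y : ℝ) + 1)) := by gcongr
    nlinarith
  -- the rest
  have hrest : (#(E0 N y d e) : ℝ) - V ≤ n0 N y d e + S := by
    have h8 : ∀ r ∈ E0 N y d e, (#(At N y d r) : ℝ) + 1 ≤
        d + (if #(At N y d r) = d then 1 else 0) := by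
      intro r hr
      have h9 := card_At_le (N := N) (y := y) (d := d) (E0_prime hr).1
      split_ifs with h
      · rw [h]
      · have : #(At N y d r) + 1 ≤ d := by omega
        have : (#(At N y d r) : ℝ) + 1 ≤ d := by exact_mod_cast this
        linarith
    have h9 := sum_le_sum h8
    rw [sum_add_distrib, sum_add_distrib, ← sum_filter, sum_const, sum_const, nsmul_eq_mul,
      nsmul_eq_mul] at h9
    have h10 : ((∑ r ∈ E0 N y d e, #(At N y d r) : ℕ) : ℝ) + #(E0 N y d e) ≤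
        #(E0 N y d e) * d + V := by
      rw [hV, card_eq_sum_ones ((E0 N y d e).filter (fun r => #(At N y d r) = d))]
      push_cast
      simpa using h9
    rw [heR] at h1
    have h11 : (d : ℝ) ^ 2 * #(E0 N y d e) ≤ d * (#(E0 N y d e) * d + V - #(E0 N y d e) +
        n0 N y d e) + 2 * S := by
      refine h1.trans ?_
      have : (d : ℝ) * #(DD N y d) ≤ d * (#(E0 N y d e) * d + V - #(E0 N y d e) +
        n0 N y d e) := by
        refine mul_le_mul_of_nonneg_left ?_ (by linarith)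
        linarith
      linarith
    have h12 : (d : ℝ) * (#(E0 N y d e) - V) ≤ d * n0 N y d e + 2 * S := by nlinarith
    have h13 : (d : ℝ) * (#(E0 N y d e) - V) ≤ d * (n0 N y d e + S) := by nlinarith
    exact le_of_mul_le_mul_left h13 (by linarith)
  have hK := K0_ge e
  have hpS : 0 ≤ p + S := by linarith
  -- put together
  have h8 : (#(E0 N y d e) : ℝ) ≤ 2 * Real.log y * ((d * K0 e + 1 + K0 e + 1) * (p + S)) := by
    have h9 : (#(E0 N y d e) : ℝ) ≤ (d * n0 N y d e + S) * (2 * Real.log y) +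
        (n0 N y d e + S) * (2 * Real.log y) := by
      have h10 : (d * n0 N y d e + S) * Real.log ((y : ℝ) + 1) ≤
          (d * n0 N y d e + S) * (2 * Real.log y) := by
        refine mul_le_mul_of_nonneg_left hLy ?_
        have : 0 ≤ (d : ℝ) * n0 N y d e := by positivity
        linarith
      have h11 : (n0 N y d e + S) ≤ (n0 N y d e + S) * (2 * Real.log y) := by
        nlinarith
      linarith
    have h10 : (d : ℝ) * n0 N y d e ≤ d * (K0 e * (p + S)) := by gcongr
    have h11 : (d * n0 N y d e + S) + (n0 N y d e + S) ≤ (d * K0 e + 1 + K0 e + 1) * (p + S) := by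
      nlinarith
    calc (#(E0 N y d e) : ℝ) ≤ ((d * n0 N y d e + S) + (n0 N y d e + S)) * (2 * Real.log y) := by
          linarith
      _ ≤ ((d * K0 e + 1 + K0 e + 1) * (p + S)) * (2 * Real.log y) := by gcongr
      _ = _ := by ring
  have h9 : (#(DD N y d) : ℝ) ≤ (d : ℝ) * #(E0 N y d e) + n0 N y d e := by
    have h5 : ∑ r ∈ E0 N y d e, #(At N y d r) ≤ ∑ r ∈ E0 N y d e, d :=
      sum_le_sum fun r hr => card_At_le (E0_prime hr).1
    rw [sum_const, smul_eq_mul] at h5
    have h7 : ((∑ r ∈ E0 N y d e, #(At N y d r) : ℕ) : ℝ) ≤ (#(E0 N y d e) : ℝ) * d := by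
      exact_mod_cast h5
    linarith [mul_comm (d : ℝ) (#(E0 N y d e))]
  have h10 : (#(DE N y d e) : ℝ) ≤ (d + 1) * #(E0 N y d e) + 2 * n0 N y d e := by linarith
  have h11 : 2 * (n0 N y d e : ℝ) ≤ 2 * Real.log y * (2 * (K0 e * (p + S))) := by
    have h12 : 0 ≤ K0 e * (p + S) := by positivity
    nlinarith
  calc (#(DE N y d e) : ℝ) ≤ (d + 1) * #(E0 N y d e) + 2 * n0 N y d e := h10
    _ ≤ (d + 1) * (2 * Real.log y * ((d * K0 e + 1 + K0 e + 1) * (p + S))) +
        2 * Real.log y * (2 * (K0 e * (p + S))) := by gcongr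
    _ = 2 * Real.log y * (((d + 1) * (d * K0 e + 1 + K0 e + 1) + 2 * K0 e) * (p + S)) := by ring
    _ ≤ 4 * Real.log y * (((d + 1) * (d * K0 e + 1 + K0 e + 1) + 2 * K0 e) * (p + S)) := by
        gcongr
        norm_num
    _ = 4 * (((d : ℝ) + 1) * (d * K0 e + 1 + K0 e + 1) + 2 * K0 e) *
        (Real.log y * (p + S)) := by ring
    _ ≤ 40 * (e : ℝ) ^ 4 * (Real.log y * (p + S)) :=
        mul_le_mul_of_nonneg_right (const_le h2 hedef.ge) (by positivity)
    _ = _ := by ring

theorem two_ineq (hd : Even d) (he : Even e) (h2 : 2 ≤ d) (hde : d ^ 2 ≤ e) : TwoIneq d e := by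
  rcases hde.lt_or_eq with h | h
  · have hK := const_le h2 hde
    have hde' : d ≤ e := by nlinarith
    intro N y ho hN hy
    have h1 := two_ineq_aux hd he h2 h N y ho hN hy
    have h6 := one_le_SS (y := y) ho hN hd he
    have hpi : (0 : ℝ) ≤ #(SM N y d e) := Nat.cast_nonneg _
    have hyr : (2 : ℝ) ≤ y := by exact_mod_cast hy
    have h1y : 1 ≤ 2 * Real.log y := by
      have h10 : Real.log 2 ≤ Real.log y := Real.log_le_log (by norm_num) hyr
      have h11 := Real.log_two_gt_d9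
      linarith
    have h3 : 0 ≤ (#(SM N y d e) : ℝ) + SS N y d e := by linarith
    have h4 : (#(DE N y d e) : ℝ) ≤ 20 * (e : ℝ) ^ 4 * (#(SM N y d e) + SS N y d e) := h1
    have h5 : 0 ≤ 20 * (e : ℝ) ^ 4 * (#(SM N y d e) + SS N y d e) := by positivity
    nlinarith
  · rw [← h]
    exact two_ineq_sq hd h2

end Pool.Agent.BE
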