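import Pool.Agent.Lib.MP_f02ea4_nt.BE.TwoB

/-!
# The exponents `2` and `e`: at most one smaller tail
-/

set_option autoImplicit false

namespace Pool.Agent.BE

open Finset Nat

variable {N y e : ℕ}

/-- a prime factor `r ≠ 3` of `u ^ 2 + u + 1` is `1` modulo `3` -/
theorem mod_three_of_dvd {u r : ℕ} (hr : r.Prime) (h3 : ¬ r ∣ 2 + 1) (h : r ∣ G (2 + 1) u) :
    r % 3 = 1 := by
  rcases head_order (by norm_num) hr h with h1 | ⟨l, hl, hl3, hlr⟩
  · exact absurd h1 h3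
  · have hl' : l = 3 := (Nat.prime_dvd_prime_iff_eq hl Nat.prime_three).1 hl3
    subst hl'
    have := hr.one_le
    omega

/-- two smaller roots of `x ^ 2 + x + 1` which are `2` modulo `3` are equal -/
theorem root_unique {u v r : ℕ} (hr : r.Prime) (h3 : ¬ r ∣ 2 + 1) (hu : r ∣ G (2 + 1) u)
    (hv : r ∣ G (2 + 1) v) (hur : u < r) (hvr : v < r) (hu3 : u % 3 = 2) (hv3 : v % 3 = 2) :
    u = v := by
  have hr3 := mod_three_of_dvd hr h3 hu
  have key : ∀ a b : ℕ, r ∣ G (2 + 1) a → r ∣ G (2 + 1) b → a < r → b < r → a % 3 = 2 →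
      b % 3 = 2 → a ≤ b → a = b := by
    intro a b ha hb har hbr ha3 hb3 hab
    have h1 : r ∣ G (2 + 1) b - G (2 + 1) a := Nat.dvd_sub hb ha
    have h2 : G (2 + 1) b - G (2 + 1) a = (b - a) * (b + a + 1) := by
      unfold G
      simp only [sum_range_succ, sum_range_zero]
      obtain ⟨k, rfl⟩ := Nat.exists_eq_add_of_le hab
      have : a + k - a = k := by omega
      rw [this]
      have h4 : 0 + (a + k) ^ 0 + (a + k) ^ 1 + (a + k) ^ 2 =
          (0 + a ^ 0 + a ^ 1 + a ^ 2) + k * (a + k + a + 1) := by ring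
      rw [h4]
      omega
    rw [h2] at h1
    rcases (Nat.Prime.dvd_mul hr).1 h1 with h4 | h4
    · by_contra hne
      have h5 := Nat.le_of_dvd (by omega) h4
      omega
    · exfalso
      obtain ⟨k, hk⟩ := h4
      have hk1 : k < 2 := by
        by_contra hcon
        push Not at hcon
        have : r * 2 ≤ r * k := Nat.mul_le_mul_left r hcon
        omega
      have hk2 : k ≠ 0 := by
        rintro rfl
        omega
      have hk3 : k = 1 := by omega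
      subst hk3
      omega
  rcases le_total u v with h | h
  · exact key u v hu hv hur hvr hu3 hv3 h
  · exact (key v u hv hu hvr hur hv3 hu3 h).symm

/-- the smaller tails which are `2` modulo `3` -/
def At3 (N y r : ℕ) : Finset ℕ := {q ∈ At N y 2 r | q % 3 = 2}

theorem card_At3_le {r : ℕ} (hr : r ∈ E0 N y 2 e) : #(At3 N y r) ≤ 1 := by
  have hr' := hr
  unfold E0 at hr'
  rw [mem_filter] at hr'
  obtain ⟨hrN, -, -, -, hr3, -, -⟩ := hr'
  have hrp := Nat.prime_of_mem_primeFactors hrN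
  rw [card_le_one]
  intro u hu v hv
  unfold At3 At DD at hu hv
  simp only [mem_filter] at hu hv
  obtain ⟨⟨⟨-, -, hu1⟩, hu2, hu3⟩, hu4⟩ := hu
  obtain ⟨⟨⟨-, -, hv1⟩, hv2, hv3⟩, hv4⟩ := hv
  rw [s, hu1] at hu3
  rw [s, hv1] at hv3
  exact root_unique hrp hr3 hu3 hv3 hu2 hv2 hu4 hv4

theorem three_mem_Bad (h : 3 ∈ N.primeFactors) : 3 ∈ Bad N y 2 e := by
  unfold Bad E0 D0
  simp only [mem_filter]
  refine ⟨h, ?_, ?_⟩
  · rintro ⟨-, -, -, -, h5, -⟩
    exact h5 (by norm_num)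
  · rintro ⟨-, -, -, -, h5, -⟩
    exact h5 (by norm_num)

theorem DD_sub3 (ho : Odd N) (hN : N.Perfect) (hy : 2 ≤ y) :
    DD N y 2 ⊆ {3} ∪ (BT N y 2 e ∪ (E0 N y 2 e).biUnion (At3 N y)) := by
  intro q hq
  rw [mem_union]
  by_cases hq3 : q = 3
  · left
    rw [mem_singleton]
    exact hq3
  right
  rw [mem_union]
  have hqN : q ∈ N.primeFactors := by
    unfold DD at hq
    exact (mem_filter.1 hq).1
  have hqd : N.factorization q = 2 := by
    unfold DD at hq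
    exact (mem_filter.1 hq).2.2
  have hqp := Nat.prime_of_mem_primeFactors hqN
  have h0 : q % 3 ≠ 0 := by
    intro h
    exact hq3 ((Nat.prime_dvd_prime_iff_eq Nat.prime_three hqp).1 (Nat.dvd_of_mod_eq_zero h)).symm
  by_cases h1 : q % 3 = 1
  · left
    have h2 : 3 ∣ s N q := by
      rw [s, hqd]
      apply dvd_G_of_one hqp.one_le _ (by norm_num)
      have := hqp.one_le
      omega
    unfold BT
    rw [mem_filter]
    exact ⟨hq, 3, three_mem_Bad (head_mem hN hqN Nat.prime_three h2 (by norm_num)), h2⟩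
  · have h2 : q % 3 = 2 := by omega
    rcases mem_union.1 (DD_sub (e := e) ho hN (by norm_num) (by norm_num) hy hq) with h | h
    · left
      exact h
    · right
      rw [mem_biUnion] at h ⊢
      obtain ⟨r, hr, hqr⟩ := h
      refine ⟨r, hr, ?_⟩
      unfold At3
      rw [mem_filter]
      exact ⟨hqr, h2⟩

theorem card_DD_le3 (ho : Odd N) (hN : N.Perfect) (hy : 2 ≤ y) :
    #(DD N y 2) ≤ #(E0 N y 2 e) + n0 N y 2 e + 1 := by
  have h1 := card_le_card (DD_sub3 (e := e) ho hN hy)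
  have h2 := card_union_le {3} (BT N y 2 e ∪ (E0 N y 2 e).biUnion (At3 N y))
  have h3 := card_union_le (BT N y 2 e) ((E0 N y 2 e).biUnion (At3 N y))
  have h4 : #((E0 N y 2 e).biUnion (At3 N y)) ≤ ∑ r ∈ E0 N y 2 e, #(At3 N y r) := card_biUnion_le
  have h5 : ∑ r ∈ E0 N y 2 e, #(At3 N y r) ≤ ∑ r ∈ E0 N y 2 e, 1 :=
    sum_le_sum fun r hr => card_At3_le hr
  have h6 := card_BT_le (y := y) (d := 2) (e := e) ho hN
  rw [← card_eq_sum_ones] at h5
  rw [card_singleton] at h2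
  omega

/-- the inequality for the exponents `2` and `e`, without logarithm -/
theorem two_ineq3 (he : Even e) (h4 : 4 ≤ e) : TwoIneq' 2 e := by
  intro N y ho hN hy
  have h1 := e_card_E0_le (N := N) (y := y) (d := 2) (e := e) ho hN (by omega) hy
  have h3 : (#(DD N y 2) : ℝ) ≤ #(E0 N y 2 e) + n0 N y 2 e + 1 := by
    exact_mod_cast card_DD_le3 (e := e) ho hN hy
  have h5 := n0_le_real (y := y) ho hN even_two he (by omega : 2 ≤ e)
  have h6 : (#(DE N y 2 e) : ℝ) ≤ #(DD N y 2) + #(E0 N y 2 e) + n0 N y 2 e := by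
    exact_mod_cast card_DE_le (N := N) (y := y) (by omega)
  have h7 := one_le_SS (y := y) ho hN even_two he
  have hpi : (0 : ℝ) ≤ #(SM N y 2 e) := Nat.cast_nonneg _
  have hE0 : (0 : ℝ) ≤ #(E0 N y 2 e) := Nat.cast_nonneg _
  have hn0 : (0 : ℝ) ≤ n0 N y 2 e := Nat.cast_nonneg _
  have he4 : (4 : ℝ) ≤ e := by exact_mod_cast h4
  have h8 : (#(E0 N y 2 e) : ℝ) ≤ n0 N y 2 e + 1 + SS N y 2 e := by
    push_cast at h1
    nlinarith
  have h9 : (#(DE N y 2 e) : ℝ) ≤ 4 * n0 N y 2 e + 3 + 2 * SS N y 2 e := by linarith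
  have hK : K0 e ≤ (10 / 3) * (e : ℝ) ^ 3 := by
    unfold K0
    have he0 : (0 : ℝ) ≤ e := by linarith
    have h1 : (e : ℝ) + 1 ≤ (5 / 4) * e := by linarith
    have h2 : ((e : ℝ) + 1) ^ 2 ≤ (25 / 16) * (e : ℝ) ^ 2 := by nlinarith
    have h3 : 1 + 3 * (e : ℝ) + e * (2 * (e + 1) + 2 * (e * (e + 1))) =
        1 + 3 * (e : ℝ) + 2 * e * (e + 1) ^ 2 := by ring
    rw [h3]
    have h4 : 2 * (e : ℝ) * (e + 1) ^ 2 ≤ 2 * e * ((25 / 16) * (e : ℝ) ^ 2) := by gcongr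
    have h5 : 1 + 3 * (e : ℝ) ≤ (13 / 64) * (e : ℝ) ^ 3 := by nlinarith [sq_nonneg ((e : ℝ) - 4)]
    nlinarith [pow_nonneg he0 3]
  have hpS : 1 ≤ (#(SM N y 2 e) : ℝ) + SS N y 2 e := by linarith
  have h10 : (n0 N y 2 e : ℝ) ≤ (10 / 3) * (e : ℝ) ^ 3 * (#(SM N y 2 e) + SS N y 2 e) :=
    h5.trans (mul_le_mul_of_nonneg_right hK (by linarith))
  have h11 : (40 / 3) * (e : ℝ) ^ 3 + 5 ≤ 40 * (e : ℝ) ^ 4 := by
    have : (64 : ℝ) ≤ (e : ℝ) ^ 3 := by
      have : (4 : ℝ) ^ 3 ≤ (e : ℝ) ^ 3 := pow_le_pow_left₀ (by norm_num) he4 3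
      linarith
    nlinarith
  calc (#(DE N y 2 e) : ℝ) ≤ 4 * n0 N y 2 e + 3 + 2 * SS N y 2 e := h9
    _ ≤ 4 * ((10 / 3) * (e : ℝ) ^ 3 * (#(SM N y 2 e) + SS N y 2 e)) +
        5 * (#(SM N y 2 e) + SS N y 2 e) := by linarith
    _ = ((40 / 3) * (e : ℝ) ^ 3 + 5) * (#(SM N y 2 e) + SS N y 2 e) := by ring
    _ ≤ 40 * (e : ℝ) ^ 4 * (#(SM N y 2 e) + SS N y 2 e) :=
        mul_le_mul_of_nonneg_right h11 (by linarith)

end Pool.Agent.BE
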